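import Pool.Agent.Y122.MU.Lio

/-! The metric law for the Liouville function at integer parts. -/

set_option autoImplicit false

namespace Pool.Agent.Y122.MU

open MeasureTheory Polynomial Filter Topology
open Pool.Agent.H305R2 (NN measurable_NN)
open Pool.Agent.Y122.MH (gR gR_natDegree gR_leadingCoeff gR_eval NN_floor dim_exp)

/-- the Liouville function on the integers -/
noncomputable def lamZ (n : ℤ) : ℝ := if n = 0 then 0 else lio n.natAbs

lemma lamZ_abs (n : ℤ) : |lamZ n| ≤ 1 := by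
  unfold lamZ
  split_ifs
  · simp
  · exact (lio_abs _).le

lemma irr_of {α : ℝ} (hirr : Irrational α) {m : ℕ} (hm : 0 < m) : Irrational (α * m) :=
  hirr.mul_natCast (by omega)

/-- positive leading coefficient -/
lemma ev_pos {α : ℝ} (hα : 0 < α) (hirr : Irrational α) (f : ℤ[X]) (hd : 1 ≤ f.natDegree)
    (hlc : 0 < f.leadingCoeff) : ∀ᶠ n : ℕ in atTop,
    lamZ ⌊α * ((f.eval (n : ℤ) : ℤ) : ℝ)⌋ = s1 (NN (Real.log ((gR f).eval (n : ℝ)) + Real.log α)) ∧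
    lamZ ⌊α * (((-f).eval (n : ℤ) : ℤ) : ℝ)⌋ = s2 (NN (Real.log ((gR f).eval (n : ℝ)) + Real.log α)) := by
  have hd' : 1 ≤ (gR f).natDegree := by rw [gR_natDegree]; exact hd
  have hlc' : 0 < (gR f).leadingCoeff := by rw [gR_leadingCoeff]; exact_mod_cast hlc
  have h1 : Tendsto (fun x => (gR f).eval x) atTop atTop := by
    rw [Polynomial.tendsto_atTop_iff_leadingCoeff_nonneg]
    exact ⟨Polynomial.natDegree_pos_iff_degree_pos.1 hd', hlc'.le⟩
  have h2 := (h1.comp tendsto_natCast_atTop_atTop).eventually_ge_atTop (max 1 (2 / α))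
  filter_upwards [h2] with n hn
  simp only [Function.comp] at hn
  have hn1 : (1 : ℝ) ≤ (gR f).eval (n : ℝ) := (le_max_left _ _).trans hn
  have hn2 : 2 / α ≤ (gR f).eval (n : ℝ) := (le_max_right _ _).trans hn
  rw [div_le_iff₀ hα, mul_comm] at hn2
  have e1 := gR_eval f n
  have hz1 : (1 : ℤ) ≤ f.eval (n : ℤ) := by
    rw [e1] at hn1
    exact_mod_cast hn1
  obtain ⟨m, hm⟩ : ∃ m : ℕ, f.eval (n : ℤ) = m := ⟨(f.eval (n : ℤ)).toNat, by omega⟩
  have hm1 : 1 ≤ m := by omega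
  have e2 : (gR f).eval (n : ℝ) = m := by rw [e1, hm]; push_cast; rfl
  have hir : Irrational (α * (m : ℝ)) := irr_of hirr hm1
  have hmr : (0 : ℝ) < m := by exact_mod_cast hm1
  rw [e2] at hn2 ⊢
  rw [NN_floor hmr hα hir]
  set y : ℝ := α * m with hy
  have hy2 : 2 ≤ y := hn2
  have hfl : 2 ≤ ⌊y⌋₊ := Nat.le_floor (by exact_mod_cast hy2)
  have e3 : ⌊y⌋ = (⌊y⌋₊ : ℤ) := (Int.natCast_floor_eq_floor (by linarith)).symm
  constructor
  · rw [hm]
    push_cast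
    rw [← hy, e3]
    unfold lamZ s1
    rw [if_neg (by omega), if_neg (by omega), Int.natAbs_natCast]
  · rw [eval_neg, hm]
    push_cast
    rw [mul_neg, ← hy, Int.floor_neg]
    have e4 : ⌈y⌉ = (⌊y⌋₊ : ℤ) + 1 := by
      rw [← e3]
      rw [Int.ceil_eq_iff]
      push_cast
      refine ⟨?_, (Int.lt_floor_add_one y).le⟩
      rw [add_sub_cancel_right]
      refine lt_of_le_of_ne (Int.floor_le y) fun h => ?_
      exact hir ⟨(⌊y⌋ : ℚ), by push_cast; exact h⟩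
    rw [e4]
    unfold lamZ s2
    rw [if_neg (by omega), if_neg (by omega), Int.natAbs_neg]
    congr 1

/-- the sum -/
noncomputable def LS (α : ℝ) (f : ℤ[X]) (q r N : ℕ) : ℝ :=
  ∑ t ∈ (Finset.Icc 1 N).filter (fun t : ℕ => t ≡ r [MOD q]), lamZ ⌊α * ((f.eval (t : ℤ) : ℤ) : ℝ)⌋

/-- finitely many terms do not matter -/
lemma fin_near (u v : ℕ → ℝ) (hu : ∀ n, |u n| ≤ 1) (hv : ∀ n, |v n| ≤ 1) (n0 : ℕ)
    (h : ∀ n, n0 ≤ n → u n = v n) (s : Finset ℕ) : |∑ n ∈ s, u n| ≤ |∑ n ∈ s, v n| + 2 * n0 := by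
  have h1 : ∑ n ∈ s, u n = ∑ n ∈ s, v n + ∑ n ∈ s, (u n - v n) := by
    rw [← Finset.sum_add_distrib]
    exact Finset.sum_congr rfl fun n _ => by ring
  rw [h1]
  refine (abs_add_le _ _).trans (add_le_add le_rfl ?_)
  have h2 : ∑ n ∈ s, (u n - v n) = ∑ n ∈ s.filter (fun n => n < n0), (u n - v n) := by
    rw [Finset.sum_filter]
    refine Finset.sum_congr rfl fun n _ => ?_
    split_ifs with h3
    · rfl
    · rw [h n (by omega), sub_self]
  rw [h2]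
  refine (Finset.abs_sum_le_sum_abs _ _).trans ?_
  have h3 : ∀ n ∈ s.filter (fun n => n < n0), |u n - v n| ≤ 2 := fun n _ =>
    (abs_sub _ _).trans (by linarith [hu n, hv n])
  refine (Finset.sum_le_sum h3).trans ?_
  rw [Finset.sum_const, nsmul_eq_mul]
  have h4 : (s.filter (fun n => n < n0)).card ≤ n0 := by
    calc (s.filter (fun n => n < n0)).card ≤ (Finset.range n0).card := by
          refine Finset.card_le_card fun x hx => ?_
          rw [Finset.mem_filter] at hx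
          exact Finset.mem_range.2 hx.2
      _ = n0 := Finset.card_range _
  have h5 : (((s.filter (fun n => n < n0)).card : ℕ) : ℝ) ≤ n0 := by exact_mod_cast h4
  linarith

lemma ev_const (K n0 : ℕ) {η : ℝ} (hη : η ≤ 1 / 2) : ∀ᶠ N : ℕ in atTop, ∀ q : ℕ, 1 ≤ q → (q : ℝ) ≤ (N : ℝ) ^ η →
    (N : ℝ) / q / Real.log N ^ (K + 1) + 2 * n0 ≤ (N : ℝ) / q / Real.log N ^ K := by
  have h1 : ∀ᶠ N : ℕ in atTop, (4 * n0 + 1 : ℝ) ≤ (N : ℝ) ^ (1 / 2 : ℝ) / Real.log N ^ K := by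
    have h2 : Tendsto (fun y : ℝ => Real.exp (1 / 2 * y) / y ^ K) atTop atTop := by
      have h3 := tendsto_exp_mul_div_rpow_atTop (K : ℝ) (1 / 2) (by norm_num)
      refine h3.congr fun y => ?_
      rw [Real.rpow_natCast]
    have h4 := h2.comp (Real.tendsto_log_atTop.comp tendsto_natCast_atTop_atTop)
    filter_upwards [h4.eventually_ge_atTop (4 * n0 + 1 : ℝ), eventually_ge_atTop 1] with N h5 h6
    have h7 : (0 : ℝ) < N := by exact_mod_cast h6
    simp only [Function.comp] at h5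
    rw [Real.rpow_def_of_pos h7, mul_comm (Real.log _)]
    exact h5
  have h2 : ∀ᶠ N : ℕ in atTop, 2 ≤ Real.log N :=
    (Real.tendsto_log_atTop.comp tendsto_natCast_atTop_atTop).eventually_ge_atTop 2
  filter_upwards [h1, h2, eventually_ge_atTop 1] with N h3 h4 h5 q hq hqN
  have hN1 : (1 : ℝ) ≤ N := by exact_mod_cast h5
  have hN0 : (0 : ℝ) < N := by linarith
  have hq0 : (0 : ℝ) < q := by exact_mod_cast hq
  have hl0 : (0 : ℝ) < Real.log N := by linarith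
  have hq2 : (q : ℝ) ≤ (N : ℝ) ^ (1 / 2 : ℝ) := hqN.trans (Real.rpow_le_rpow_of_exponent_le hN1 hη)
  have h6 : (N : ℝ) ^ (1 / 2 : ℝ) ≤ N / q := by
    rw [le_div_iff₀ hq0]
    calc (N : ℝ) ^ (1 / 2 : ℝ) * q ≤ (N : ℝ) ^ (1 / 2 : ℝ) * (N : ℝ) ^ (1 / 2 : ℝ) := by gcongr
      _ = N := by
          rw [← Real.rpow_add hN0]
          norm_num
  have h7 : (4 * n0 + 1 : ℝ) ≤ (N : ℝ) / q / Real.log N ^ K := by
    refine h3.trans ?_
    gcongr
  have h8 : (N : ℝ) / q / Real.log N ^ (K + 1) ≤ (N : ℝ) / q / Real.log N ^ K / 2 := by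
    rw [pow_succ, ← div_div]
    exact div_le_div_of_nonneg_left (by positivity) (by norm_num) h4
  linarith

theorem lam_law (d : ℕ) (hd0 : 1 ≤ d) : ∃ η : ℝ, 0 < η ∧ ∃ E : Set ℝ, dimH E < 1 ∧
    ∀ α : ℝ, 0 < α → α ∉ E → ∀ f : ℤ[X], f.natDegree = d →
    ∀ K : ℕ, ∀ᶠ N : ℕ in atTop, ∀ q r : ℕ, 1 ≤ q → (q : ℝ) ≤ (N : ℝ) ^ η →
      |LS α f q r N| ≤ (N : ℝ) / q / Real.log N ^ K := by
  classical
  obtain ⟨η, hη, hη1, hlaw⟩ := sign_law d hd0
  obtain ⟨E1, hE1, h1⟩ := hlaw s1 small_s1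
  obtain ⟨E2, hE2, h2⟩ := hlaw s2 small_s2
  obtain ⟨E, hE, h⟩ := dim_exp (E := E1 ∪ E2) (by rw [dimH_union]; exact max_lt hE1 hE2)
  refine ⟨η, hη, E, hE, fun α hα hαE f hdf K => ?_⟩
  obtain ⟨hirr, hlog⟩ := h α hαE
  have hl := hlog hα
  rw [Set.mem_union, not_or] at hl
  have key : ∀ (u : ℕ → ℝ) (s : ℕ → ℝ) (g : ℤ[X]), (∀ n, |u n| ≤ 1) → (∀ m, |s m| ≤ 1) →
      (∀ᶠ n : ℕ in atTop, u n = s (NN (Real.log ((gR g).eval (n : ℝ)) + Real.log α))) →
      (∀ᶠ N : ℕ in atTop, ∀ q r : ℕ, 1 ≤ q → (q : ℝ) ≤ (N : ℝ) ^ η → r < q →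
        |∑ n ∈ (Finset.Ioc 0 N).filter (fun n => n % q = r), s (NN (Real.log ((gR g).eval (n : ℝ)) + Real.log α))| ≤
        (N : ℝ) / q / Real.log N ^ (K + 1)) →
      ∀ᶠ N : ℕ in atTop, ∀ q r : ℕ, 1 ≤ q → (q : ℝ) ≤ (N : ℝ) ^ η →
        |∑ t ∈ (Finset.Icc 1 N).filter (fun t : ℕ => t ≡ r [MOD q]), u t| ≤ (N : ℝ) / q / Real.log N ^ K := by
    intro u s g hu hs hev hb
    obtain ⟨n0, hn0⟩ := eventually_atTop.1 hev
    filter_upwards [hb, ev_const K n0 hη1] with N hN hc q r hq hqN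
    have h3 := hN q (r % q) hq hqN (Nat.mod_lt _ hq)
    have h4 : (Finset.Icc 1 N).filter (fun t : ℕ => t ≡ r [MOD q]) = (Finset.Ioc 0 N).filter (fun n => n % q = r % q) := by
      ext n
      simp only [Finset.mem_filter, Finset.mem_Icc, Finset.mem_Ioc, Nat.ModEq]
      constructor
      · rintro ⟨⟨a, b⟩, c⟩; exact ⟨⟨by omega, b⟩, c⟩
      · rintro ⟨⟨a, b⟩, c⟩; exact ⟨⟨by omega, b⟩, c⟩
    rw [h4]
    refine (fin_near u _ hu (fun n => hs _) n0 hn0 _).trans ?_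
    exact (add_le_add h3 le_rfl).trans (hc q hq hqN)
  have hs1b : ∀ m, |s1 m| ≤ 1 := fun m => by
    rcases small_s1.1 m with h | h <;> rw [h] <;> norm_num
  have hs2b : ∀ m, |s2 m| ≤ 1 := fun m => by
    rcases small_s2.1 m with h | h <;> rw [h] <;> norm_num
  have hf0 : f.leadingCoeff ≠ 0 := by
    rw [Ne, leadingCoeff_eq_zero]
    rintro rfl
    rw [natDegree_zero] at hdf
    omega
  rcases lt_or_gt_of_ne hf0 with hneg | hpos
  · have hd' : (-f).natDegree = d := by rw [natDegree_neg]; exact hdf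
    have hlc : 0 < (-f).leadingCoeff := by rw [leadingCoeff_neg]; omega
    have hev := ev_pos hα hirr (-f) (by omega) hlc
    rw [neg_neg] at hev
    exact key _ s2 (-f) (fun n => lamZ_abs _) hs2b (hev.mono fun n hn => hn.2)
      (h2 (Real.log α) hl.2 (-f) hd' hlc (K + 1))
  · have hev := ev_pos hα hirr f (by omega) hpos
    exact key _ s1 f (fun n => lamZ_abs _) hs1b (hev.mono fun n hn => hn.1)
      (h1 (Real.log α) hl.1 f hdf hpos (K + 1))

end Pool.Agent.Y122.MU
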