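import Pool.Agent.Y122.MU.Final

/-! The integral of `2 / log (x ^ 2 + x + A)` compared with the logarithmic integral. -/

set_option autoImplicit false

namespace Pool.Agent.Y122.MU

open MeasureTheory Filter Topology
open Pool.Agent.Y122.MH (il ii_il li_low log_large)

/-- the integrand -/
noncomputable def hF (A : ℕ) (x : ℝ) : ℝ := 1 / Real.log (x ^ 2 + x + A)

lemma ii_hF {A : ℕ} (hA : 3 ≤ A) {u v : ℝ} (hu : 0 ≤ u) (hv : 0 ≤ v) : IntervalIntegrable (hF A) volume u v := by
  have hA' : (3 : ℝ) ≤ A := by exact_mod_cast hA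
  apply ContinuousOn.intervalIntegrable
  have hsub : Set.uIcc u v ⊆ Set.Ici 0 := by
    intro x hx
    rw [Set.mem_uIcc] at hx
    rcases hx with h | h
    · exact hu.trans h.1
    · exact hv.trans h.1
  refine ContinuousOn.mono ?_ hsub
  unfold hF
  refine continuousOn_const.div (ContinuousOn.log (by fun_prop) fun x hx => ?_) fun x hx => ?_
  · have hx0 : (0 : ℝ) ≤ x := hx
    positivity
  · have hx0 : (0 : ℝ) ≤ x := hx
    exact (Real.log_pos (by nlinarith)).ne'

lemma hF_near {A : ℕ} (hA : 3 ≤ A) {ε x : ℝ} (hx2 : 2 ≤ x) (hxA : (A : ℝ) ≤ x)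
    (hx : Real.log 2 ≤ ε * Real.log x) : |2 * hF A x - il x| ≤ ε * il x := by
  have hA' : (3 : ℝ) ≤ A := by exact_mod_cast hA
  have hl : 0 < Real.log x := Real.log_pos (by linarith)
  have hF1 : 2 * Real.log x ≤ Real.log (x ^ 2 + x + A) := by
    have : 2 * Real.log x = Real.log (x ^ 2) := by rw [Real.log_pow]; push_cast; rfl
    rw [this]
    exact Real.log_le_log (by positivity) (by nlinarith)
  have hF2 : Real.log (x ^ 2 + x + A) ≤ 2 * Real.log x + 2 * Real.log 2 := by
    have : 2 * Real.log x + 2 * Real.log 2 = Real.log ((2 * x) ^ 2) := by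
      rw [Real.log_pow, Real.log_mul (by norm_num) (by linarith)]; push_cast; ring
    rw [this]
    exact Real.log_le_log (by positivity) (by nlinarith)
  have hlF : 0 < Real.log (x ^ 2 + x + A) := by linarith
  unfold hF il
  set l := Real.log x
  set F := Real.log (x ^ 2 + x + A)
  have e : 2 * (1 / F) - 1 / l = -((F - 2 * l) / (F * l)) := by
    field_simp
    ring
  rw [e, abs_neg, abs_of_nonneg (div_nonneg (by linarith) (by positivity))]
  have h1 : (F - 2 * l) / (F * l) = ((F - 2 * l) / F) * (1 / l) := by field_simp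
  rw [h1]
  refine mul_le_mul_of_nonneg_right ?_ (by positivity)
  rw [div_le_iff₀ hlF]
  have hε : 0 < ε := by
    by_contra h
    have := Real.log_pos (show (1 : ℝ) < 2 by norm_num)
    nlinarith
  nlinarith

lemma li_top : Tendsto (fun N : ℕ => ∫ t in (2 : ℝ)..(N : ℝ), il t) atTop atTop := by
  have hlog : Tendsto (fun N : ℕ => Nat.log 2 N) atTop atTop :=
    tendsto_atTop.2 fun b => log_large b
  refine tendsto_atTop.2 fun b => ?_
  have h1 := (tendsto_pow_const_div_const_pow_of_one_lt 1 (show (1 : ℝ) < 2 by norm_num)).comp hlog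
  have h2 := h1.eventually_lt_const (show (0 : ℝ) < 1 / (4 * (|b| + 1)) by positivity)
  filter_upwards [h2, log_large 3, eventually_ge_atTop 1] with N h3 h4 h6
  have h5 := li_low h4 (Nat.pow_log_le_self 2 (by omega)) (Nat.lt_pow_succ_log_self (by norm_num) N).le
  refine le_trans ?_ h5
  set I := Nat.log 2 N
  have hI0 : (0 : ℝ) < I := by exact_mod_cast (by omega : 0 < I)
  have hp : (0 : ℝ) < 2 ^ I := by positivity
  simp only [Function.comp, pow_one] at h3
  rw [div_lt_div_iff₀ hp (by positivity)] at h3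
  rw [le_div_iff₀ (by positivity)]
  have hb := le_abs_self b
  nlinarith

/-- the two normalizations agree -/
theorem LA_li {A : ℕ} (hA : 3 ≤ A) :
    Tendsto (fun N : ℕ => (2 * ∫ x in (0 : ℝ)..(N : ℝ), hF A x) / ∫ t in (2 : ℝ)..(N : ℝ), il t) atTop (𝓝 1) := by
  rw [Metric.tendsto_atTop]
  intro ε hε
  set ε1 := ε / 2 with hε1
  have hε10 : 0 < ε1 := by positivity
  -- the threshold
  obtain ⟨X0, hX2, hXA, hXl⟩ : ∃ X0 : ℕ, 2 ≤ X0 ∧ A ≤ X0 ∧ Real.log 2 ≤ ε1 * Real.log X0 := by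
    have h1 : Tendsto (fun n : ℕ => ε1 * Real.log n) atTop atTop :=
      (Real.tendsto_log_atTop.comp tendsto_natCast_atTop_atTop).const_mul_atTop hε10
    obtain ⟨X, h⟩ := (((h1.eventually_ge_atTop (Real.log 2)).and (eventually_ge_atTop 2)).and
      (eventually_ge_atTop A)).exists
    exact ⟨X, h.1.2, h.2, h.1.1⟩
  have hX2r : (2 : ℝ) ≤ X0 := by exact_mod_cast hX2
  have hXAr : (A : ℝ) ≤ X0 := by exact_mod_cast hXA
  set C0 := 2 * (∫ x in (0 : ℝ)..(X0 : ℝ), hF A x) - ∫ t in (2 : ℝ)..(X0 : ℝ), il t with hC0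
  have hG := li_top.eventually_gt_atTop ((|C0| + 1) / ε1)
  obtain ⟨N0, hN0⟩ := eventually_atTop.1 hG
  refine ⟨max N0 X0, fun N hN => ?_⟩
  have h1 := hN0 N ((le_max_left _ _).trans hN)
  have hNX : X0 ≤ N := (le_max_right _ _).trans hN
  have hNXr : (X0 : ℝ) ≤ N := by exact_mod_cast hNX
  have hN2 : (2 : ℝ) ≤ N := hX2r.trans hNXr
  set G := ∫ t in (2 : ℝ)..(N : ℝ), il t with hGd
  have hG0 : 0 < G := lt_trans (by positivity) h1
  rw [div_lt_iff₀ hε10] at h1
  have hsplit : 2 * (∫ x in (0 : ℝ)..(N : ℝ), hF A x) - G =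
      C0 + ∫ x in (X0 : ℝ)..(N : ℝ), (2 * hF A x - il x) := by
    rw [intervalIntegral.integral_sub ((ii_hF hA (by linarith) (by linarith)).const_mul 2)
      (ii_il hX2r hN2), intervalIntegral.integral_const_mul, hC0, hGd,
      ← intervalIntegral.integral_add_adjacent_intervals (ii_hF hA le_rfl (by linarith : (0 : ℝ) ≤ X0))
        (ii_hF hA (by linarith : (0 : ℝ) ≤ X0) (by linarith : (0 : ℝ) ≤ N)),
      ← intervalIntegral.integral_add_adjacent_intervals (ii_il le_rfl hX2r) (ii_il hX2r hN2)]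
    ring
  have hil0 : ∀ x : ℝ, 2 ≤ x → 0 ≤ il x := fun x hx => by
    unfold Pool.Agent.Y122.MH.il
    have := Real.log_nonneg (by linarith : (1 : ℝ) ≤ x)
    positivity
  have hint : |∫ x in (X0 : ℝ)..(N : ℝ), (2 * hF A x - il x)| ≤ ε1 * G := by
    have e1 : |∫ x in (X0 : ℝ)..(N : ℝ), (2 * hF A x - il x)| ≤ ∫ x in (X0 : ℝ)..(N : ℝ), ε1 * il x := by
      rw [← Real.norm_eq_abs]
      refine intervalIntegral.norm_integral_le_of_norm_le hNXr ?_ ((ii_il hX2r hN2).const_mul ε1)
      refine Eventually.of_forall fun x hx => ?_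
      rw [Real.norm_eq_abs]
      refine hF_near hA (by linarith [hx.1]) (by linarith [hx.1]) (hXl.trans ?_)
      exact mul_le_mul_of_nonneg_left (Real.log_le_log (by linarith) hx.1.le) hε10.le
    refine e1.trans ?_
    rw [intervalIntegral.integral_const_mul]
    refine mul_le_mul_of_nonneg_left ?_ hε10.le
    rw [hGd, ← intervalIntegral.integral_add_adjacent_intervals (ii_il le_rfl hX2r) (ii_il hX2r hN2)]
    have : 0 ≤ ∫ t in (2 : ℝ)..(X0 : ℝ), il t :=
      intervalIntegral.integral_nonneg hX2r fun t ht => hil0 t ht.1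
    linarith
  rw [Real.dist_eq]
  have e2 : (2 * ∫ x in (0 : ℝ)..(N : ℝ), hF A x) / G - 1 = (2 * (∫ x in (0 : ℝ)..(N : ℝ), hF A x) - G) / G := by
    field_simp
  rw [e2, abs_div, abs_of_pos hG0, div_lt_iff₀ hG0, hsplit]
  calc |C0 + ∫ x in (X0 : ℝ)..(N : ℝ), (2 * hF A x - il x)| ≤ |C0| + ε1 * G :=
        (abs_add_le _ _).trans (by linarith)
    _ < ε * G := by rw [hε1] at h1 ⊢; linarith

end Pool.Agent.Y122.MU
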