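import Pool.Agent.Y122.MU.Final
import Pool.Agent.Y122.MH.Sq
import Pool.Agent.Y122.MH.Tr
import Pool.Agent.W468.CFProd

/-! Quadratic polynomials: the local densities give the constant of Conjecture F. -/

set_option autoImplicit false

namespace Pool.Agent.Y122.MU

open MeasureTheory Polynomial Filter Topology
open Pool.Agent.H305R2 (NN ff VV roughPart)
open Pool.Agent.Y122.MH (Sc Cop_prime VV_eq Dk Dk_eq cn gR Cop_primorial NN_floor dim_exp Cop gR_eval)
open Pool.Agent.W468.ConjF (P CF CF_tendsto nr Admissible eval_P euler_eq natDegree_P leadingCoeff_P)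

lemma Sc_nr (a b c : ℤ) {p : ℕ} (hp : p.Prime) : (Sc (P a b c) p : ℝ) = p - nr a b c p := by
  have h3 : nr a b c p + Sc (P a b c) p = p := by
    unfold Sc Pool.Agent.W468.ConjF.nr
    have h4 := Finset.card_filter_add_card_filter_not (s := Finset.range p)
      (fun r : ℕ => (p : ℤ) ∣ a * (r : ℤ) ^ 2 + b * r + c)
    rw [Finset.card_range] at h4
    have h6 : (Finset.range p).filter (fun n => Cop (P a b c) p n) =
        (Finset.range p).filter (fun r : ℕ => ¬ (p : ℤ) ∣ a * (r : ℤ) ^ 2 + b * r + c) :=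
      Finset.filter_congr fun n _ => by rw [Cop_prime (P a b c) hp n, eval_P]
    rw [h6]
    exact h4
  have h5 : ((nr a b c p : ℕ) : ℝ) + Sc (P a b c) p = p := by exact_mod_cast h3
  linarith

theorem DV_quad (a b c : ℤ) (h : Admissible a b c) {k : ℕ} (hk : 2 ≤ k) :
    Dk (P a b c) k * VV k = 2 * CF a b c k := by
  rw [← euler_eq a b c h k hk (fun _ => P a b c) fun _ => rfl, Dk_eq, VV_eq, ← Finset.prod_mul_distrib]
  unfold Pool.Agent.H373R2.BH.eulerProduct
  refine Finset.prod_congr rfl fun p hp => ?_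
  have hpp := (Finset.mem_filter.1 hp).2
  have hom : Pool.Agent.H373R2.BH.omegaP (fun _ : Fin 1 => P a b c) p = nr a b c p := by
    unfold Pool.Agent.H373R2.BH.omegaP Pool.Agent.W468.ConjF.nr
    congr 1
    apply Finset.filter_congr
    intro r _
    simp only [eval_P, exists_const]
  rw [Sc_nr a b c hpp, hom, pow_one, one_div]
  have hp0 : (p : ℝ) ≠ 0 := by exact_mod_cast hpp.pos.ne'
  have h1 : ((p : ℝ) - nr a b c p) / p = 1 - (nr a b c p : ℝ) / p := by field_simp
  rw [h1, mul_comm]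

theorem DV_quad_tendsto (a b c : ℤ) (h : Admissible a b c) {K : ℝ}
    (hK : Tendsto (fun z => CF a b c z) atTop (𝓝 K)) :
    Tendsto (fun k => Dk (P a b c) k * VV k) atTop (𝓝 (2 * K)) := by
  refine (hK.const_mul 2).congr' ?_
  filter_upwards [eventually_ge_atTop 2] with k hk
  exact (DV_quad a b c h hk).symm

/-- the law for all admissible triples, with one exceptional set -/
theorem quad : ∃ E : Set ℝ, dimH E < 1 ∧ ∀ α : ℝ, α ∉ E → Irrational α ∧ (0 < α →
    ∀ a b c : ℤ, Admissible a b c → ∀ K : ℝ, Tendsto (fun z => CF a b c z) atTop (𝓝 K) →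
    ∀ z : ℕ → ℕ, Tendsto z atTop atTop → (∀ᶠ N in atTop, 9 * z N ≤ Nat.log 2 N) →
      Tendsto (fun N : ℕ => (cn (P a b c) (z N) (Real.log α) 0 N : ℝ) / ∫ t in (2 : ℝ)..(N : ℝ), 1 / Real.log t)
        atTop (𝓝 K)) := by
  obtain ⟨E, hE, h⟩ := Pool.Agent.Y122.MU.final 2 (by norm_num)
  obtain ⟨E', hE', h'⟩ := dim_exp hE
  refine ⟨E', hE', fun α hαE => ⟨(h' α hαE).1, fun hα a b c hadm K hK z hz hz9 => ?_⟩⟩
  obtain ⟨hirr, hlog⟩ := h' α hαE
  have h1 := h (Real.log α) (hlog hα) (P a b c) (natDegree_P a b c hadm.1)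
    (by rw [leadingCoeff_P a b c hadm.1]; exact hadm.1) (2 * K) (DV_quad_tendsto a b c hadm hK) z hz hz9
  rw [natDegree_P a b c hadm.1] at h1
  push_cast at h1
  rw [mul_div_cancel_left₀ K (by norm_num : (2 : ℝ) ≠ 0)] at h1
  exact h1

end Pool.Agent.Y122.MU
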