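import Pool.Agent.Y122.MU.Law
import Pool.Agent.Y122.MH.Piece

/-! The integral of a bounded function with small partial sums along the values of a polynomial. -/

set_option autoImplicit false

namespace Pool.Agent.Y122.MU

open MeasureTheory Polynomial Filter Topology
open Pool.Agent.H305R2 (NN measurable_NN)
open Pool.Agent.Y122.MH (Fc chain log_near)

/-- the step function of a sequence -/
noncomputable def stp (s : ℕ → ℝ) (y : ℝ) : ℝ := s (⌈y⌉₊ - 1)

/-- its primitive -/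
noncomputable def Stp (s : ℕ → ℝ) (y : ℝ) : ℝ := ∫ t in (0 : ℝ)..y, stp s t

lemma measurable_stp (s : ℕ → ℝ) : Measurable (stp s) :=
  (measurable_from_nat (f := fun n : ℕ => s (n - 1))).comp Nat.measurable_ceil

lemma stp_NN (s : ℕ → ℝ) (y : ℝ) : stp s (Real.exp y) = s (NN y) := rfl

variable {s : ℕ → ℝ} (hs : ∀ m, |s m| ≤ 1)

include hs in
lemma stp_abs (y : ℝ) : |stp s y| ≤ 1 := hs _

include hs in
lemma ii_stp (a b : ℝ) : IntervalIntegrable (stp s) volume a b := by
  rw [intervalIntegrable_iff]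
  refine Measure.integrableOn_of_bounded (M := 1) ?_ (measurable_stp s).aestronglyMeasurable
    (Eventually.of_forall fun x => ?_)
  · rw [Set.uIoc]
    exact measure_Ioc_lt_top.ne
  · rw [Real.norm_eq_abs]
    exact stp_abs hs x

lemma stp_unit (n : ℕ) {t : ℝ} (ht : t ∈ Set.Ioc (n : ℝ) (n + 1 : ℕ)) : stp s t = s n := by
  unfold stp
  have h1 : ⌈t⌉₊ = n + 1 := by
    rw [Nat.ceil_eq_iff (by omega)]
    refine ⟨?_, ht.2⟩
    rw [Nat.add_sub_cancel]
    exact ht.1
  rw [h1, Nat.add_sub_cancel]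

include hs in
lemma Stp_nat (n : ℕ) : Stp s n = ∑ m ∈ Finset.range n, s m := by
  unfold Stp
  have h1 := intervalIntegral.sum_integral_adjacent_intervals (f := stp s) (μ := volume)
    (a := fun k : ℕ => (k : ℝ)) (n := n) (fun k _ => ii_stp hs _ _)
  rw [Nat.cast_zero] at h1
  rw [← h1]
  refine Finset.sum_congr rfl fun k _ => ?_
  rw [intervalIntegral.integral_of_le (by push_cast; linarith)]
  rw [setIntegral_congr_fun measurableSet_Ioc (g := fun _ => s k) fun t ht => stp_unit k ht]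
  rw [setIntegral_const, smul_eq_mul, Measure.real, Real.volume_Ioc, ENNReal.toReal_ofReal] <;> push_cast
  · ring
  · linarith

include hs in
lemma Stp_bound {B : ℝ} {K : ℕ} (hB0 : 0 ≤ B)
    (hB : ∀ n : ℕ, 2 ≤ n → |∑ m ∈ Finset.range n, s m| ≤ B * (n / Real.log n ^ K)) :
    ∃ y0 : ℝ, 4 ≤ y0 ∧ ∀ y : ℝ, y0 ≤ y → |Stp s y| ≤ (2 ^ K * B + 1) * (y / Real.log y ^ K) := by
  have h1 : ∀ᶠ y : ℝ in atTop, 1 ≤ y / Real.log y ^ K := by
    have h3 : Tendsto (fun y : ℝ => y / Real.log y ^ K) atTop atTop := by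
      have h4 := Real.tendsto_exp_div_pow_atTop K
      have h5 := h4.comp Real.tendsto_log_atTop
      refine h5.congr' ?_
      filter_upwards [eventually_gt_atTop 0] with y hy
      simp only [Function.comp, Real.exp_log hy]
    exact h3.eventually_ge_atTop 1
  obtain ⟨y1, hy1⟩ := eventually_atTop.1 h1
  refine ⟨max 4 y1, le_max_left _ _, fun y hy => ?_⟩
  have hy4 : 4 ≤ y := (le_max_left _ _).trans hy
  have hyy : 1 ≤ y / Real.log y ^ K := hy1 y ((le_max_right _ _).trans hy)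
  set n := ⌊y⌋₊ with hn
  have hn1 : (n : ℝ) ≤ y := Nat.floor_le (by linarith)
  have hn2 : y < n + 1 := Nat.lt_floor_add_one y
  have hn4 : 4 ≤ n := Nat.le_floor (by exact_mod_cast hy4)
  have hn4r : (4 : ℝ) ≤ n := by exact_mod_cast hn4
  have e1 : Stp s y = Stp s n + ∫ t in (n : ℝ)..y, stp s t := by
    unfold Stp
    rw [intervalIntegral.integral_add_adjacent_intervals (ii_stp hs _ _) (ii_stp hs _ _)]
  have e2 : |∫ t in (n : ℝ)..y, stp s t| ≤ 1 := by
    have h2 := intervalIntegral.norm_integral_le_of_norm_le_const (a := (n : ℝ)) (b := y) (f := stp s)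
      (C := 1) fun x _ => by rw [Real.norm_eq_abs]; exact stp_abs hs x
    rw [Real.norm_eq_abs, abs_of_nonneg (by linarith : (0 : ℝ) ≤ y - n)] at h2
    linarith
  have e3 : |Stp s n| ≤ B * (n / Real.log n ^ K) := by
    rw [Stp_nat hs]
    exact hB n (by omega)
  -- compare logarithms
  have hl4 : 0 < Real.log n := Real.log_pos (by linarith)
  have hly : 0 < Real.log y := Real.log_pos (by linarith)
  have e4 : Real.log y ≤ 2 * Real.log n := by
    have : 2 * Real.log n = Real.log ((n : ℝ) ^ 2) := by rw [Real.log_pow]; push_cast; rfl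
    rw [this]
    exact Real.log_le_log (by linarith) (by nlinarith)
  have e5 : (n : ℝ) / Real.log n ^ K ≤ 2 ^ K * (y / Real.log y ^ K) := by
    rw [← mul_div_assoc, div_le_div_iff₀ (by positivity) (by positivity)]
    calc (n : ℝ) * Real.log y ^ K ≤ y * (2 * Real.log n) ^ K := by gcongr
      _ = 2 ^ K * y * Real.log n ^ K := by rw [mul_pow]; ring
  rw [e1]
  calc |Stp s n + ∫ t in (n : ℝ)..y, stp s t| ≤ B * (n / Real.log n ^ K) + 1 :=
        (abs_add_le _ _).trans (add_le_add e3 e2)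
    _ ≤ B * (2 ^ K * (y / Real.log y ^ K)) + y / Real.log y ^ K := by gcongr
    _ = _ := by ring

include hs in
lemma Stp_deriv {y : ℝ} (hy : 0 < y) (hyn : ∀ n : ℕ, y ≠ n) : HasDerivAt (Stp s) (stp s y) y := by
  refine intervalIntegral.integral_hasDerivAt_right (ii_stp hs _ _)
    ⟨Set.univ, univ_mem, (measurable_stp s).aestronglyMeasurable.restrict⟩ ?_
  set n := ⌊y⌋₊ with hn
  have hn1 : (n : ℝ) < y := lt_of_le_of_ne (Nat.floor_le hy.le) (Ne.symm (hyn n))
  have hn2 : y < n + 1 := Nat.lt_floor_add_one y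
  have h1 : stp s =ᶠ[𝓝 y] fun _ => s n := by
    filter_upwards [Ioo_mem_nhds hn1 hn2] with t ht
    exact stp_unit n ⟨ht.1, by push_cast; exact ht.2.le⟩
  exact continuousAt_const.congr h1.symm

include hs in
lemma continuous_Stp : Continuous (Stp s) := by
  unfold Stp
  exact intervalIntegral.continuous_primitive (fun a b => ii_stp hs a b) 0

include hs in
/-- **The main term for a sequence with small sums.** -/
theorem bal (g : ℝ[X]) (hd : 1 ≤ g.natDegree) (hlc : 0 < g.leadingCoeff) (a : ℝ) {B : ℝ} {K : ℕ}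
    (hB0 : 0 ≤ B) (hB : ∀ n : ℕ, 2 ≤ n → |∑ m ∈ Finset.range n, s m| ≤ B * (n / Real.log n ^ K)) :
    ∃ C : ℝ, 0 ≤ C ∧ ∀ᶠ i : ℕ in atTop, ∀ v : ℝ, (2 : ℝ) ^ i ≤ v → v ≤ 2 * 2 ^ i →
      |∫ x in ((2 : ℝ) ^ i)..v, s (NN (Real.log (g.eval x) + a))| ≤ C * (2 ^ i / (i : ℝ) ^ K) := by
  obtain ⟨c0, C0, X0, hc0, hC0, hX0, hpos, hder, hbd⟩ := chain g hd hlc 0
  obtain ⟨y0, hy4, hS⟩ := Stp_bound hs hB0 hB
  obtain ⟨C1, hnear⟩ := log_near g hd hlc a
  have hd0 : (0 : ℝ) < g.natDegree := by exact_mod_cast hd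
  have hl2 : 0 < Real.log 2 := Real.log_pos (by norm_num)
  set θ : ℝ := g.natDegree * Real.log 2 with hθ
  have hθ0 : 0 < θ := by positivity
  set B1 : ℝ := 2 ^ K * B + 1 with hB1
  have hB10 : 0 ≤ B1 := by positivity
  set D : ℝ := B1 * (2 / θ) ^ K with hD
  have hD0 : 0 ≤ D := by positivity
  refine ⟨D * (3 / c0) + D * (1 + C0 / c0 ^ 2), by positivity, ?_⟩
  have hi1 : ∀ᶠ i : ℕ in atTop, X0 ≤ (2 : ℝ) ^ i := (tendsto_pow_atTop_atTop_of_one_lt (by norm_num)).eventually_ge_atTop X0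
  have hi2 : ∀ᶠ i : ℕ in atTop, C1 + Real.log y0 ≤ θ / 2 * i :=
    (tendsto_natCast_atTop_atTop.const_mul_atTop (by positivity)).eventually_ge_atTop _
  filter_upwards [hnear, hi1, hi2, eventually_ge_atTop 1] with i hn hi1 hi2 hi3 v hv1 hv2
  have hir : (1 : ℝ) ≤ i := by exact_mod_cast hi3
  have hi0 : (0 : ℝ) < i := by linarith
  set u : ℝ := 2 ^ i with hu
  have hu0 : 0 < u := by positivity
  set φ : ℝ → ℝ := fun x => Real.log (g.eval x) + a with hφ
  set h : ℝ → ℝ := fun x => Real.exp (φ x) with hh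
  have hlogy0 : 0 < Real.log y0 := Real.log_pos (by linarith)
  -- facts on `[u, v]`
  have f1 : ∀ x, u ≤ x → x ≤ 2 * u → θ / 2 * i ≤ φ x ∧ Real.log y0 ≤ φ x := by
    intro x h1 h2
    have h3 := abs_le.1 (hn x h1 h2)
    have h4 : φ x ≥ θ * i - C1 := by
      have := h3.1
      show Real.log (g.eval x) + a ≥ _
      linarith
    constructor
    · linarith
    · have : 0 ≤ θ / 2 * i := by positivity
      linarith
  have f2 : ∀ x, u ≤ x → x ≤ 2 * u → |Stp s (h x)| / h x ≤ D / (i : ℝ) ^ K := by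
    intro x h1 h2
    obtain ⟨h3, h4⟩ := f1 x h1 h2
    have h5 : y0 ≤ h x := by
      show y0 ≤ Real.exp (φ x)
      rw [← Real.exp_log (by linarith : 0 < y0)]
      exact Real.exp_le_exp.2 h4
    have h6 := hS (h x) h5
    have h7 : Real.log (h x) = φ x := Real.log_exp _
    rw [h7] at h6
    have h8 : 0 < h x := Real.exp_pos _
    have h9 : 0 < θ / 2 * i := by positivity
    rw [div_le_iff₀ h8]
    calc |Stp s (h x)| ≤ B1 * (h x / φ x ^ K) := h6
      _ ≤ B1 * (h x / (θ / 2 * i) ^ K) := by gcongr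
      _ = D / (i : ℝ) ^ K * h x := by
          rw [hD, mul_pow, div_pow, div_pow]
          field_simp
  -- derivatives
  have g1 : ∀ x, u ≤ x → c0 ≤ Fc g 1 x * x ∧ Fc g 1 x * x ≤ C0 := by
    intro x h1
    have h2 := hbd 1 le_rfl (by norm_num) x (hi1.trans h1)
    norm_num at h2
    exact h2
  have g2 : ∀ x, u ≤ x → |Fc g 2 x| * x ^ 2 ≤ C0 := by
    intro x h1
    have hx0 : 0 < x := hu0.trans_le h1
    have h2 := hbd 2 (by norm_num) (by norm_num) x (hi1.trans h1)
    norm_num at h2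
    have h3 : |Fc g 2 x| * x ^ 2 = |Fc g 2 x * x ^ 2| := by rw [abs_mul, abs_of_pos (by positivity : 0 < x ^ 2)]
    rw [h3, abs_le]
    constructor <;> linarith
  have g1p : ∀ x, u ≤ x → 0 < Fc g 1 x := by
    intro x h1
    have hx0 : 0 < x := hu0.trans_le h1
    have := (g1 x h1).1
    by_contra hcon
    have : Fc g 1 x * x ≤ 0 := mul_nonpos_of_nonpos_of_nonneg (not_lt.1 hcon) hx0.le
    linarith
  have d0 : ∀ x, u ≤ x → HasDerivAt φ (Fc g 1 x) x := fun x h1 => (hder 0 (by norm_num) x (hi1.trans h1)).add_const a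
  have d1 : ∀ x, u ≤ x → HasDerivAt (Fc g 1) (Fc g 2 x) x := fun x h1 => hder 1 (by norm_num) x (hi1.trans h1)
  have dh : ∀ x, u ≤ x → HasDerivAt h (h x * Fc g 1 x) x := fun x h1 => (d0 x h1).exp
  have hpos' : ∀ x, 0 < h x := fun x => Real.exp_pos _
  -- the primitive
  set W : ℝ → ℝ := fun x => Stp s (h x) / (h x * Fc g 1 x) with hW
  set R : ℝ → ℝ := fun x => Stp s (h x) * (Fc g 1 x ^ 2 + Fc g 2 x) / (h x * Fc g 1 x ^ 2) with hR
  have hcS := continuous_Stp hs
  have cont1 : ∀ x, u ≤ x → ContinuousAt (fun x => Stp s (h x)) x := fun x h1 =>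
    hcS.continuousAt.comp (dh x h1).continuousAt
  have cF1 : ∀ x, u ≤ x → ContinuousAt (Fc g 1) x := fun x h1 => (d1 x h1).continuousAt
  have cF2 : ∀ x, u ≤ x → ContinuousAt (Fc g 2) x := fun x h1 =>
    (hder 2 (by norm_num) x (hi1.trans h1)).continuousAt
  have cW : ContinuousOn W (Set.uIcc u v) := by
    intro x hx
    rw [Set.uIcc_of_le hv1] at hx
    refine ((cont1 x hx.1).div ((dh x hx.1).continuousAt.mul (cF1 x hx.1)) ?_).continuousWithinAt
    exact (mul_pos (hpos' x) (g1p x hx.1)).ne'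
  have cR : ContinuousOn R (Set.uIcc u v) := by
    intro x hx
    rw [Set.uIcc_of_le hv1] at hx
    refine (((cont1 x hx.1).mul (((cF1 x hx.1).pow 2).add (cF2 x hx.1))).div
      ((dh x hx.1).continuousAt.mul ((cF1 x hx.1).pow 2)) ?_).continuousWithinAt
    exact (mul_pos (hpos' x) (pow_pos (g1p x hx.1) 2)).ne'
  have hmono : StrictMonoOn h (Set.Icc u v) := by
    refine strictMonoOn_of_deriv_pos (convex_Icc u v) (fun x hx => (dh x hx.1).continuousAt.continuousWithinAt)
      fun x hx => ?_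
    rw [interior_Icc] at hx
    rw [(dh x hx.1.le).deriv]
    exact mul_pos (hpos' x) (g1p x hx.1.le)
  set Z : Set ℝ := {x ∈ Set.Icc u v | h x ∈ Set.range ((↑) : ℕ → ℝ)} with hZ
  have hZc : Z.Countable := by
    have h1 : Set.InjOn h Z := hmono.injOn.mono fun x hx => hx.1
    refine Set.MapsTo.countable_of_injOn (t := Set.range ((↑) : ℕ → ℝ)) (fun x hx => hx.2) h1
      (Set.countable_range _)
  have hmeasI : Measurable (fun x : ℝ => s (NN (Real.log (g.eval x) + a))) :=
    (measurable_from_nat (f := s)).comp (measurable_NN.comp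
      ((Real.measurable_log.comp g.continuous.measurable).add_const a))
  have iiI : IntervalIntegrable (fun x : ℝ => s (NN (Real.log (g.eval x) + a))) volume u v := by
    rw [intervalIntegrable_iff]
    refine Measure.integrableOn_of_bounded (M := 1) ?_ hmeasI.aestronglyMeasurable
      (Eventually.of_forall fun x => ?_)
    · rw [Set.uIoc]
      exact measure_Ioc_lt_top.ne
    · rw [Real.norm_eq_abs]
      exact hs _
  have iiR : IntervalIntegrable R volume u v := cR.intervalIntegrable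
  have hFTC : ∫ x in u..v, (s (NN (Real.log (g.eval x) + a)) - R x) = W v - W u := by
    refine MeasureTheory.integral_eq_of_hasDerivAt_off_countable W _ hZc cW (fun x hx => ?_) (iiI.sub iiR)
    obtain ⟨hx1, hx2⟩ := hx
    rw [min_eq_left hv1, max_eq_right hv1] at hx1
    have hux : u ≤ x := hx1.1.le
    have hnot : ∀ n : ℕ, h x ≠ n := fun n hn => hx2 ⟨⟨hux, hx1.2.le⟩, ⟨n, hn.symm⟩⟩
    have h1 := (Stp_deriv hs (hpos' x) hnot).comp x (dh x hux)
    have h2 := h1.div ((dh x hux).mul (d1 x hux)) (mul_pos (hpos' x) (g1p x hux)).ne'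
    refine h2.congr_deriv ?_
    have e1 : stp s (h x) = s (NN (Real.log (g.eval x) + a)) := rfl
    have hp1 := (hpos' x).ne'
    have hp2 := (g1p x hux).ne'
    rw [e1]
    simp only [Function.comp, Pi.mul_apply, hR]
    field_simp
  have hsplit : ∫ x in u..v, s (NN (Real.log (g.eval x) + a)) = (W v - W u) + ∫ x in u..v, R x := by
    rw [← hFTC, ← intervalIntegral.integral_add (iiI.sub iiR) iiR]
    simp
  have hWb : ∀ x, u ≤ x → x ≤ 2 * u → |W x| ≤ D / (i : ℝ) ^ K * (x / c0) := by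
    intro x h1 h2
    have hx0 : 0 < x := hu0.trans_le h1
    have h3 := f2 x h1 h2
    have h4 : |W x| = |Stp s (h x)| / h x * (1 / Fc g 1 x) := by
      simp only [hW]
      rw [abs_div, abs_of_pos (mul_pos (hpos' x) (g1p x h1))]
      have hp1 := (hpos' x).ne'
      have hp2 := (g1p x h1).ne'
      field_simp
    rw [h4]
    have h5 : 1 / Fc g 1 x ≤ x / c0 := by
      rw [div_le_div_iff₀ (g1p x h1) hc0, one_mul, mul_comm x]
      exact (g1 x h1).1
    exact mul_le_mul h3 h5 (by have := g1p x h1; positivity) (by positivity)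
  have hRb : ∀ x, u ≤ x → x ≤ 2 * u → |R x| ≤ D / (i : ℝ) ^ K * (1 + C0 / c0 ^ 2) := by
    intro x h1 h2
    have hx0 : 0 < x := hu0.trans_le h1
    have h3 := f2 x h1 h2
    have hF := g1p x h1
    have h4 : |R x| = |Stp s (h x)| / h x * (|Fc g 1 x ^ 2 + Fc g 2 x| / Fc g 1 x ^ 2) := by
      simp only [hR]
      rw [abs_div, abs_mul, abs_of_pos (mul_pos (hpos' x) (pow_pos hF 2))]
      have hp1 := (hpos' x).ne'
      have hp2 := hF.ne'
      field_simp
    rw [h4]
    have h5 : |Fc g 1 x ^ 2 + Fc g 2 x| / Fc g 1 x ^ 2 ≤ 1 + C0 / c0 ^ 2 := by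
      have h6 : |Fc g 2 x| / Fc g 1 x ^ 2 ≤ C0 / c0 ^ 2 := by
        rw [div_le_div_iff₀ (by positivity) (by positivity)]
        have h7 := g2 x h1
        have h8 := (g1 x h1).1
        have h9 : c0 ^ 2 ≤ (Fc g 1 x * x) ^ 2 := pow_le_pow_left₀ hc0.le h8 2
        calc |Fc g 2 x| * c0 ^ 2 ≤ |Fc g 2 x| * (Fc g 1 x * x) ^ 2 := by gcongr
          _ = (|Fc g 2 x| * x ^ 2) * Fc g 1 x ^ 2 := by ring
          _ ≤ C0 * Fc g 1 x ^ 2 := by gcongr
      calc |Fc g 1 x ^ 2 + Fc g 2 x| / Fc g 1 x ^ 2 ≤ (Fc g 1 x ^ 2 + |Fc g 2 x|) / Fc g 1 x ^ 2 := by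
            gcongr
            refine (abs_add_le _ _).trans ?_
            rw [abs_of_nonneg (by positivity : 0 ≤ Fc g 1 x ^ 2)]
        _ = 1 + |Fc g 2 x| / Fc g 1 x ^ 2 := by field_simp
        _ ≤ _ := by linarith
    exact mul_le_mul h3 h5 (by positivity) (by positivity)
  have hRi : |∫ x in u..v, R x| ≤ D / (i : ℝ) ^ K * (1 + C0 / c0 ^ 2) * u := by
    have h1 := intervalIntegral.norm_integral_le_of_norm_le_const (a := u) (b := v) (f := R)
      (C := D / (i : ℝ) ^ K * (1 + C0 / c0 ^ 2)) fun x hx => by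
        rw [Set.uIoc_of_le hv1] at hx
        rw [Real.norm_eq_abs]
        exact hRb x hx.1.le (hx.2.trans hv2)
    rw [Real.norm_eq_abs, abs_of_nonneg (by linarith : (0 : ℝ) ≤ v - u)] at h1
    refine h1.trans ?_
    refine mul_le_mul_of_nonneg_left (by linarith) (by positivity)
  rw [hsplit]
  calc |W v - W u + ∫ x in u..v, R x| ≤ (|W v| + |W u|) + |∫ x in u..v, R x| :=
        (abs_add_le _ _).trans (add_le_add (abs_sub _ _) le_rfl)
    _ ≤ (D / (i : ℝ) ^ K * (v / c0) + D / (i : ℝ) ^ K * (u / c0)) + D / (i : ℝ) ^ K * (1 + C0 / c0 ^ 2) * u := by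
        gcongr
        · exact hWb v hv1 hv2
        · exact hWb u le_rfl (by linarith)
    _ ≤ (D / (i : ℝ) ^ K * (2 * u / c0) + D / (i : ℝ) ^ K * (u / c0)) + D / (i : ℝ) ^ K * (1 + C0 / c0 ^ 2) * u := by
        gcongr
    _ = _ := by ring

end Pool.Agent.Y122.MU
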