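import Pool.Agent.Y122.MU.Gen
import Pool.Agent.Y122.MU.Bal
import Pool.Agent.Y122.MH.Tr

/-! The metric law for a sequence of signs with small sums. -/

set_option autoImplicit false

namespace Pool.Agent.Y122.MU

open MeasureTheory Polynomial Filter Topology
open Pool.Agent.H305R2 (NN measurable_NN)
open Pool.Agent.Y122.MH (hT gR gR_natDegree gR_leadingCoeff gR_eval measurable_hT)

/-- a sign sequence with small sums -/
def Small (s : ℕ → ℝ) : Prop := (∀ m, s m = 1 ∨ s m = -1) ∧ s 0 = -1 ∧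
  ∀ K : ℕ, ∃ B : ℝ, 0 ≤ B ∧ ∀ n : ℕ, 2 ≤ n → |∑ m ∈ Finset.range n, s m| ≤ B * (n / Real.log n ^ K)

/-- number of elements of a class in an interval -/
lemma card_class (A B q r : ℕ) (hAB : A ≤ B) (hq : 1 ≤ q) (hr : r < q) :
    |((((Finset.Ioc A B).filter (fun n => n % q = r)).card : ℕ) : ℝ) - ((B : ℝ) - A) / q| ≤ 1 := by
  have h1 := Nat.Ioc_filter_modEq_card A B (r := q) (by omega) r
  have h2 : (Finset.Ioc A B).filter (fun n => n % q = r) = (Finset.Ioc A B).filter (fun n => n ≡ r [MOD q]) := by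
    refine Finset.filter_congr fun n _ => ?_
    unfold Nat.ModEq
    rw [Nat.mod_eq_of_lt hr]
  rw [h2]
  have hq0 : (0 : ℚ) < q := by exact_mod_cast hq
  set c := ((Finset.Ioc A B).filter (fun n => n ≡ r [MOD q])).card with hc
  have h3 : (c : ℤ) = max (⌊((B : ℚ) - r) / q⌋ - ⌊((A : ℚ) - r) / q⌋) 0 := h1
  have hle : ⌊((A : ℚ) - r) / q⌋ ≤ ⌊((B : ℚ) - r) / q⌋ := by
    apply Int.floor_le_floor
    have : (A : ℚ) ≤ B := by exact_mod_cast hAB
    gcongr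
  rw [max_eq_left (by linarith)] at h3
  have h4 : (c : ℚ) = (⌊((B : ℚ) - r) / q⌋ : ℚ) - ⌊((A : ℚ) - r) / q⌋ := by exact_mod_cast h3
  have e1 := Int.floor_le (((B : ℚ) - r) / q)
  have e2 := Int.lt_floor_add_one (((B : ℚ) - r) / q)
  have e3 := Int.floor_le (((A : ℚ) - r) / q)
  have e4 := Int.lt_floor_add_one (((A : ℚ) - r) / q)
  have e5 : ((B : ℚ) - r) / q - ((A : ℚ) - r) / q = ((B : ℚ) - A) / q := by ring
  have h5 : |(c : ℚ) - ((B : ℚ) - A) / q| ≤ 1 := by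
    rw [abs_le]
    constructor <;> linarith
  have h6 := (Rat.cast_le (K := ℝ)).2 h5
  push_cast at h6
  exact h6

theorem block_s (d : ℕ) (hd0 : 1 ≤ d) :
    ∃ η : ℝ, 0 < η ∧ η ≤ 1 / 2 ∧ ∀ (f : ℤ[X]) (s : ℕ → ℝ), Small s → f.natDegree = d → 0 < f.leadingCoeff →
    ∃ E : Set ℝ, dimH E ≤ ENNReal.ofReal (1 - η) ∧ ∀ a : ℝ, a ∉ E → ∀ K : ℕ, ∃ C : ℝ, 0 ≤ C ∧ ∀ᶠ i : ℕ in atTop,
    ∀ q r : ℕ, 1 ≤ q → (q : ℝ) + 1 ≤ ((2 : ℝ) ^ i) ^ (η / 4) → r < q → ∀ N : ℕ, 2 ^ i ≤ N → N ≤ 2 ^ (i + 1) →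
      |∑ n ∈ (Finset.Ioc (2 ^ i) N).filter (fun n => n % q = r), s (NN (Real.log ((gR f).eval (n : ℝ)) + a))| ≤
        C * (2 ^ i / (q * (i : ℝ) ^ K)) := by
  classical
  obtain ⟨η, hη, hη1, hgen⟩ := gen d hd0
  refine ⟨η, hη, hη1, fun f s hs hdf hlc => ?_⟩
  set T : Set ℕ := {m | s m = 1} with hT'
  have h0T : 0 ∉ T := by
    show ¬ s 0 = 1
    rw [hs.2.1]
    norm_num
  obtain ⟨E, hE, h⟩ := hgen f T hdf hlc h0T
  refine ⟨E, hE, fun a ha K => ?_⟩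
  obtain ⟨B, hB0, hB⟩ := hs.2.2 K
  have hs1 : ∀ m, |s m| ≤ 1 := fun m => by
    rcases hs.1 m with h | h <;> rw [h] <;> norm_num
  have hdf' : 1 ≤ (gR f).natDegree := by rw [gR_natDegree, hdf]; exact hd0
  have hlc' : 0 < (gR f).leadingCoeff := by rw [gR_leadingCoeff]; exact_mod_cast hlc
  obtain ⟨C, hC, hbal⟩ := bal hs1 (gR f) hdf' hlc' a hB0 hB
  refine ⟨C + 1, by positivity, ?_⟩
  have hst : ∀ y : ℝ, s (NN y) = 2 * hT T y - 1 := fun y => by
    unfold Pool.Agent.Y122.MH.hT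
    rcases hs.1 (NN y) with h1 | h1
    · rw [if_pos (show NN y ∈ T from h1), h1]
      norm_num
    · rw [if_neg (show ¬ NN y ∈ T from fun h2 => by
        have h3 : s (NN y) = 1 := h2
        rw [h1] at h3
        norm_num at h3), h1]
      norm_num
  -- the error is small
  have hsmall : ∀ᶠ i : ℕ in atTop, 7 * ((i : ℝ) ^ K) ≤ ((2 : ℝ) ^ i) ^ (η / 2) := by
    have hr : (1 : ℝ) < 2 ^ (η / 2) := Real.one_lt_rpow (by norm_num) (by positivity)
    have h1 := tendsto_pow_const_div_const_pow_of_one_lt K hr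
    have h2 := h1.eventually_lt_const (show (0 : ℝ) < 1 / 7 by positivity)
    filter_upwards [h2] with i h3
    have h6 : 0 < ((2 : ℝ) ^ (η / 2)) ^ i := by positivity
    rw [div_lt_iff₀ h6] at h3
    have h7 : ((2 : ℝ) ^ i) ^ (η / 2) = ((2 : ℝ) ^ (η / 2)) ^ i := by
      rw [← Real.rpow_natCast, ← Real.rpow_natCast, ← Real.rpow_mul (by norm_num),
        ← Real.rpow_mul (by norm_num), mul_comm]
    rw [h7]
    linarith
  filter_upwards [h a ha, hbal, hsmall, eventually_ge_atTop 1] with i h1 h2 h3 hi1 q r hq hqi hr N hN1 hN2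
  have hN1r : (2 : ℝ) ^ i ≤ N := by exact_mod_cast hN1
  have hN2r : (N : ℝ) ≤ 2 * 2 ^ i := by
    have : (N : ℝ) ≤ (2 : ℝ) ^ (i + 1) := by exact_mod_cast hN2
    rw [pow_succ] at this
    linarith
  have hi0 : (0 : ℝ) < i := by exact_mod_cast hi1
  have hq0 : (0 : ℝ) < q := by exact_mod_cast hq
  have h4 := h1 q r hq hqi hr N hN1 hN2
  have h5 := h2 N hN1r hN2r
  have h6 := card_class (2 ^ i) N q r hN1 hq hr
  set S1 := ∑ n ∈ (Finset.Ioc (2 ^ i) N).filter (fun n => n % q = r), hT T (Real.log ((gR f).eval (n : ℝ)) + a) with hS1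
  set c : ℝ := ((((Finset.Ioc (2 ^ i) N).filter (fun n => n % q = r)).card : ℕ) : ℝ) with hc
  set I1 := ∫ x in ((2 : ℝ) ^ i)..N, hT T (Real.log ((gR f).eval x) + a) with hI1
  set I2 := ∫ x in ((2 : ℝ) ^ i)..N, s (NN (Real.log ((gR f).eval x) + a)) with hI2
  have e1 : ∑ n ∈ (Finset.Ioc (2 ^ i) N).filter (fun n => n % q = r), s (NN (Real.log ((gR f).eval (n : ℝ)) + a)) =
      2 * S1 - c := by
    simp_rw [hst]
    rw [Finset.sum_sub_distrib, ← Finset.mul_sum, Finset.sum_const, nsmul_eq_mul, mul_one]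
  have e2 : I2 = 2 * I1 - ((N : ℝ) - 2 ^ i) := by
    rw [hI2, hI1]
    simp_rw [hst]
    rw [intervalIntegral.integral_sub, intervalIntegral.integral_const_mul, intervalIntegral.integral_const,
      smul_eq_mul, mul_one]
    · refine IntervalIntegrable.const_mul ?_ 2
      rw [intervalIntegrable_iff]
      refine Measure.integrableOn_of_bounded (M := 1) ?_ ((measurable_hT T).comp
        ((Real.measurable_log.comp (gR f).continuous.measurable).add_const a)).aestronglyMeasurable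
        (Eventually.of_forall fun x => ?_)
      · rw [Set.uIoc]
        exact measure_Ioc_lt_top.ne
      · rw [Real.norm_eq_abs, abs_of_nonneg (Pool.Agent.Y122.MH.hT_nonneg _ _)]
        exact Pool.Agent.Y122.MH.hT_le_one _ _
    · exact intervalIntegrable_const
  push_cast at h6
  rw [e1]
  have e3 : 2 * S1 - c = 2 * (S1 - 1 / (q : ℝ) * I1) + (1 / (q : ℝ)) * I2 - (c - ((N : ℝ) - 2 ^ i) / q) := by
    rw [e2]
    field_simp
    ring
  have hX1 : (1 : ℝ) ≤ (2 : ℝ) ^ i := one_le_pow₀ (by norm_num)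
  have hX0 : (0 : ℝ) < (2 : ℝ) ^ i := by positivity
  have e4 : |2 * S1 - c| ≤ 2 * (3 * ((2 : ℝ) ^ i) ^ (1 - η)) + (1 / (q : ℝ)) * (C * (2 ^ i / (i : ℝ) ^ K)) + 1 := by
    rw [e3]
    refine (abs_sub _ _).trans (add_le_add ((abs_add_le _ _).trans (add_le_add ?_ ?_)) h6)
    · rw [abs_mul, abs_of_pos (by norm_num : (0 : ℝ) < 2)]
      exact mul_le_mul_of_nonneg_left h4 (by norm_num)
    · rw [abs_mul, abs_of_pos (by positivity : (0 : ℝ) < 1 / q)]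
      exact mul_le_mul_of_nonneg_left h5 (by positivity)
  refine e4.trans ?_
  have e5 : 2 * (3 * ((2 : ℝ) ^ i) ^ (1 - η)) + 1 ≤ 2 ^ i / (q * (i : ℝ) ^ K) := by
    have h7 : (1 : ℝ) ≤ ((2 : ℝ) ^ i) ^ (1 - η) := Real.one_le_rpow hX1 (by linarith)
    have h8 : 2 * (3 * ((2 : ℝ) ^ i) ^ (1 - η)) + 1 ≤ 7 * ((2 : ℝ) ^ i) ^ (1 - η) := by linarith
    refine h8.trans ?_
    rw [le_div_iff₀ (by positivity)]
    have h9 : (q : ℝ) ≤ ((2 : ℝ) ^ i) ^ (η / 2) :=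
      (by linarith : (q : ℝ) ≤ ((2 : ℝ) ^ i) ^ (η / 4)).trans
        (Real.rpow_le_rpow_of_exponent_le hX1 (by linarith))
    calc 7 * ((2 : ℝ) ^ i) ^ (1 - η) * (q * (i : ℝ) ^ K) =
          ((2 : ℝ) ^ i) ^ (1 - η) * q * (7 * (i : ℝ) ^ K) := by ring
      _ ≤ ((2 : ℝ) ^ i) ^ (1 - η) * ((2 : ℝ) ^ i) ^ (η / 2) * ((2 : ℝ) ^ i) ^ (η / 2) := by gcongr
      _ = 2 ^ i := by
          rw [← Real.rpow_add hX0, ← Real.rpow_add hX0]
          conv_rhs => rw [← Real.rpow_one ((2 : ℝ) ^ i)]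
          congr 1
          ring
  have e6 : (1 / (q : ℝ)) * (C * (2 ^ i / (i : ℝ) ^ K)) = C * (2 ^ i / (q * (i : ℝ) ^ K)) := by
    field_simp
  rw [e6]
  linarith

end Pool.Agent.Y122.MU
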