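import Pool.Agent.Y122.MU.Law
import Pool.Agent.Y122.MH.Final2

/-! The asymptotic formula for all polynomials of one degree, with one exceptional set. -/

set_option autoImplicit false

namespace Pool.Agent.Y122.MU

open MeasureTheory Polynomial Filter Topology
open Pool.Agent.H305R2 (NN ff VV measurable_ff ff_nonneg ff_le_one VV_nonneg roughPart)
open Pool.Agent.Y122.MH hiding exp_diff prog class_bound cell scale_cover law block step1 final

theorem block (d : ℕ) (hd0 : 1 ≤ d) :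
    ∃ η : ℝ, 0 < η ∧ η ≤ 1 / 2 ∧ ∀ f : ℤ[X], f.natDegree = d → 0 < f.leadingCoeff → ∃ E : Set ℝ, dimH E ≤ ENNReal.ofReal (1 - η) ∧ ∀ a : ℝ, a ∉ E →
    ∀ ε : ℝ, 0 < ε → ∀ᶠ i : ℕ in atTop, ∀ k : ℕ, 8 * k ≤ i → ∀ N : ℕ, 2 ^ i ≤ N → N ≤ 2 ^ (i + 1) →
      |(cn f k a (2 ^ i) N : ℝ) - Dk f k * (VV k / (f.natDegree * Real.log 2 * i) * ((N : ℝ) - 2 ^ i))| ≤
        Dk f k * (ε * (VV k / i * 2 ^ i)) + 3 * ((2 : ℝ) ^ i) ^ (1 - η) := by
  classical
  obtain ⟨η, hη, hη1, hlaw'⟩ := law d hd0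
  refine ⟨η, hη, hη1, ?_⟩
  intro f hdf hlc
  subst hdf
  have hd := hd0
  have hd' : 1 ≤ (gR f).natDegree := by rw [gR_natDegree]; exact hd
  have hlc' : 0 < (gR f).leadingCoeff := by rw [gR_leadingCoeff]; exact_mod_cast hlc
  have hlaw := hlaw' (gR f) (gR_natDegree f) hlc'
  have hM : ∀ᶠ i : ℕ in atTop, (((i / 8 + 1 : ℕ)) : ℝ) ≤ ((2 : ℝ) ^ i) ^ η := by
    have hr : (1 : ℝ) < 2 ^ η := Real.one_lt_rpow (by norm_num) hη
    have h1 := tendsto_pow_const_div_const_pow_of_one_lt 1 hr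
    have h2 := h1.eventually_lt_const (show (0 : ℝ) < 1 / 2 by norm_num)
    filter_upwards [h2, eventually_ge_atTop 1] with i h3 h4
    have h5 : (1 : ℝ) ≤ i := by exact_mod_cast h4
    have h6 : 0 < ((2 : ℝ) ^ η) ^ i := by positivity
    rw [pow_one, div_lt_iff₀ h6] at h3
    have h7 : ((2 : ℝ) ^ i) ^ η = ((2 : ℝ) ^ η) ^ i := by
      rw [← Real.rpow_natCast, ← Real.rpow_natCast, ← Real.rpow_mul (by norm_num),
        ← Real.rpow_mul (by norm_num), mul_comm]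
    rw [h7]
    have h8 : (((i / 8 : ℕ)) : ℝ) ≤ i := by exact_mod_cast Nat.div_le_self i 8
    push_cast
    linarith
  obtain ⟨E, hE, hlawE⟩ := hlaw (fun i => i / 8 + 1) (fun _ k => primorial k)
    (fun _ k => (Finset.range (primorial k)).filter (fun n => Cop f (primorial k) n))
    (fun _ k => {m | (roughPart k m).Prime}) hM
    (Eventually.of_forall fun i k _ => primorial_pos' k)
    (Eventually.of_forall fun i k hk => by
      have hk8 : 8 * k ≤ i := by omega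
      calc (primorial k) ^ 4 ≤ (4 ^ k) ^ 4 := Nat.pow_le_pow_left (primorial_le_four_pow k) 4
        _ = 2 ^ (8 * k) := by
            rw [show (4 : ℕ) = 2 ^ 2 by norm_num, ← pow_mul, ← pow_mul]
            congr 1
            ring
        _ ≤ 2 ^ i := Nat.pow_le_pow_right (by norm_num) hk8)
    (Eventually.of_forall fun i k _ => Finset.filter_subset _ _)
    (Eventually.of_forall fun i k _ => by
      show ¬ (roughPart k 0).Prime
      simp [Pool.Agent.H305R2.roughPart, Nat.not_prime_one])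
  refine ⟨E, hE, fun a ha ε hε => ?_⟩
  have hmain := main_term (gR f) hd' hlc' a hε
  filter_upwards [hlawE a ha, hmain] with i h1 h2 k hk N hN1 hN2
  have h3 := h1 k (by omega) N hN1 hN2
  have hN1r : (2 : ℝ) ^ i ≤ N := by exact_mod_cast hN1
  have hN2r : (N : ℝ) ≤ 2 * 2 ^ i := by
    have : (N : ℝ) ≤ (2 : ℝ) ^ (i + 1) := by exact_mod_cast hN2
    rw [pow_succ] at this
    linarith
  have h4 := h2 k (by omega) (N : ℝ) hN1r hN2r
  have hQ0 : (0 : ℝ) < primorial k := by exact_mod_cast primorial_pos' k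
  have hhT : ∀ y : ℝ, hT {m | (roughPart k m).Prime} y = ff k y := fun y => by
    unfold hT Pool.Agent.H305R2.ff
    by_cases h : (roughPart k (NN y)).Prime
    · rw [if_pos h, if_pos (show NN y ∈ {m | (roughPart k m).Prime} from h)]
    · rw [if_neg h, if_neg (show ¬ NN y ∈ {m | (roughPart k m).Prime} from h)]
  have e1 : EE (gR f) (2 ^ i) N (primorial k) ((Finset.range (primorial k)).filter
      (fun n => Cop f (primorial k) n)) {m | (roughPart k m).Prime} a =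
      (cn f k a (2 ^ i) N : ℝ) - Dk f k * ∫ x in ((2 : ℝ) ^ i)..N, ff k (Real.log ((gR f).eval x) + a) := by
    unfold EE
    congr 1
    · unfold cn
      rw [← Finset.filter_filter, Finset.card_filter]
      push_cast
      have e2 : (Finset.Ioc (2 ^ i) N).filter (fun n => n % primorial k ∈
          (Finset.range (primorial k)).filter (fun n => Cop f (primorial k) n)) =
          (Finset.Ioc (2 ^ i) N).filter (fun n => Cop f (primorial k) n) := by
        refine Finset.filter_congr fun n _ => ?_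
        rw [Finset.mem_filter, Finset.mem_range, Cop_mod]
        exact and_iff_right (Nat.mod_lt _ (primorial_pos' k))
      rw [e2]
      refine Finset.sum_congr rfl fun n _ => ?_
      rw [hhT]
      rfl
    · have e3 : (((Finset.range (primorial k)).filter (fun n => Cop f (primorial k) n)).card : ℝ) /
          primorial k = Dk f k := rfl
      rw [e3]
      congr 1
      push_cast
      exact intervalIntegral.integral_congr fun x _ => hhT _
  rw [e1] at h3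
  rw [gR_natDegree] at h4
  have hD0 : 0 ≤ Dk f k := by unfold Dk; positivity
  set I := ∫ x in ((2 : ℝ) ^ i)..N, ff k (Real.log ((gR f).eval x) + a) with hI
  have e4 : (cn f k a (2 ^ i) N : ℝ) - Dk f k * (VV k / (f.natDegree * Real.log 2 * i) * ((N : ℝ) - 2 ^ i)) =
      ((cn f k a (2 ^ i) N : ℝ) - Dk f k * I) +
        Dk f k * (I - VV k / (f.natDegree * Real.log 2 * i) * ((N : ℝ) - 2 ^ i)) := by ring
  rw [e4]
  refine (abs_add_le _ _).trans ?_
  rw [abs_mul, abs_of_nonneg hD0]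
  have h5 := mul_le_mul_of_nonneg_left h4 hD0
  linarith

theorem step1 (d : ℕ) (hd0 : 1 ≤ d) :
    ∃ E : Set ℝ, dimH E < 1 ∧ ∀ f : ℤ[X], f.natDegree = d → 0 < f.leadingCoeff → ∀ L : ℝ,
    Tendsto (fun k => Dk f k * VV k) atTop (𝓝 L) → ∀ a : ℝ, a ∉ E → ∀ ε : ℝ, 0 < ε → ∃ k0 : ℕ, ∀ᶠ i : ℕ in atTop,
      ∀ k : ℕ, k0 ≤ k → 8 * k ≤ i → ∀ N : ℕ, 2 ^ i ≤ N → N ≤ 2 ^ (i + 1) →
        |De f L k a (2 ^ i) N| ≤ ε * (2 ^ i / i) := by
  obtain ⟨η, hη, hη1, hblock⟩ := block d hd0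
  choose! Ef hEf hbf using hblock
  refine ⟨⋃ f : {f : ℤ[X] // f.natDegree = d ∧ 0 < f.leadingCoeff}, Ef f, ?_, ?_⟩
  · have : Countable ℤ[X] := Cardinal.mk_le_aleph0_iff.1 (Polynomial.cardinalMk_le_max.trans (by simp))
    rw [dimH_iUnion]
    refine lt_of_le_of_lt (iSup_le fun f => hEf f.1 f.2.1 f.2.2) ?_
    rw [show (1 : ENNReal) = ENNReal.ofReal 1 by simp]
    exact (ENNReal.ofReal_lt_ofReal_iff (by norm_num)).2 (by linarith)
  intro f hdf hlc L hL a ha' ε hε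
  have ha : a ∉ Ef f := fun h => ha' (Set.mem_iUnion.2 ⟨⟨f, hdf, hlc⟩, h⟩)
  have hb := hbf f hdf hlc
  subst hdf
  have hd := hd0
  have hl2 : 0 < Real.log 2 := Real.log_pos (by norm_num)
  have hd0 : (0 : ℝ) < f.natDegree := by exact_mod_cast hd
  set θ : ℝ := f.natDegree * Real.log 2 with hθ
  have hθ0 : 0 < θ := by positivity
  obtain ⟨B, hB⟩ := hL.bddAbove_range
  have hB' : ∀ k, Dk f k * VV k ≤ B := fun k => hB ⟨k, rfl⟩
  set B1 : ℝ := max B 0 + 1 with hB1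
  have hB10 : 0 < B1 := by positivity
  have hB1' : ∀ k, Dk f k * VV k ≤ B1 := fun k => (hB' k).trans (by rw [hB1]; linarith [le_max_left B 0])
  set ε1 : ℝ := ε / (4 * B1) with hε1
  have hε10 : 0 < ε1 := by positivity
  have hε1B : B1 * ε1 = ε / 4 := by rw [hε1]; field_simp
  obtain ⟨k0, hk0⟩ := (Metric.tendsto_atTop.1 hL) (θ * ε / 4) (by positivity)
  refine ⟨k0, ?_⟩
  -- small terms
  have hs1 : ∀ᶠ i : ℕ in atTop, 3 * ((2 : ℝ) ^ i) ^ (1 - η) ≤ ε / 4 * (2 ^ i / i) := by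
    have hr : (1 : ℝ) < 2 ^ η := Real.one_lt_rpow (by norm_num) hη
    have h1 := tendsto_pow_const_div_const_pow_of_one_lt 1 hr
    have h2 := h1.eventually_lt_const (show (0 : ℝ) < ε / 12 by positivity)
    filter_upwards [h2, eventually_ge_atTop 1] with i h3 h4
    have h5 : (1 : ℝ) ≤ i := by exact_mod_cast h4
    have h5' : (0 : ℝ) < i := by linarith
    have h6 : 0 < ((2 : ℝ) ^ η) ^ i := by positivity
    rw [pow_one, div_lt_iff₀ h6] at h3
    have hX0 : (0 : ℝ) < 2 ^ i := by positivity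
    have h7 : ((2 : ℝ) ^ i) ^ η = ((2 : ℝ) ^ η) ^ i := by
      rw [← Real.rpow_natCast, ← Real.rpow_natCast, ← Real.rpow_mul (by norm_num),
        ← Real.rpow_mul (by norm_num), mul_comm]
    rw [Real.rpow_sub hX0, Real.rpow_one, h7, ← mul_div_assoc, div_le_iff₀ h6]
    have h8 : (3 : ℝ) * i ≤ ε / 4 * ((2 : ℝ) ^ η) ^ i := by linarith
    calc 3 * (2 : ℝ) ^ i = (3 * i) * (2 ^ i / i) := by field_simp
      _ ≤ (ε / 4 * ((2 : ℝ) ^ η) ^ i) * (2 ^ i / i) := mul_le_mul_of_nonneg_right h8 (by positivity)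
      _ = _ := by ring
  have hs2 : ∀ᶠ i : ℕ in atTop, |L| / θ ≤ ε / 4 * i :=
    ((tendsto_natCast_atTop_atTop (R := ℝ)).const_mul_atTop (by positivity : 0 < ε / 4)).eventually_ge_atTop _
  filter_upwards [hb a ha ε1 hε10, hs1, hs2, eventually_ge_atTop 1] with i g1 g2 g3 g4 k hk1 hk2 N hN1 hN2
  have h1 := g1 k hk2 N hN1 hN2
  have h2 := li_block g4 hN1 hN2
  have hir : (1 : ℝ) ≤ i := by exact_mod_cast g4
  have hi0 : (0 : ℝ) < i := by linarith
  have hX0 : (0 : ℝ) < 2 ^ i := by positivity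
  have hN1r : (2 : ℝ) ^ i ≤ N := by exact_mod_cast hN1
  have hN2r : (N : ℝ) ≤ 2 ^ (i + 1) := by exact_mod_cast hN2
  have hw : (N : ℝ) - 2 ^ i ≤ 2 ^ i := by rw [pow_succ] at hN2r; linarith
  have hw0 : 0 ≤ (N : ℝ) - 2 ^ i := by linarith
  have h3 := hk0 k hk1
  rw [Real.dist_eq] at h3
  unfold De
  push_cast
  set c := (cn f k a (2 ^ i) N : ℝ) with hc
  set DV := Dk f k * VV k with hDV
  set I := ∫ t in ((2 : ℝ) ^ i)..N, il t with hI
  have e1 : c - L / f.natDegree * I = (c - Dk f k * (VV k / (θ * i) * ((N : ℝ) - 2 ^ i))) +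
      (DV - L) * (((N : ℝ) - 2 ^ i) / (θ * i)) -
      L / f.natDegree * (I - ((N : ℝ) - 2 ^ i) / (Real.log 2 * i)) := by
    rw [hDV, hθ]
    field_simp
    ring
  rw [e1]
  have t1 : |c - Dk f k * (VV k / (θ * i) * ((N : ℝ) - 2 ^ i))| ≤ ε / 2 * (2 ^ i / i) := by
    refine h1.trans ?_
    have e2 : Dk f k * (ε1 * (VV k / i * 2 ^ i)) = DV * ε1 * (2 ^ i / i) := by rw [hDV]; ring
    rw [e2]
    have h4 : DV * ε1 * (2 ^ i / i) ≤ ε / 4 * (2 ^ i / i) := by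
      refine mul_le_mul_of_nonneg_right ?_ (by positivity)
      rw [← hε1B]
      exact mul_le_mul_of_nonneg_right (hB1' k) hε10.le
    linarith
  have t2 : |(DV - L) * (((N : ℝ) - 2 ^ i) / (θ * i))| ≤ ε / 4 * (2 ^ i / i) := by
    rw [abs_mul, abs_of_nonneg (show 0 ≤ ((N : ℝ) - 2 ^ i) / (θ * i) by positivity)]
    calc |DV - L| * (((N : ℝ) - 2 ^ i) / (θ * i)) ≤ (θ * ε / 4) * (2 ^ i / (θ * i)) := by
          gcongr
      _ = _ := by field_simp
  have t3 : |L / f.natDegree * (I - ((N : ℝ) - 2 ^ i) / (Real.log 2 * i))| ≤ ε / 4 * (2 ^ i / i) := by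
    rw [abs_mul, abs_div, abs_of_pos hd0]
    calc |L| / f.natDegree * |I - ((N : ℝ) - 2 ^ i) / (Real.log 2 * i)| ≤
        |L| / f.natDegree * (2 ^ i / (Real.log 2 * i * i)) := by gcongr
      _ = (|L| / θ) * (2 ^ i / (i * i)) := by rw [hθ]; field_simp
      _ ≤ (ε / 4 * i) * (2 ^ i / (i * i)) := by gcongr
      _ = _ := by field_simp
  calc _ ≤ |c - Dk f k * (VV k / (θ * i) * ((N : ℝ) - 2 ^ i)) + (DV - L) * (((N : ℝ) - 2 ^ i) / (θ * i))| +
        |L / f.natDegree * (I - ((N : ℝ) - 2 ^ i) / (Real.log 2 * i))| := abs_sub _ _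
    _ ≤ |c - Dk f k * (VV k / (θ * i) * ((N : ℝ) - 2 ^ i))| + |(DV - L) * (((N : ℝ) - 2 ^ i) / (θ * i))| +
        |L / f.natDegree * (I - ((N : ℝ) - 2 ^ i) / (Real.log 2 * i))| := by
          gcongr
          exact abs_add_le _ _
    _ ≤ _ := by linarith

theorem final (d : ℕ) (hd0 : 1 ≤ d) :
    ∃ E : Set ℝ, dimH E < 1 ∧ ∀ a : ℝ, a ∉ E → ∀ f : ℤ[X], f.natDegree = d → 0 < f.leadingCoeff →
    ∀ L : ℝ, Tendsto (fun k => Dk f k * VV k) atTop (𝓝 L) → ∀ z : ℕ → ℕ, Tendsto z atTop atTop →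
      (∀ᶠ N in atTop, 9 * z N ≤ Nat.log 2 N) →
      Tendsto (fun N : ℕ => (cn f (z N) a 0 N : ℝ) / ∫ t in (2 : ℝ)..(N : ℝ), il t) atTop (𝓝 (L / f.natDegree)) := by
  obtain ⟨E, hE, hstep'⟩ := step1 d hd0
  refine ⟨E, hE, fun a ha f hdf hlc L hL z hz hz9 => ?_⟩
  have hstep := hstep' f hdf hlc L hL
  have hd : 1 ≤ f.natDegree := hdf ▸ hd0
  rw [Metric.tendsto_nhds]
  intro ε hε
  set ε1 : ℝ := ε / 20 with hε1
  have hε10 : 0 < ε1 := by positivity
  obtain ⟨k0, hk0⟩ := hstep a ha ε1 hε10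
  obtain ⟨i0, hi0⟩ := hk0.exists_forall_of_atTop
  set C1 : ℝ := 1 + |L / f.natDegree| * 2 with hC1
  have hC10 : 0 < C1 := by positivity
  -- the initial part is small
  have hsmall : ∀ᶠ I : ℕ in atTop, C1 * (2 : ℝ) ^ (8 * I / 9) ≤ ε1 * (2 ^ I / I) := by
    have hr : (1 : ℝ) < (2 : ℝ) ^ (1 / 9 : ℝ) := Real.one_lt_rpow (by norm_num) (by norm_num)
    have h1 := tendsto_pow_const_div_const_pow_of_one_lt 1 hr
    have h2 := h1.eventually_lt_const (show (0 : ℝ) < ε1 / C1 by positivity)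
    filter_upwards [h2, eventually_ge_atTop 1] with I h3 h4
    have h5 : (1 : ℝ) ≤ I := by exact_mod_cast h4
    have h5' : (0 : ℝ) < I := by linarith
    have h6 : 0 < ((2 : ℝ) ^ (1 / 9 : ℝ)) ^ I := by positivity
    rw [pow_one, div_lt_iff₀ h6, div_mul_eq_mul_div, lt_div_iff₀ hC10] at h3
    have h7 : (2 : ℝ) ^ (8 * I / 9) * ((2 : ℝ) ^ (1 / 9 : ℝ)) ^ I ≤ 2 ^ I := by
      rw [← Real.rpow_natCast 2 (8 * I / 9), ← Real.rpow_natCast _ I, ← Real.rpow_natCast 2 I,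
        ← Real.rpow_mul (by norm_num), ← Real.rpow_add (by norm_num)]
      refine Real.rpow_le_rpow_of_exponent_le (by norm_num) ?_
      have h8 : (((8 * I / 9 : ℕ)) : ℝ) ≤ ((8 * I : ℕ) : ℝ) / ((9 : ℕ) : ℝ) := Nat.cast_div_le
      push_cast at h8
      linarith
    rw [← mul_div_assoc, le_div_iff₀ h5']
    calc C1 * (2 : ℝ) ^ (8 * I / 9) * I = (2 : ℝ) ^ (8 * I / 9) * (I * C1) := by ring
      _ ≤ (2 : ℝ) ^ (8 * I / 9) * (ε1 * ((2 : ℝ) ^ (1 / 9 : ℝ)) ^ I) := by gcongr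
      _ = ε1 * ((2 : ℝ) ^ (8 * I / 9) * ((2 : ℝ) ^ (1 / 9 : ℝ)) ^ I) := by ring
      _ ≤ ε1 * 2 ^ I := by gcongr
  obtain ⟨I1, hI1⟩ := hsmall.exists_forall_of_atTop
  filter_upwards [hz.eventually_ge_atTop k0, hz9, log_large (2 * i0 + I1 + 3), eventually_ge_atTop 1] with N hN1 hN2
    hN3 hN4
  set I := Nat.log 2 N with hI
  set k := z N with hk
  have hI3 : 3 ≤ I := by omega
  have hII1 : I1 ≤ I := by omega
  have hNI : 2 ^ I ≤ N := Nat.pow_log_le_self 2 (by omega)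
  have hNI2 : N < 2 ^ (I + 1) := Nat.lt_pow_succ_log_self (by norm_num) N
  set i1 := 8 * I / 9 with hi1
  have hi1I : i1 ≤ I := by omega
  have hi1half : I ≤ 2 * i1 := by omega
  have hi11 : 1 ≤ i1 := by omega
  have hi0i1 : i0 ≤ i1 := by omega
  have hk8 : 8 * k ≤ i1 := by omega
  have hblocks : ∀ i, i1 ≤ i → ∀ M, 2 ^ i ≤ M → M ≤ 2 ^ (i + 1) → |De f L k a (2 ^ i) M| ≤ ε1 * (2 ^ i / i) :=
    fun i hi M h1 h2 => hi0 i (hi0i1.trans hi) k hN1 (hk8.trans hi) M h1 h2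
  have h1 := step2 f L k a hε10.le hi11 (fun i hi => hblocks i hi _ (Nat.pow_le_pow_right (by norm_num)
    (Nat.le_succ i)) le_rfl) I hi1I
  have h2 := hblocks I hi1I N hNI hNI2.le
  have h3 := hI1 I hII1
  have hIr : (3 : ℝ) ≤ I := by exact_mod_cast hI3
  have hI0 : (0 : ℝ) < I := by linarith
  have hi1r : (1 : ℝ) ≤ i1 := by exact_mod_cast hi11
  have hi1h : (I : ℝ) ≤ 2 * i1 := by exact_mod_cast hi1half
  have hX0 : (0 : ℝ) < 2 ^ I := by positivity
  have h4 : ε1 * (2 ^ I / i1) ≤ 2 * (ε1 * ((2 : ℝ) ^ I / I)) := by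
    have : (2 : ℝ) ^ I / i1 ≤ 2 * (2 ^ I / I) := by
      rw [← mul_div_assoc, div_le_div_iff₀ (by linarith) hI0]
      nlinarith
    calc ε1 * ((2 : ℝ) ^ I / i1) ≤ ε1 * (2 * (2 ^ I / I)) := by gcongr
      _ = _ := by ring
  -- total
  set Li := ∫ t in (2 : ℝ)..N, il t with hLi
  have hlow := li_low hI3 hNI hNI2.le
  rw [← hLi] at hlow
  have hLi0 : 0 < Li := lt_of_lt_of_le (by positivity) hlow
  have hpow1 : 2 ≤ 2 ^ i1 := by
    calc 2 = 2 ^ 1 := rfl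
      _ ≤ 2 ^ i1 := Nat.pow_le_pow_right (by norm_num) hi11
  have hpowI : 2 ^ i1 ≤ 2 ^ I := Nat.pow_le_pow_right (by norm_num) hi1I
  have htot : (cn f k a 0 N : ℝ) - L / f.natDegree * Li =
      ((cn f k a 0 (2 ^ i1) : ℝ) - L / f.natDegree * ∫ t in (2 : ℝ)..(2 ^ i1 : ℕ), il t) +
      (De f L k a (2 ^ i1) (2 ^ I) + De f L k a (2 ^ I) N) := by
    rw [De_add f L k a hpow1 hpowI hNI]
    unfold De
    have hA : (2 : ℝ) ≤ ((2 ^ i1 : ℕ) : ℝ) := by exact_mod_cast hpow1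
    have hD : (2 : ℝ) ≤ (N : ℝ) := by exact_mod_cast (hpow1.trans hpowI).trans hNI
    rw [hLi, ← intervalIntegral.integral_add_adjacent_intervals (ii_il le_rfl hA) (ii_il hA hD),
      ← cn_add f k a (Nat.zero_le (2 ^ i1)) (hpowI.trans hNI)]
    push_cast
    ring
  have hfirst : |(cn f k a 0 (2 ^ i1) : ℝ) - L / f.natDegree * ∫ t in (2 : ℝ)..(2 ^ i1 : ℕ), il t| ≤
      ε1 * (2 ^ I / I) := by
    refine le_trans ?_ h3
    obtain ⟨u1, u2⟩ := li_up hi11
    have h5 : ((cn f k a 0 (2 ^ i1) : ℕ) : ℝ) ≤ 2 ^ i1 := by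
      have := cn_le f k a 0 (2 ^ i1)
      rw [Nat.sub_zero] at this
      exact_mod_cast this
    have h6 : |L / f.natDegree * ∫ t in (2 : ℝ)..(2 ^ i1 : ℕ), il t| ≤ |L / f.natDegree| * (2 * 2 ^ i1) := by
      rw [abs_mul, abs_of_nonneg u1]
      gcongr
    refine (abs_sub _ _).trans ?_
    rw [abs_of_nonneg (Nat.cast_nonneg _)]
    calc _ ≤ (2 : ℝ) ^ i1 + |L / f.natDegree| * (2 * 2 ^ i1) := add_le_add h5 h6
      _ = _ := by rw [hC1, hi1]; ring
  have habs : |(cn f k a 0 N : ℝ) - L / f.natDegree * Li| ≤ 4 * (ε1 * (2 ^ I / I)) := by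
    rw [htot]
    refine (abs_add_le _ _).trans ?_
    have := abs_add_le (De f L k a (2 ^ i1) (2 ^ I)) (De f L k a (2 ^ I) N)
    linarith
  rw [Real.dist_eq]
  have e1 : (cn f k a 0 N : ℝ) / Li - L / f.natDegree = ((cn f k a 0 N : ℝ) - L / f.natDegree * Li) / Li := by
    field_simp
  rw [e1, abs_div, abs_of_pos hLi0, div_lt_iff₀ hLi0]
  calc |(cn f k a 0 N : ℝ) - L / f.natDegree * Li| ≤ 4 * (ε1 * (2 ^ I / I)) := habs
    _ = 16 * ε1 * (2 ^ I / (4 * I)) := by ring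
    _ ≤ 16 * ε1 * Li := by gcongr
    _ < ε * Li := by
        refine mul_lt_mul_of_pos_right ?_ hLi0
        rw [hε1]
        linarith

end Pool.Agent.Y122.MU
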