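import Pool.Agent.Y122.MU.Law
import Pool.Agent.Y122.MH.Final2

/-! The metric law for an arbitrary set, uniformly in all progressions with moduli up to a power. -/

set_option autoImplicit false

namespace Pool.Agent.Y122.MU

open MeasureTheory Polynomial Filter Topology
open Pool.Agent.H305R2 (NN)
open Pool.Agent.Y122.MH (hT EE gR gR_natDegree gR_leadingCoeff gR_eval)

theorem gen (d : ℕ) (hd0 : 1 ≤ d) :
    ∃ η : ℝ, 0 < η ∧ η ≤ 1 / 2 ∧ ∀ (f : ℤ[X]) (T : Set ℕ), f.natDegree = d → 0 < f.leadingCoeff → 0 ∉ T →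
    ∃ E : Set ℝ, dimH E ≤ ENNReal.ofReal (1 - η) ∧ ∀ a : ℝ, a ∉ E → ∀ᶠ i : ℕ in atTop,
    ∀ q r : ℕ, 1 ≤ q → (q : ℝ) + 1 ≤ ((2 : ℝ) ^ i) ^ (η / 4) → r < q → ∀ N : ℕ, 2 ^ i ≤ N → N ≤ 2 ^ (i + 1) →
      |(∑ n ∈ (Finset.Ioc (2 ^ i) N).filter (fun n => n % q = r), hT T (Real.log ((gR f).eval (n : ℝ)) + a)) -
        1 / (q : ℝ) * ∫ x in ((2 : ℝ) ^ i)..N, hT T (Real.log ((gR f).eval x) + a)| ≤
          3 * ((2 : ℝ) ^ i) ^ (1 - η) := by
  classical
  obtain ⟨η, hη, hη1, hlaw'⟩ := law d hd0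
  refine ⟨η, hη, hη1, ?_⟩
  intro f T hdf hlc hT0
  subst hdf
  have hlc' : 0 < (gR f).leadingCoeff := by rw [gR_leadingCoeff]; exact_mod_cast hlc
  have hlaw := hlaw' (gR f) (gR_natDegree f) hlc'
  set L : ℕ → ℕ := fun i => ⌊((2 : ℝ) ^ i) ^ (η / 4)⌋₊ with hL
  have hL1 : ∀ i, 1 ≤ L i := fun i => by
    rw [hL]
    refine Nat.one_le_floor_iff _ |>.2 ?_
    exact Real.one_le_rpow (one_le_pow₀ (by norm_num)) (by positivity)
  have hLle : ∀ i, (L i : ℝ) ≤ ((2 : ℝ) ^ i) ^ (η / 4) := fun i => Nat.floor_le (by positivity)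
  have hone : ∀ i : ℕ, (1 : ℝ) ≤ (2 : ℝ) ^ i := fun i => one_le_pow₀ (by norm_num)
  obtain ⟨E, hE, h⟩ := hlaw (fun i => L i * L i) (fun i k => k / L i + 1)
    (fun i k => if k % L i < k / L i + 1 then {k % L i} else ∅) (fun _ _ => T)
    (Eventually.of_forall fun i => by
      push_cast
      calc (L i : ℝ) * L i ≤ ((2 : ℝ) ^ i) ^ (η / 4) * ((2 : ℝ) ^ i) ^ (η / 4) := by
            gcongr <;> exact hLle i
        _ = ((2 : ℝ) ^ i) ^ (η / 2) := by
            rw [← Real.rpow_add (by positivity)]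
            congr 1
            ring
        _ ≤ _ := Real.rpow_le_rpow_of_exponent_le (hone i) (by linarith))
    (Eventually.of_forall fun i k _ => Nat.le_add_left 1 _)
    (Eventually.of_forall fun i k hk => by
      have h1 : k / L i < L i := (Nat.div_lt_iff_lt_mul (hL1 i)).2 hk
      have h2 : k / L i + 1 ≤ L i := h1
      have h3 : ((k / L i + 1 : ℕ) : ℝ) ^ 4 ≤ (2 : ℝ) ^ i := by
        calc ((k / L i + 1 : ℕ) : ℝ) ^ 4 ≤ (L i : ℝ) ^ 4 := by
              gcongr
          _ ≤ (((2 : ℝ) ^ i) ^ (η / 4)) ^ 4 := by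
              gcongr
              exact hLle i
          _ = ((2 : ℝ) ^ i) ^ η := by
              rw [← Real.rpow_natCast, ← Real.rpow_mul (by positivity)]
              congr 1
              push_cast
              ring
          _ ≤ ((2 : ℝ) ^ i) ^ (1 : ℝ) := Real.rpow_le_rpow_of_exponent_le (hone i) (by linarith)
          _ = _ := Real.rpow_one _
      exact_mod_cast h3)
    (Eventually.of_forall fun i k _ => by
      intro x hx
      split_ifs at hx with h1
      · rw [Finset.mem_singleton] at hx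
        rw [Finset.mem_range, hx]
        exact h1
      · simp at hx)
    (Eventually.of_forall fun i k _ => hT0)
  refine ⟨E, hE, fun a ha => ?_⟩
  filter_upwards [h a ha] with i h1 q r hq hqL hr N hN1 hN2
  have hqL' : q < L i := by
    have h2 : ((q + 1 : ℕ) : ℝ) ≤ ((2 : ℝ) ^ i) ^ (η / 4) := by push_cast; exact hqL
    have h3 : q + 1 ≤ L i := Nat.le_floor h2
    omega
  have hrL : r < L i := by omega
  have hk1 : ((q - 1) * L i + r) / L i = q - 1 := by
    rw [mul_comm, Nat.mul_add_div (hL1 i), Nat.div_eq_of_lt hrL, add_zero]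
  have hk2 : ((q - 1) * L i + r) % L i = r := by
    rw [mul_comm, Nat.mul_add_mod, Nat.mod_eq_of_lt hrL]
  have hklt : (q - 1) * L i + r < L i * L i := by
    have h3 : (q - 1) + 1 ≤ L i := by omega
    calc (q - 1) * L i + r < (q - 1) * L i + L i := by omega
      _ = ((q - 1) + 1) * L i := by ring
      _ ≤ L i * L i := Nat.mul_le_mul_right _ h3
  have h2 := h1 ((q - 1) * L i + r) hklt N hN1 hN2
  simp only [hk1, hk2] at h2
  rw [if_pos (by omega : r < q - 1 + 1), Nat.sub_add_cancel hq] at h2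
  unfold Pool.Agent.Y122.MH.EE at h2
  simp only [Finset.mem_singleton, Finset.card_singleton, Nat.cast_one] at h2
  push_cast at h2
  exact h2

end Pool.Agent.Y122.MU
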