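import Pool.Agent.Y122.MU.Prog
import Pool.Agent.Y122.MH.Law

/-! The law for the values of a polynomial, exponent depending on the degree only. -/

set_option autoImplicit false

namespace Pool.Agent.Y122.MU

open MeasureTheory Polynomial Filter Topology
open Pool.Agent.H305R2 (NN measurable_NN mem_Ioc_log ind_eq_sum)
open Pool.Agent.Y122.MH hiding exp_diff prog class_bound cell scale_cover law

theorem class_bound (d : ℕ) (hd : 1 ≤ d) :
    ∃ κ : ℝ, 0 < κ ∧ κ ≤ 1 / 2 ∧ ∀ g : ℝ[X], g.natDegree = d → 0 < g.leadingCoeff → ∃ C : ℝ, 1 ≤ C ∧ ∃ A0 : ℕ, ∀ (A B Q : ℕ), A0 ≤ A → A ≤ B →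
    2 * B ≤ 3 * A → 1 ≤ Q → Q ^ 4 ≤ A → ∀ r < Q, ∀ F : Finset ℕ, (∀ m ∈ F, 1 ≤ m) →
    (∀ m ∈ F, m ≤ A ^ (g.natDegree + 1)) →
    ∃ D : ℝ → ℝ, Integrable (fun a => D a ^ 2) ∧
      ∫ a, D a ^ 2 ≤ C * ((A : ℝ) / Q) ^ (2 - 2 * κ) * Real.log A ∧
      ∀ a, |(∑ n ∈ (Finset.Ioc A B).filter (fun n => n % Q = r), hF F (Real.log (g.eval (n : ℝ)) + a)) -
        (Q : ℝ)⁻¹ * (∫ x in (A : ℝ)..B, hF F (Real.log (g.eval x) + a)) - D a| ≤ 2 := by
  obtain ⟨κ, hκ, hκ1, hprog'⟩ := prog (2 * d + 6)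
  refine ⟨κ, hκ, hκ1, ?_⟩
  intro g hdg hlc
  subst hdg
  set d := g.natDegree with hdd
  obtain ⟨c0, C0, X0, hc0, hC0, hX0, hpos, hder, hbd⟩ := chain g hd hlc (2 * d + 6)
  obtain ⟨C, hC, hprog⟩ := hprog' (c0 / 3 ^ (2 * d + 6 + 4)) C0 (by positivity) hC0
  refine ⟨2 * C ^ 2 * (d + 2) + 16, by nlinarith,
    max (max 256 ⌈2 * X0⌉₊) (4 * (4 ^ (d + 2)) ^ 2), ?_⟩
  intro A B Q hA hAB hBA hQ hQA r hr F hF1 hFm
  have hA256 : 256 ≤ A := ((le_max_left _ _).trans (le_max_left _ _)).trans hA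
  have hAX : 2 * X0 ≤ A := (Nat.le_ceil _).trans (by
    exact_mod_cast ((le_max_right _ _).trans (le_max_left _ _)).trans hA)
  have hAd : 4 * (4 ^ (d + 2)) ^ 2 ≤ A := (le_max_right _ _).trans hA
  have hQ0 : 0 < Q := hQ
  have hQ4 : 4 * Q ≤ A := by
    rcases Nat.lt_or_ge Q 4 with h | h
    · omega
    · calc 4 * Q ≤ Q * Q := Nat.mul_le_mul_right _ h
        _ = Q ^ 2 := by ring
        _ ≤ Q ^ 4 := Nat.pow_le_pow_right hQ0 (by norm_num)
        _ ≤ A := hQA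
  set J := A / Q with hJ
  have hJ1 : 1 ≤ J := (Nat.le_div_iff_mul_le hQ0).2 (by omega)
  have hJ4 : 4 ≤ J := (Nat.le_div_iff_mul_le hQ0).2 (by omega)
  have hJA : Q * J ≤ A := Nat.mul_div_le A Q
  have hAJ : A < Q * (J + 1) := by
    have := Nat.lt_mul_div_succ A hQ0
    simpa using this
  -- real versions
  have hQr : (0 : ℝ) < Q := by exact_mod_cast hQ0
  have hJr : (1 : ℝ) ≤ J := by exact_mod_cast hJ1
  have hJr0 : (0 : ℝ) < J := by linarith
  have hAr : (256 : ℝ) ≤ A := by exact_mod_cast hA256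
  -- `A ≤ 4 J ^ 2`
  have hA4 : A ≤ 4 * J ^ 2 := by
    have h1 : A * A < (Q * (J + 1)) * (Q * (J + 1)) := Nat.mul_lt_mul'' hAJ hAJ
    have h2 : (Q * (J + 1)) * (Q * (J + 1)) = Q ^ 2 * (J + 1) ^ 2 := by ring
    have h3 : Q ^ 2 * Q ^ 2 ≤ A := by rw [← pow_add]; exact hQA
    have h4 : Q ^ 2 * Q ^ 2 ≤ A * A := h3.trans (Nat.le_mul_self A)
    -- `A^2 < Q^2 (J+1)^2`, `Q^4 ≤ A`
    by_contra h5
    have h6 : (J + 1) ^ 2 ≤ 4 * J ^ 2 := by nlinarith
    have h7 : (J + 1) ^ 2 < A := by omega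
    have h8 : Q ^ 2 ≤ A := (Nat.pow_le_pow_right hQ0 (by norm_num)).trans hQA
    have h9 : Q ^ 2 * (J + 1) ^ 2 ≤ A * A := Nat.mul_le_mul h8 h7.le
    omega
  have hJd : 4 ^ (d + 2) ≤ J := by
    by_contra h5
    have h6 : J ^ 2 < (4 ^ (d + 2)) ^ 2 := Nat.pow_lt_pow_left (by omega) (by norm_num)
    omega
  have hm1 : 2 * (((A ^ (d + 1) : ℕ) : ℝ) + 1) * (J : ℝ) ^ 3 ≤ (J : ℝ) ^ (2 * d + 6) := by
    have h1 : 2 * (A ^ (d + 1) + 1) * J ^ 3 ≤ J ^ (2 * d + 6) := by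
      have h2 : A ^ (d + 1) ≤ (4 * J ^ 2) ^ (d + 1) := Nat.pow_le_pow_left hA4 _
      have h3 : 1 ≤ (4 * J ^ 2) ^ (d + 1) := Nat.one_le_pow _ _ (by positivity)
      calc 2 * (A ^ (d + 1) + 1) * J ^ 3 ≤ 2 * ((4 * J ^ 2) ^ (d + 1) + (4 * J ^ 2) ^ (d + 1)) * J ^ 3 := by
            gcongr
        _ = 4 ^ (d + 2) * J ^ (2 * d + 5) := by ring
        _ ≤ J * J ^ (2 * d + 5) := Nat.mul_le_mul_right _ hJd
        _ = _ := by ring
    exact_mod_cast h1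
  have hXJ : X0 ≤ (Q : ℝ) * J := by
    have h1 : (A : ℝ) < Q * (J + 1) := by exact_mod_cast hAJ
    have h2 : (4 : ℝ) * Q ≤ A := by exact_mod_cast hQ4
    linarith
  have hPh := Ph_of (g := g) (M := 2 * d + 6) hc0 hC0 hX0 hder hbd hQr hJ1 hXJ
  -- the progression
  set ar := (A - r) / Q with har
  set br := (B - r) / Q with hbr
  have hrA : r ≤ A := by omega
  have hrB : r ≤ B := by omega
  have ha1 : Q * ar ≤ A - r := Nat.mul_div_le _ Q
  have ha2 : A - r < Q * (ar + 1) := by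
    have := Nat.lt_mul_div_succ (A - r) hQ0
    simpa using this
  have hb1 : Q * br ≤ B - r := Nat.mul_div_le _ Q
  have hb2 : B - r < Q * (br + 1) := by
    have := Nat.lt_mul_div_succ (B - r) hQ0
    simpa using this
  have hab : ar ≤ br := Nat.div_le_div_right (by omega)
  set L := br - ar with hL
  have hbL : br = ar + L := by omega
  set u : ℝ := ar + 1 + r / Q with hu
  have hQu : (Q : ℝ) * u = Q * (ar + 1) + r := by
    rw [hu]
    field_simp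
  have hQuA : (A : ℝ) ≤ Q * u := by
    rw [hQu]
    have : A ≤ Q * (ar + 1) + r := by omega
    exact_mod_cast this
  have hQuA' : (Q : ℝ) * u ≤ A + Q := by
    rw [hQu]
    have : Q * (ar + 1) + r ≤ A + Q := by
      rw [mul_add, mul_one]
      omega
    exact_mod_cast this
  have hQuB : (Q : ℝ) * (u + L) ≤ B + Q := by
    rw [mul_add, hQu]
    have : Q * (ar + 1) + r + Q * L ≤ B + Q := by
      have : Q * (ar + 1) + Q * L = Q * br + Q := by rw [hbL]; ring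
      omega
    exact_mod_cast this
  have hQuB' : (B : ℝ) ≤ (Q : ℝ) * (u + L) := by
    rw [mul_add, hQu]
    have : B ≤ Q * (ar + 1) + r + Q * L := by
      have : Q * (ar + 1) + Q * L = Q * (br + 1) := by rw [hbL]; ring
      omega
    exact_mod_cast this
  have hJu : (J : ℝ) ≤ u := by
    have h1 : (Q : ℝ) * J ≤ A := by exact_mod_cast hJA
    have h2 : (Q : ℝ) * J ≤ Q * u := h1.trans hQuA
    exact le_of_mul_le_mul_left h2 hQr
  have hLJ : L ≤ J := by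
    -- Q L ≤ B - A + Q
    have h1 : Q * L ≤ B - A + Q := by
      have : Q * (ar + 1) + Q * L = Q * br + Q := by rw [hbL]; ring
      have : Q * (ar + 1) = Q * ar + Q := by ring
      omega
    have h2 : Q * (J + 1) = Q * J + Q := by ring
    have h3 : Q * L < Q * (J + 1) := by omega
    exact Nat.lt_succ_iff.1 (Nat.lt_of_mul_lt_mul_left h3)
  have huL : u + L ≤ 3 * J := by
    have h1 : (2 : ℝ) * B ≤ 3 * A := by exact_mod_cast hBA
    have h2 : (A : ℝ) < Q * (J + 1) := by exact_mod_cast hAJ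
    have h3 : (4 : ℝ) ≤ J := by exact_mod_cast hJ4
    have h4 : (Q : ℝ) * (u + L) ≤ Q * (3 * J) := by nlinarith
    exact le_of_mul_le_mul_left h4 hQr
  have hpr := hprog J L u (fun m t => (Q : ℝ) ^ m * Fc g m (Q * t)) F (A ^ (d + 1)) hJ1 hJu hLJ huL hPh hF1
    hFm hm1
  set D : ℝ → ℝ := fun a => ∑ n ∈ Finset.range L, hF F ((Q : ℝ) ^ 0 * Fc g 0 (Q * (u + n)) + a) -
      ∫ t in Set.Ioc (0 : ℝ) L, hF F ((Q : ℝ) ^ 0 * Fc g 0 (Q * (u + t)) + a) with hD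
  refine ⟨D, hpr.1, hpr.2.trans ?_, ?_⟩
  · -- the bound
    have h1 : (J : ℝ) ≤ A / Q := by
      rw [le_div_iff₀ hQr, mul_comm]
      exact_mod_cast hJA
    have h2 : (C * (J : ℝ) ^ (1 - κ)) ^ 2 ≤ C ^ 2 * ((A : ℝ) / Q) ^ (2 - 2 * κ) := by
      rw [mul_pow, ← Real.rpow_natCast ((J : ℝ) ^ (1 - κ)) 2, ← Real.rpow_mul hJr0.le]
      refine mul_le_mul_of_nonneg_left ?_ (by positivity)
      rw [show (1 - κ) * ((2 : ℕ) : ℝ) = 2 - 2 * κ by push_cast; ring]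
      exact Real.rpow_le_rpow hJr0.le h1 (by linarith)
    have h3 : Real.log ((A ^ (d + 1) + 1 : ℕ) : ℝ) ≤ (d + 2) * Real.log A := by
      have h4 : (((A ^ (d + 1) + 1 : ℕ) : ℕ) : ℝ) ≤ (A : ℝ) ^ (d + 2) := by
        have : A ^ (d + 1) + 1 ≤ A ^ (d + 2) := by
          have h5 : 1 ≤ A ^ (d + 1) := Nat.one_le_pow _ _ (by omega)
          calc A ^ (d + 1) + 1 ≤ A ^ (d + 1) * 2 := by omega
            _ ≤ A ^ (d + 1) * A := Nat.mul_le_mul_left _ (by omega)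
            _ = _ := by ring
        exact_mod_cast this
      calc Real.log ((A ^ (d + 1) + 1 : ℕ) : ℝ) ≤ Real.log ((A : ℝ) ^ (d + 2)) :=
            Real.log_le_log (by positivity) h4
        _ = _ := by
            rw [Real.log_pow]
            push_cast
            ring
    have hlog : 1 ≤ Real.log A := by
      rw [Real.le_log_iff_exp_le (by linarith)]
      linarith [Real.exp_one_lt_d9]
    have h4 : 1 ≤ ((A : ℝ) / Q) ^ (2 - 2 * κ) := Real.one_le_rpow (hJr.trans h1) (by linarith)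
    calc 2 * (C * (J : ℝ) ^ (1 - κ)) ^ 2 * Real.log ((A ^ (d + 1) + 1 : ℕ) : ℝ) + 16 ≤
        2 * (C ^ 2 * ((A : ℝ) / Q) ^ (2 - 2 * κ)) * ((d + 2) * Real.log A) +
          16 * (((A : ℝ) / Q) ^ (2 - 2 * κ) * Real.log A) := by
          have h6 : 0 ≤ Real.log ((A ^ (d + 1) + 1 : ℕ) : ℝ) := Real.log_natCast_nonneg _
          have h7 : 1 ≤ ((A : ℝ) / Q) ^ (2 - 2 * κ) * Real.log A := by nlinarith
          have h8 : 2 * (C * (J : ℝ) ^ (1 - κ)) ^ 2 * Real.log ((A ^ (d + 1) + 1 : ℕ) : ℝ) ≤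
              2 * (C ^ 2 * ((A : ℝ) / Q) ^ (2 - 2 * κ)) * ((d + 2) * Real.log A) := by
            gcongr
          linarith
      _ = _ := by ring
  · intro a
    have e1 : ∑ n ∈ (Finset.Ioc A B).filter (fun n => n % Q = r), hF F (Real.log (g.eval (n : ℝ)) + a) =
        ∑ n ∈ Finset.range L, hF F ((Q : ℝ) ^ 0 * Fc g 0 (Q * (u + n)) + a) := by
      rw [sum_prog hQ0 hr hrA (fun n => hF F (Real.log (g.eval (n : ℝ)) + a))]
      refine Finset.sum_congr rfl fun j _ => ?_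
      rw [pow_zero, one_mul]
      show _ = hF F (Real.log (g.eval ((Q : ℝ) * (u + j))) + a)
      have h9 : (((Q * (ar + 1 + j) + r : ℕ)) : ℝ) = (Q : ℝ) * (u + j) := by
        rw [mul_add (Q : ℝ) u j, hQu]
        push_cast
        ring
      rw [← h9]
    have e2 : ∫ t in Set.Ioc (0 : ℝ) L, hF F ((Q : ℝ) ^ 0 * Fc g 0 (Q * (u + t)) + a) =
        (Q : ℝ)⁻¹ * ∫ x in (Q * u)..(Q * (u + L)), hF F (Real.log (g.eval x) + a) := by
      rw [← intervalIntegral.integral_of_le (by positivity)]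
      have h1 := intervalIntegral.integral_comp_mul_add (a := (0 : ℝ)) (b := L)
        (fun x => hF F (Real.log (g.eval x) + a)) hQr.ne' (Q * u)
      rw [smul_eq_mul, mul_zero, zero_add] at h1
      rw [show (Q : ℝ) * (u + L) = Q * L + Q * u by ring, ← h1]
      refine intervalIntegral.integral_congr fun t _ => ?_
      show hF F ((Q : ℝ) ^ 0 * Real.log (g.eval (Q * (u + t))) + a) = _
      rw [pow_zero, one_mul]
      ring_nf
    rw [e1, hD]
    simp only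
    rw [e2]
    have hm : Measurable (fun x : ℝ => hF F (Real.log (g.eval x) + a)) :=
      (measurable_hF F).comp ((measurable_lg g).add_const a)
    have h1 := ii_shift hm (fun x => hF_nonneg F _) (fun x => hF_le_one F _) (Q * u) (Q * (u + L)) A B
    have h2 : |(Q : ℝ) * u - A| ≤ Q := by rw [abs_le]; constructor <;> linarith
    have h3 : |(Q : ℝ) * (u + L) - B| ≤ Q := by rw [abs_le]; constructor <;> linarith
    set I1 := ∫ x in (Q * u)..(Q * (u + L)), hF F (Real.log (g.eval x) + a) with hI1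
    set I2 := ∫ x in (A : ℝ)..B, hF F (Real.log (g.eval x) + a) with hI2
    set S := ∑ n ∈ Finset.range L, hF F ((Q : ℝ) ^ 0 * Fc g 0 (Q * (u + n)) + a) with hS
    have e3 : S - (Q : ℝ)⁻¹ * I2 - (S - (Q : ℝ)⁻¹ * I1) = (Q : ℝ)⁻¹ * (I1 - I2) := by ring
    rw [e3, abs_mul, abs_of_pos (inv_pos.2 hQr)]
    calc (Q : ℝ)⁻¹ * |I1 - I2| ≤ (Q : ℝ)⁻¹ * (Q + Q) := by
          refine mul_le_mul_of_nonneg_left (h1.trans (by linarith)) (by positivity)
      _ = 2 := by field_simp; norm_num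

theorem cell (d : ℕ) (hd : 1 ≤ d) :
    ∃ κ : ℝ, 0 < κ ∧ κ ≤ 1 / 2 ∧ ∀ g : ℝ[X], g.natDegree = d → 0 < g.leadingCoeff → ∃ C : ℝ, 0 < C ∧ ∀ a0 : ℝ, ∃ A0 : ℕ, ∀ (A B Q : ℕ), A0 ≤ A → A ≤ B →
    2 * B ≤ 3 * A → 1 ≤ Q → Q ^ 4 ≤ A → ∀ R ⊆ Finset.range Q, ∀ T : Set ℕ, 0 ∉ T →
    IntegrableOn (fun a => EE g A B Q R T a ^ 2) (Set.Ioc a0 (a0 + 1)) ∧
    ∫ a in Set.Ioc a0 (a0 + 1), EE g A B Q R T a ^ 2 ≤ C * (A : ℝ) ^ (2 - κ) := by
  classical
  obtain ⟨κ, hκ, hκ1, hcls'⟩ := class_bound d hd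
  refine ⟨κ, hκ, hκ1, ?_⟩
  intro g hdg hlc
  subst hdg
  obtain ⟨C, hC, A1, hcls⟩ := hcls' g rfl hlc
  refine ⟨2 * C * (4 / κ) + 8, by positivity, ?_⟩
  intro a0
  set d := g.natDegree with hdd
  -- growth
  have hgrow : ∀ᶠ x : ℝ in atTop, g.eval x * (Real.exp (a0 + 1) * (3 / 2) ^ (d + 1)) ≤ x ^ (d + 1) := by
    have h1 : Tendsto (fun x : ℝ => g.eval x / (X ^ (d + 1) : ℝ[X]).eval x) atTop (𝓝 0) := by
      refine Polynomial.div_tendsto_atTop_zero_of_degree_lt _ _ ?_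
      rw [degree_X_pow]
      have hg0 : g ≠ 0 := fun h => by rw [h] at hlc; simp at hlc
      rw [Polynomial.degree_eq_natDegree hg0, ← hdd]
      exact_mod_cast Nat.lt_succ_self d
    have h2 := h1.eventually_lt_const (show (0 : ℝ) < (Real.exp (a0 + 1) * (3 / 2) ^ (d + 1))⁻¹ by positivity)
    filter_upwards [h2, eventually_gt_atTop 0] with x h3 hx
    rw [eval_pow, eval_X, div_lt_iff₀ (by positivity)] at h3
    have h4 : 0 < Real.exp (a0 + 1) * (3 / 2) ^ (d + 1) := by positivity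
    calc g.eval x * (Real.exp (a0 + 1) * (3 / 2) ^ (d + 1)) ≤
        ((Real.exp (a0 + 1) * (3 / 2) ^ (d + 1))⁻¹ * x ^ (d + 1)) * (Real.exp (a0 + 1) * (3 / 2) ^ (d + 1)) :=
          mul_le_mul_of_nonneg_right h3.le h4.le
      _ = _ := by field_simp
  have hpos : ∀ᶠ x : ℝ in atTop, 1 ≤ g.eval x := by
    have h1 : Tendsto (fun x => g.eval x) atTop atTop := by
      rw [Polynomial.tendsto_atTop_iff_leadingCoeff_nonneg]
      exact ⟨Polynomial.natDegree_pos_iff_degree_pos.1 hd, hlc.le⟩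
    exact h1.eventually_ge_atTop 1
  obtain ⟨X1, hX1⟩ := (hgrow.and hpos).exists_forall_of_atTop
  refine ⟨max (max 1 A1) ⌈X1⌉₊, ?_⟩
  intro A B Q hA hAB hBA hQ hQA R hR T hT0
  have hA1 : 1 ≤ A := ((le_max_left _ _).trans (le_max_left _ _)).trans hA
  have hAA1 : A1 ≤ A := ((le_max_right _ _).trans (le_max_left _ _)).trans hA
  have hAX : X1 ≤ A := (Nat.le_ceil _).trans (by exact_mod_cast (le_max_right _ _).trans hA)
  have hA0 : (0 : ℝ) < A := by exact_mod_cast hA1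
  have hA1r : (1 : ℝ) ≤ A := by exact_mod_cast hA1
  have hQ0 : (0 : ℝ) < Q := by exact_mod_cast hQ
  set F : Finset ℕ := (Finset.Icc 1 (A ^ (d + 1))).filter (fun m => m ∈ T) with hFdef
  have hF1 : ∀ m ∈ F, 1 ≤ m := fun m hm => (Finset.mem_Icc.1 (Finset.mem_filter.1 hm).1).1
  have hFm : ∀ m ∈ F, m ≤ A ^ (d + 1) := fun m hm => (Finset.mem_Icc.1 (Finset.mem_filter.1 hm).1).2
  -- replacing `T` by `F`
  have hTF : ∀ a ∈ Set.Ioc a0 (a0 + 1), ∀ x : ℝ, (A : ℝ) ≤ x → x ≤ B →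
      hT T (Real.log (g.eval x) + a) = hF F (Real.log (g.eval x) + a) := by
    intro a ha x hx1 hx2
    obtain ⟨h1, h2⟩ := hX1 x (hAX.trans hx1)
    have hx0 : 0 < x := by linarith
    have h3 : NN (Real.log (g.eval x) + a) ≤ A ^ (d + 1) := by
      apply NN_le
      rw [Real.exp_add, Real.exp_log (by linarith)]
      have h4 : x ≤ 3 / 2 * A := by
        have : (2 : ℝ) * B ≤ 3 * A := by exact_mod_cast hBA
        linarith
      have h5 : x ^ (d + 1) ≤ (3 / 2 * (A : ℝ)) ^ (d + 1) := pow_le_pow_left₀ hx0.le h4 _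
      have h6 : Real.exp a ≤ Real.exp (a0 + 1) := Real.exp_le_exp.2 ha.2
      have h7 : g.eval x * Real.exp (a0 + 1) * (3 / 2) ^ (d + 1) ≤ (3 / 2) ^ (d + 1) * (A : ℝ) ^ (d + 1) := by
        rw [← mul_pow, mul_assoc]
        exact h1.trans h5
      have h8 : g.eval x * Real.exp (a0 + 1) ≤ (A : ℝ) ^ (d + 1) := by
        have h9 : (0 : ℝ) < (3 / 2) ^ (d + 1) := by positivity
        rw [mul_comm ((3 / 2 : ℝ) ^ (d + 1))] at h7
        exact le_of_mul_le_mul_right h7 h9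
      push_cast
      calc g.eval x * Real.exp a ≤ g.eval x * Real.exp (a0 + 1) := by gcongr
        _ ≤ _ := h8
    have h4 : NN (Real.log (g.eval x) + a) ∈ T ↔ NN (Real.log (g.eval x) + a) ∈ F := by
      rw [hFdef, Finset.mem_filter, Finset.mem_Icc]
      constructor
      · intro h
        refine ⟨⟨?_, h3⟩, h⟩
        rcases Nat.eq_zero_or_pos (NN (Real.log (g.eval x) + a)) with h0 | h0
        · rw [h0] at h
          exact absurd h hT0
        · exact h0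
      · exact fun h => h.2
    unfold hT hF
    by_cases h5 : NN (Real.log (g.eval x) + a) ∈ T
    · rw [if_pos h5, if_pos (h4.1 h5)]
    · rw [if_neg h5, if_neg (fun h => h5 (h4.2 h))]
  -- the function with `F`
  set E1 : ℝ → ℝ := fun a => (∑ n ∈ (Finset.Ioc A B).filter (fun n => n % Q ∈ R),
      hF F (Real.log (g.eval (n : ℝ)) + a)) -
    (R.card : ℝ) / Q * ∫ x in (A : ℝ)..B, hF F (Real.log (g.eval x) + a) with hE1
  have hABr : (A : ℝ) ≤ B := by exact_mod_cast hAB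
  have hEE : ∀ a ∈ Set.Ioc a0 (a0 + 1), EE g A B Q R T a = E1 a := by
    intro a ha
    unfold EE
    rw [hE1]
    simp only
    congr 1
    · refine Finset.sum_congr rfl fun n hn => ?_
      rw [Finset.mem_filter, Finset.mem_Ioc] at hn
      exact hTF a ha n (by exact_mod_cast hn.1.1.le) (by exact_mod_cast hn.1.2)
    · congr 1
      refine intervalIntegral.integral_congr fun x hx => ?_
      rw [Set.uIcc_of_le hABr] at hx
      exact hTF a ha x hx.1 hx.2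
  have hcl : ∀ r ∈ R, ∃ D : ℝ → ℝ, Integrable (fun a => D a ^ 2) ∧
      ∫ a, D a ^ 2 ≤ C * ((A : ℝ) / Q) ^ (2 - 2 * κ) * Real.log A ∧
      ∀ a, |(∑ n ∈ (Finset.Ioc A B).filter (fun n => n % Q = r), hF F (Real.log (g.eval (n : ℝ)) + a)) -
        (Q : ℝ)⁻¹ * (∫ x in (A : ℝ)..B, hF F (Real.log (g.eval x) + a)) - D a| ≤ 2 := fun r hr =>
    hcls A B Q hAA1 hAB hBA hQ hQA r (Finset.mem_range.1 (hR hr)) F hF1 hFm
  choose! D hD1 hD2 hD3 using hcl
  have hcard : (R.card : ℝ) ≤ Q := by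
    have := Finset.card_le_card hR
    rw [Finset.card_range] at this
    exact_mod_cast this
  have hsplit : ∀ a, |E1 a - ∑ r ∈ R, D r a| ≤ 2 * Q := by
    intro a
    have e1 : ∑ n ∈ (Finset.Ioc A B).filter (fun n => n % Q ∈ R), hF F (Real.log (g.eval (n : ℝ)) + a) =
        ∑ r ∈ R, ∑ n ∈ (Finset.Ioc A B).filter (fun n => n % Q = r),
          hF F (Real.log (g.eval (n : ℝ)) + a) := by
      rw [← Finset.sum_fiberwise_of_maps_to (s := (Finset.Ioc A B).filter (fun n => n % Q ∈ R)) (t := R)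
        (g := fun n => n % Q) (fun n hn => (Finset.mem_filter.1 hn).2)]
      refine Finset.sum_congr rfl fun r hr => ?_
      refine Finset.sum_congr ?_ fun _ _ => rfl
      ext n
      simp only [Finset.mem_filter]
      constructor
      · rintro ⟨⟨h1, h2⟩, h3⟩
        exact ⟨h1, h3⟩
      · rintro ⟨h1, h3⟩
        exact ⟨⟨h1, h3 ▸ hr⟩, h3⟩
    have e2 : E1 a - ∑ r ∈ R, D r a = ∑ r ∈ R,
        ((∑ n ∈ (Finset.Ioc A B).filter (fun n => n % Q = r), hF F (Real.log (g.eval (n : ℝ)) + a)) -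
        (Q : ℝ)⁻¹ * (∫ x in (A : ℝ)..B, hF F (Real.log (g.eval x) + a)) - D r a) := by
      rw [Finset.sum_sub_distrib, Finset.sum_sub_distrib, ← e1, Finset.sum_const, nsmul_eq_mul, hE1]
      simp only
      ring
    rw [e2]
    calc _ ≤ ∑ r ∈ R, (2 : ℝ) := (Finset.abs_sum_le_sum_abs _ _).trans
          (Finset.sum_le_sum fun r hr => hD3 r hr a)
      _ = R.card * 2 := by rw [Finset.sum_const, nsmul_eq_mul]
      _ ≤ _ := by linarith
  have hpt : ∀ a, E1 a ^ 2 ≤ 2 * Q * (∑ r ∈ R, D r a ^ 2) + 8 * (Q : ℝ) ^ 2 := by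
    intro a
    have h1 := hsplit a
    have h2 : (∑ r ∈ R, D r a) ^ 2 ≤ R.card * ∑ r ∈ R, D r a ^ 2 := sq_sum_le_card_mul_sum_sq
    have h3 : (R.card : ℝ) * ∑ r ∈ R, D r a ^ 2 ≤ Q * ∑ r ∈ R, D r a ^ 2 :=
      mul_le_mul_of_nonneg_right hcard (Finset.sum_nonneg fun _ _ => sq_nonneg _)
    have h4 : (E1 a - ∑ r ∈ R, D r a) ^ 2 ≤ (2 * Q) ^ 2 := by
      rw [← sq_abs]
      exact pow_le_pow_left₀ (abs_nonneg _) h1 2
    nlinarith [sq_nonneg (E1 a - 2 * ∑ r ∈ R, D r a)]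
  have hmeasE1 : Measurable E1 := by
    refine (Finset.measurable_sum _ fun n _ => ?_).sub ((meas_par F g A B).const_mul _)
    exact (measurable_hF F).comp (measurable_const.add measurable_id)
  have hRI : IntegrableOn (fun a => 2 * Q * (∑ r ∈ R, D r a ^ 2) + 8 * (Q : ℝ) ^ 2) (Set.Ioc a0 (a0 + 1)) := by
    refine ((integrable_finsetSum _ fun r hr => hD1 r hr).const_mul _).integrableOn.add ?_
    exact integrableOn_const (by simp)
  have hI1 : IntegrableOn (fun a => E1 a ^ 2) (Set.Ioc a0 (a0 + 1)) := by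
    refine hRI.mono' (hmeasE1.pow_const 2).aestronglyMeasurable (Filter.Eventually.of_forall fun a => ?_)
    rw [Real.norm_of_nonneg (sq_nonneg _)]
    exact hpt a
  have hI2 : IntegrableOn (fun a => EE g A B Q R T a ^ 2) (Set.Ioc a0 (a0 + 1)) := by
    refine hI1.congr_fun (fun a ha => ?_) measurableSet_Ioc
    show E1 a ^ 2 = EE g A B Q R T a ^ 2
    rw [hEE a ha]
  refine ⟨hI2, ?_⟩
  calc ∫ a in Set.Ioc a0 (a0 + 1), EE g A B Q R T a ^ 2 = ∫ a in Set.Ioc a0 (a0 + 1), E1 a ^ 2 :=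
        setIntegral_congr_fun measurableSet_Ioc fun a ha => by
          show EE g A B Q R T a ^ 2 = E1 a ^ 2
          rw [hEE a ha]
    _ ≤ ∫ a in Set.Ioc a0 (a0 + 1), (2 * Q * (∑ r ∈ R, D r a ^ 2) + 8 * (Q : ℝ) ^ 2) :=
        setIntegral_mono hI1 hRI fun a => hpt a
    _ = 2 * Q * (∫ a in Set.Ioc a0 (a0 + 1), ∑ r ∈ R, D r a ^ 2) + 8 * (Q : ℝ) ^ 2 := by
        rw [integral_add ((integrable_finsetSum _ fun r hr => hD1 r hr).const_mul _).integrableOn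
          (integrableOn_const (by simp)), integral_const_mul, setIntegral_const, smul_eq_mul,
          Real.volume_real_Ioc_of_le (by linarith)]
        ring
    _ ≤ 2 * Q * (∑ r ∈ R, ∫ a, D r a ^ 2) + 8 * (Q : ℝ) ^ 2 := by
        rw [← integral_finsetSum _ fun r hr => hD1 r hr]
        gcongr
        · exact Filter.Eventually.of_forall fun a => Finset.sum_nonneg fun _ _ => sq_nonneg _
        · exact integrable_finsetSum _ fun r hr => hD1 r hr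
        · exact Measure.restrict_le_self
    _ ≤ 2 * Q * (∑ r ∈ R, C * ((A : ℝ) / Q) ^ (2 - 2 * κ) * Real.log A) + 8 * (Q : ℝ) ^ 2 := by
        gcongr with r hr
        exact hD2 r hr
    _ = 2 * Q * (R.card * (C * ((A : ℝ) / Q) ^ (2 - 2 * κ) * Real.log A)) + 8 * (Q : ℝ) ^ 2 := by
        rw [Finset.sum_const, nsmul_eq_mul]
    _ ≤ 2 * Q * (Q * (C * ((A : ℝ) / Q) ^ (2 - 2 * κ) * Real.log A)) + 8 * (Q : ℝ) ^ 2 := by
        have : 0 ≤ Real.log A := Real.log_nonneg hA1r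
        gcongr
    _ = 2 * C * ((Q : ℝ) ^ 2 * (((A : ℝ) / Q) ^ (2 - 2 * κ) * Real.log A)) + 8 * (Q : ℝ) ^ 2 := by ring
    _ ≤ 2 * C * ((4 / κ) * (A : ℝ) ^ (2 - κ)) + 8 * (A : ℝ) ^ (2 - κ) := by
        have h1 := rpow_help hκ hA1 hQ hQA
        have h2 : (Q : ℝ) ^ 2 ≤ (A : ℝ) ^ (2 - κ) := by
          have h3 : (Q : ℝ) ^ 2 ≤ A := by
            have : Q ^ 2 ≤ A := (Nat.pow_le_pow_right hQ (by norm_num)).trans hQA
            exact_mod_cast this
          calc (Q : ℝ) ^ 2 ≤ A := h3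
            _ = (A : ℝ) ^ (1 : ℝ) := (Real.rpow_one _).symm
            _ ≤ _ := Real.rpow_le_rpow_of_exponent_le hA1r (by linarith)
        gcongr
    _ = _ := by ring

theorem scale_cover (d : ℕ) (hd : 1 ≤ d) :
    ∃ κ : ℝ, 0 < κ ∧ κ ≤ 1 / 2 ∧ ∀ g : ℝ[X], g.natDegree = d → 0 < g.leadingCoeff → ∃ C1 : ℝ, 0 < C1 ∧ ∀ a0 : ℝ, ∃ i0 : ℕ, ∀ i, i0 ≤ i → ∀ w, 1 ≤ w → w ≤ i →
    ∀ (M : ℕ) (Q : ℕ → ℕ) (R : ℕ → Finset ℕ) (T : ℕ → Set ℕ), (∀ k < M, 1 ≤ Q k) →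
    (∀ k < M, (Q k) ^ 4 ≤ 2 ^ i) → (∀ k < M, R k ⊆ Finset.range (Q k)) → (∀ k < M, 0 ∉ T k) →
    ∃ S : Finset ℝ, (S.card : ℝ) ≤ M * 2 ^ w * (C1 * ((2 : ℝ) ^ i) ^ ((g.natDegree + 4 : ℕ) : ℝ) *
        ((2 : ℝ) ^ i) ^ (-(κ / 2))) ∧
      BadI g a0 (((2 : ℝ) ^ i) ^ (1 - κ / 4)) i w M Q R T ⊆
        ⋃ x ∈ S, Set.Icc x (x + (((2 : ℝ) ^ i) ^ (g.natDegree + 4))⁻¹) := by
  classical
  obtain ⟨κ, hκ, hκ1, hcell'⟩ := cell d hd
  refine ⟨κ, hκ, hκ1, ?_⟩
  intro g hdg hlc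
  subst hdg
  obtain ⟨C, hC, hcell⟩ := hcell' g rfl hlc
  set d := g.natDegree with hdd
  refine ⟨8 * 2 ^ (d + 1) + 16 * C, by positivity, ?_⟩
  intro a0
  obtain ⟨A0, hA0⟩ := hcell a0
  -- growth
  have hgrow : ∀ᶠ x : ℝ in atTop, g.eval x * Real.exp (a0 + 1) ≤ x ^ (d + 1) := by
    have h1 : Tendsto (fun x : ℝ => g.eval x / (X ^ (d + 1) : ℝ[X]).eval x) atTop (𝓝 0) := by
      refine Polynomial.div_tendsto_atTop_zero_of_degree_lt _ _ ?_
      rw [degree_X_pow]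
      have hg0 : g ≠ 0 := fun h => by rw [h] at hlc; simp at hlc
      rw [Polynomial.degree_eq_natDegree hg0, ← hdd]
      exact_mod_cast Nat.lt_succ_self d
    have h2 := h1.eventually_lt_const (show (0 : ℝ) < (Real.exp (a0 + 1))⁻¹ by positivity)
    filter_upwards [h2, eventually_gt_atTop 0] with x h3 hx
    rw [eval_pow, eval_X, div_lt_iff₀ (by positivity)] at h3
    have h4 : 0 < Real.exp (a0 + 1) := by positivity
    calc g.eval x * Real.exp (a0 + 1) ≤ ((Real.exp (a0 + 1))⁻¹ * x ^ (d + 1)) * Real.exp (a0 + 1) :=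
          mul_le_mul_of_nonneg_right h3.le h4.le
      _ = _ := by field_simp
  have hpos : ∀ᶠ x : ℝ in atTop, 1 ≤ g.eval x := by
    have h1 : Tendsto (fun x => g.eval x) atTop atTop := by
      rw [Polynomial.tendsto_atTop_iff_leadingCoeff_nonneg]
      exact ⟨Polynomial.natDegree_pos_iff_degree_pos.1 hd, hlc.le⟩
    exact h1.eventually_ge_atTop 1
  obtain ⟨X1, hX1⟩ := (hgrow.and hpos).exists_forall_of_atTop
  refine ⟨max A0 ⌈X1⌉₊, ?_⟩
  intro i hi w hw hwi M Q R T hQ1 hQ4 hR hT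
  have hii : i < 2 ^ i := Nat.lt_two_pow_self
  have hiA0 : A0 ≤ 2 ^ i := by have := (le_max_left _ _).trans hi; omega
  have hiX1 : X1 ≤ (2 : ℝ) ^ i := by
    have h1 : ⌈X1⌉₊ ≤ 2 ^ i := by have := (le_max_right _ _).trans hi; omega
    exact (Nat.le_ceil _).trans (by exact_mod_cast h1)
  set X : ℝ := (2 : ℝ) ^ i with hX
  have hX1' : 1 ≤ X := one_le_pow₀ (by norm_num)
  have hX0 : 0 < X := by linarith
  set K : ℕ := 2 ^ (i * (d + 4)) with hK
  have hK1 : 1 ≤ K := Nat.one_le_two_pow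
  have hKr : (K : ℝ) = X ^ (d + 4) := by
    rw [hK, hX]
    push_cast
    rw [pow_mul]
  have hK0 : (0 : ℝ) < K := by exact_mod_cast hK1
  set lam : ℝ := X ^ (1 - κ / 4) with hlam
  have hlam1 : 1 ≤ lam := Real.one_le_rpow hX1' (by linarith)
  have hlam0 : 0 < lam := by linarith
  set A : ℕ → ℕ := fun j => 2 ^ i + j * 2 ^ (i - w) with hA
  -- facts about the cells
  have hcf : ∀ j < 2 ^ w, 2 ^ i ≤ A j ∧ A j ≤ A (j + 1) ∧ 2 * A (j + 1) ≤ 3 * A j ∧ A (j + 1) ≤ 2 ^ (i + 1) := by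
    intro j hj
    have h1 : 2 ^ w * 2 ^ (i - w) = 2 ^ i := by rw [← pow_add]; congr 1; omega
    have h2 : 2 * 2 ^ (i - w) ≤ 2 ^ i := by
      rw [← h1]
      refine Nat.mul_le_mul_right _ ?_
      calc 2 = 2 ^ 1 := rfl
        _ ≤ 2 ^ w := Nat.pow_le_pow_right (by norm_num) hw
    have h3 : (j + 1) * 2 ^ (i - w) ≤ 2 ^ i := by
      rw [← h1]
      exact Nat.mul_le_mul_right _ hj
    have h4 : (j + 1) * 2 ^ (i - w) = j * 2 ^ (i - w) + 2 ^ (i - w) := by ring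
    simp only [hA]
    have h5 : 2 ^ (i + 1) = 2 * 2 ^ i := by ring
    refine ⟨by omega, by omega, by omega, by omega⟩
  set Sb : ℕ → ℕ → Finset ℕ := fun k j => (Finset.range K).filter (fun l =>
    ∃ a ∈ Set.Ioc (a0 + l / K) (a0 + (l + 1 : ℕ) / K), lam < |EE g (A j) (A (j + 1)) (Q k) (R k) (T k) a|)
    with hSb
  have hSbc : ∀ k < M, ∀ j < 2 ^ w, ((Sb k j).card : ℝ) ≤
      (8 * 2 ^ (d + 1) + 16 * C) * X ^ ((d + 4 : ℕ) : ℝ) * X ^ (-(κ / 2)) := by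
    intro k hk j hj
    obtain ⟨h1, h2, h3, h4⟩ := hcf j hj
    obtain ⟨h5, h6⟩ := hA0 (A j) (A (j + 1)) (Q k) (hiA0.trans h1) h2 h3 (hQ1 k hk) ((hQ4 k hk).trans h1)
      (R k) (hR k hk) (T k) (hT k hk)
    have h1r : X ≤ (A j : ℝ) := by rw [hX]; exact_mod_cast h1
    have h4r : (A (j + 1) : ℝ) ≤ 2 * X := by
      have : (A (j + 1) : ℝ) ≤ (2 : ℝ) ^ (i + 1) := by exact_mod_cast h4
      rw [pow_succ] at this
      linarith
    have h2r : (A j : ℝ) ≤ A (j + 1) := by exact_mod_cast h2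
    have hm : ∀ x : ℝ, (A j : ℝ) ≤ x → x ≤ A (j + 1) →
        (NN (Real.log (g.eval x) + (a0 + 1)) : ℝ) ≤ (2 * X) ^ (d + 1) := by
      intro x hx1 hx2
      obtain ⟨h7, h8⟩ := hX1 x (by linarith)
      refine (NN_le_exp _).trans ?_
      rw [Real.exp_add, Real.exp_log (by linarith)]
      exact h7.trans (pow_le_pow_left₀ (by linarith) (by linarith) _)
    have h7 := count_bad g h2 (hQ1 k hk) (hR k hk) (T k) a0 hm h5 hK1 hlam0 (Sb k j)
      (Finset.filter_subset _ _) (fun l hl => (Finset.mem_filter.1 hl).2)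
    refine h7.trans ?_
    have h8 : 4 / lam * (2 * (((A (j + 1) : ℝ) - A j) * (2 * X) ^ (d + 1))) ≤
        8 * 2 ^ (d + 1) * (X ^ ((d + 4 : ℕ) : ℝ) * X ^ (-(κ / 2))) := by
      have h9 : 4 / lam ≤ 4 := div_le_self (by norm_num) hlam1
      have h10 : (A (j + 1) : ℝ) - A j ≤ X := by linarith
      have h11 : (0 : ℝ) ≤ (A (j + 1) : ℝ) - A j := by linarith
      have h12 : X ^ (d + 2) ≤ X ^ ((d + 4 : ℕ) : ℝ) * X ^ (-(κ / 2)) := by
        rw [← Real.rpow_natCast X (d + 2), ← Real.rpow_add hX0]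
        refine Real.rpow_le_rpow_of_exponent_le hX1' ?_
        push_cast
        linarith
      calc 4 / lam * (2 * (((A (j + 1) : ℝ) - A j) * (2 * X) ^ (d + 1))) ≤
          4 * (2 * (X * (2 * X) ^ (d + 1))) := by gcongr
        _ = 8 * 2 ^ (d + 1) * X ^ (d + 2) := by rw [mul_pow]; ring
        _ ≤ _ := by gcongr
    have h9 : 4 * K / lam ^ 2 * (∫ a in Set.Ioc a0 (a0 + 1), EE g (A j) (A (j + 1)) (Q k) (R k) (T k) a ^ 2) ≤
        16 * C * (X ^ ((d + 4 : ℕ) : ℝ) * X ^ (-(κ / 2))) := by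
      have h10 : (A j : ℝ) ^ (2 - κ) ≤ 4 * X ^ (2 - κ) := by
        have h11 : (A j : ℝ) ≤ 2 * X := by linarith
        calc (A j : ℝ) ^ (2 - κ) ≤ (2 * X) ^ (2 - κ) :=
              Real.rpow_le_rpow (by positivity) h11 (by linarith)
          _ = 2 ^ (2 - κ) * X ^ (2 - κ) := Real.mul_rpow (by norm_num) hX0.le
          _ ≤ 4 * X ^ (2 - κ) := by
              refine mul_le_mul_of_nonneg_right ?_ (by positivity)
              calc (2 : ℝ) ^ (2 - κ) ≤ (2 : ℝ) ^ (2 : ℝ) :=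
                    Real.rpow_le_rpow_of_exponent_le (by norm_num) (by linarith)
                _ = 4 := by norm_num
      have h12 : X ^ (2 - κ) / lam ^ 2 = X ^ (-(κ / 2)) := by
        rw [hlam, ← Real.rpow_natCast, ← Real.rpow_mul hX0.le, ← Real.rpow_sub hX0]
        congr 1
        push_cast
        ring
      calc _ ≤ 4 * K / lam ^ 2 * (C * (4 * X ^ (2 - κ))) := by
            refine mul_le_mul_of_nonneg_left (h6.trans ?_) (by positivity)
            gcongr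
        _ = 16 * C * (K * (X ^ (2 - κ) / lam ^ 2)) := by ring
        _ = _ := by rw [h12, hKr, Real.rpow_natCast]
    calc _ ≤ 8 * 2 ^ (d + 1) * (X ^ ((d + 4 : ℕ) : ℝ) * X ^ (-(κ / 2))) +
          16 * C * (X ^ ((d + 4 : ℕ) : ℝ) * X ^ (-(κ / 2))) := add_le_add h8 h9
      _ = _ := by ring
  refine ⟨(Finset.range M ×ˢ Finset.range (2 ^ w)).biUnion (fun p => (Sb p.1 p.2).image
    (fun l : ℕ => a0 + (l : ℝ) / K)), ?_, ?_⟩
  · calc ((((Finset.range M ×ˢ Finset.range (2 ^ w)).biUnion (fun p => (Sb p.1 p.2).image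
        (fun l : ℕ => a0 + (l : ℝ) / K))).card : ℕ) : ℝ) ≤
        ∑ p ∈ Finset.range M ×ˢ Finset.range (2 ^ w), (((Sb p.1 p.2).image
          (fun l : ℕ => a0 + (l : ℝ) / K)).card : ℝ) := by exact_mod_cast Finset.card_biUnion_le
      _ ≤ ∑ p ∈ Finset.range M ×ˢ Finset.range (2 ^ w),
          ((8 * 2 ^ (d + 1) + 16 * C) * X ^ ((d + 4 : ℕ) : ℝ) * X ^ (-(κ / 2))) := by
          refine Finset.sum_le_sum fun p hp => ?_
          rw [Finset.mem_product, Finset.mem_range, Finset.mem_range] at hp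
          refine le_trans ?_ (hSbc p.1 hp.1 p.2 hp.2)
          exact_mod_cast Finset.card_image_le
      _ = _ := by
          rw [Finset.sum_const, Finset.card_product, Finset.card_range, Finset.card_range, nsmul_eq_mul]
          push_cast
          ring
  · rintro a ⟨ha, k, hk, j, hj, hl⟩
    set l := ⌈(a - a0) * K⌉₊ - 1 with hldef
    have hc1 : 0 < (a - a0) * K := mul_pos (by linarith [ha.1]) hK0
    have hc2 : 0 < ⌈(a - a0) * K⌉₊ := Nat.ceil_pos.2 hc1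
    have hc3 : ⌈(a - a0) * K⌉₊ ≤ K := by
      rw [Nat.ceil_le]
      have : a - a0 ≤ 1 := by linarith [ha.2]
      nlinarith
    have hl1 : l < K := by omega
    have hl2 : (l : ℝ) < (a - a0) * K := by
      have : l < ⌈(a - a0) * K⌉₊ := by omega
      exact Nat.lt_ceil.1 this
    have hl3 : (a - a0) * K ≤ ((l + 1 : ℕ) : ℝ) := by
      have : ⌈(a - a0) * K⌉₊ ≤ l + 1 := by omega
      exact Nat.ceil_le.1 this
    have hl4 : a0 + (l : ℝ) / K < a := by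
      have : (l : ℝ) / K < a - a0 := by rwa [div_lt_iff₀ hK0]
      linarith
    have hl5 : a ≤ a0 + ((l + 1 : ℕ) : ℝ) / K := by
      have : a - a0 ≤ ((l + 1 : ℕ) : ℝ) / K := by rwa [le_div_iff₀ hK0]
      linarith
    simp only [Set.mem_iUnion, exists_prop]
    refine ⟨a0 + (l : ℝ) / K, ?_, hl4.le, ?_⟩
    · rw [Finset.mem_biUnion]
      refine ⟨(k, j), Finset.mem_product.2 ⟨Finset.mem_range.2 hk, Finset.mem_range.2 hj⟩, ?_⟩
      rw [Finset.mem_image]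
      exact ⟨l, Finset.mem_filter.2 ⟨Finset.mem_range.2 hl1, a, ⟨hl4, hl5⟩, hl⟩, rfl⟩
    · rw [← hKr]
      refine hl5.trans (le_of_eq ?_)
      push_cast
      field_simp
      ring

theorem law (d : ℕ) (hd : 1 ≤ d) :
    ∃ η : ℝ, 0 < η ∧ η ≤ 1 / 2 ∧ ∀ g : ℝ[X], g.natDegree = d → 0 < g.leadingCoeff → ∀ (M : ℕ → ℕ) (Q : ℕ → ℕ → ℕ) (R : ℕ → ℕ → Finset ℕ) (T : ℕ → ℕ → Set ℕ),
    (∀ᶠ i in atTop, (M i : ℝ) ≤ ((2 : ℝ) ^ i) ^ η) → (∀ᶠ i in atTop, ∀ k < M i, 1 ≤ Q i k) →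
    (∀ᶠ i in atTop, ∀ k < M i, (Q i k) ^ 4 ≤ 2 ^ i) →
    (∀ᶠ i in atTop, ∀ k < M i, R i k ⊆ Finset.range (Q i k)) → (∀ᶠ i in atTop, ∀ k < M i, 0 ∉ T i k) →
    ∃ E : Set ℝ, dimH E ≤ ENNReal.ofReal (1 - η) ∧ ∀ a : ℝ, a ∉ E → ∀ᶠ i in atTop, ∀ k < M i,
      ∀ N : ℕ, 2 ^ i ≤ N → N ≤ 2 ^ (i + 1) →
        |EE g (2 ^ i) N (Q i k) (R i k) (T i k) a| ≤ 3 * ((2 : ℝ) ^ i) ^ (1 - η) := by
  obtain ⟨κ, hκ, hκ1, hcov'⟩ := scale_cover d hd
  set s : ℕ := ⌈8 / κ⌉₊ with hs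
  have hs1 : 8 / κ ≤ s := Nat.le_ceil _
  have hs2 : (s : ℝ) ≤ 16 / κ := by
    have h1 : (s : ℝ) < 8 / κ + 1 := Nat.ceil_lt_add_one (by positivity)
    have h2 : 1 ≤ 8 / κ := by rw [le_div_iff₀ hκ]; linarith
    have h3 : 16 / κ = 8 / κ + 8 / κ := by ring
    linarith
  have hs0 : (0 : ℝ) < s := lt_of_lt_of_le (by positivity) hs1
  have hs0' : 0 < s := by exact_mod_cast hs0
  have hs3 : (1 : ℝ) / s ≤ κ / 8 := by
    rw [div_le_iff₀ hs0]
    calc (1 : ℝ) = κ / 8 * (8 / κ) := by field_simp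
      _ ≤ _ := by gcongr
  have hs4 : κ / 16 ≤ 1 / s := by
    rw [le_div_iff₀ hs0]
    calc κ / 16 * s ≤ κ / 16 * (16 / κ) := by gcongr
      _ = 1 := by field_simp
  set η : ℝ := κ / (16 * (d + 4)) with hη
  have hη0 : 0 < η := by positivity
  have hη1 : η ≤ κ / 64 := by
    rw [hη]
    have : (4 : ℝ) ≤ d + 4 := by linarith [(Nat.cast_nonneg d : (0 : ℝ) ≤ d)]
    exact div_le_div_of_nonneg_left hκ.le (by norm_num) (by linarith)
  have hη2 : (d + 4) * η = κ / 16 := by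
    rw [hη]
    field_simp
  refine ⟨η, hη0, by linarith, ?_⟩
  intro g hdg hlc
  subst hdg
  obtain ⟨C1, hC1, hcov⟩ := hcov' g rfl hlc
  set d := g.natDegree with hdd
  intro M Q R T hM hQ1 hQ4 hR hT
  set w : ℕ → ℕ := fun i => i / s with hw
  set Bd : ℝ → ℕ → Set ℝ := fun a0 i =>
    BadI g a0 (((2 : ℝ) ^ i) ^ (1 - κ / 4)) i (w i) (M i) (Q i) (R i) (T i) with hBd
  refine ⟨⋃ z : ℤ, {a : ℝ | ∀ i1 : ℕ, ∃ i : ℕ, i1 ≤ i ∧ a ∈ Bd z i}, ?_, ?_⟩
  · rw [dimH_iUnion]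
    refine iSup_le fun z => ?_
    obtain ⟨i0, hi0⟩ := hcov z
    obtain ⟨i1, hi1⟩ := (hM.and (hQ1.and (hQ4.and (hR.and hT)))).exists_forall_of_atTop
    set ρ : ℝ := ((2 : ℝ) ^ (d + 4))⁻¹ with hρ
    have hρ0 : 0 < ρ := by positivity
    have hρ1 : ρ < 1 := inv_lt_one_of_one_lt₀ (one_lt_pow₀ (by norm_num) (by omega))
    set q : ℝ := (2 : ℝ) ^ (-(κ / 8)) with hq
    have hq0 : 0 < q := by positivity
    have hq1 : q < 1 := Real.rpow_lt_one_of_one_lt_of_neg (by norm_num) (by linarith)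
    refine dim_limsup (Bd z) (D := 1 - η) (ρ := ρ) (q := q) (C := C1) (by linarith) hρ0 hρ1 hq0 hq1 hC1.le
      ⟨max (max i0 i1) s, fun i hi => ?_⟩
    obtain ⟨g1, g2, g3, g4, g5⟩ := hi1 i (((le_max_right _ _).trans (le_max_left _ _)).trans hi)
    have hwi : w i ≤ i := Nat.div_le_self _ _
    have hw1 : 1 ≤ w i := (Nat.le_div_iff_mul_le hs0').2 (by
      have := (le_max_right _ _).trans hi; omega)
    obtain ⟨S, hS1, hS2⟩ := hi0 i (((le_max_left _ _).trans (le_max_left _ _)).trans hi) (w i) hw1 hwi (M i)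
      (Q i) (R i) (T i) g2 g3 g4 g5
    have hX1 : (1 : ℝ) ≤ (2 : ℝ) ^ i := one_le_pow₀ (by norm_num)
    have hX0 : (0 : ℝ) < (2 : ℝ) ^ i := by positivity
    have hρi : (((2 : ℝ) ^ i) ^ (d + 4))⁻¹ = ρ ^ i := by
      rw [hρ, inv_pow, ← pow_mul, ← pow_mul, mul_comm]
    refine ⟨S, ?_, ?_⟩
    · have h2w : (2 : ℝ) ^ (w i) ≤ ((2 : ℝ) ^ i) ^ (κ / 8) := by
        rw [← Real.rpow_natCast, ← Real.rpow_natCast, ← Real.rpow_mul (by norm_num)]
        refine Real.rpow_le_rpow_of_exponent_le (by norm_num) ?_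
        have h1 : ((w i : ℕ) : ℝ) ≤ (i : ℝ) / s := Nat.cast_div_le
        calc ((w i : ℕ) : ℝ) ≤ (i : ℝ) / s := h1
          _ = i * (1 / s) := by ring
          _ ≤ i * (κ / 8) := by gcongr
      have hρD : (ρ ^ i) ^ (1 - η) = ((2 : ℝ) ^ i) ^ (-((d + 4) * (1 - η))) := by
        rw [← hρi, ← Real.rpow_natCast, ← Real.rpow_neg hX0.le, ← Real.rpow_mul hX0.le]
        congr 1
        push_cast
        ring
      rw [hρD]
      calc (S.card : ℝ) * ((2 : ℝ) ^ i) ^ (-((d + 4) * (1 - η))) ≤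
          (((2 : ℝ) ^ i) ^ η * ((2 : ℝ) ^ i) ^ (κ / 8) * (C1 * ((2 : ℝ) ^ i) ^ ((d + 4 : ℕ) : ℝ) *
        ((2 : ℝ) ^ i) ^ (-(κ / 2)))) * ((2 : ℝ) ^ i) ^ (-((d + 4) * (1 - η))) := by
            refine mul_le_mul_of_nonneg_right (hS1.trans ?_) (by positivity)
            gcongr
        _ = C1 * (((2 : ℝ) ^ i) ^ η * ((2 : ℝ) ^ i) ^ (κ / 8) * ((2 : ℝ) ^ i) ^ ((d + 4 : ℕ) : ℝ) *
        ((2 : ℝ) ^ i) ^ (-(κ / 2)) * ((2 : ℝ) ^ i) ^ (-((d + 4) * (1 - η)))) := by ring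
        _ = C1 * ((2 : ℝ) ^ i) ^ (η + κ / 8 + ((d + 4 : ℕ) : ℝ) + (-(κ / 2)) + (-((d + 4) * (1 - η)))) := by
            rw [← Real.rpow_add hX0, ← Real.rpow_add hX0, ← Real.rpow_add hX0, ← Real.rpow_add hX0]
        _ ≤ C1 * ((2 : ℝ) ^ i) ^ (-(κ / 8)) := by
            refine mul_le_mul_of_nonneg_left (Real.rpow_le_rpow_of_exponent_le hX1 ?_) hC1.le
            push_cast
            have : (d + 4 : ℝ) * (1 - η) = (d + 4) - κ / 16 := by rw [mul_sub, hη2, mul_one]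
            rw [this]
            linarith
        _ = C1 * q ^ i := by
            rw [hq, ← Real.rpow_natCast 2 i, ← Real.rpow_mul (by norm_num),
              ← Real.rpow_natCast ((2 : ℝ) ^ (-(κ / 8))) i, ← Real.rpow_mul (by norm_num), mul_comm (i : ℝ)]
    · rw [hρi] at hS2
      exact hS2
  · intro a ha
    set z : ℤ := ⌈a⌉ - 1 with hz
    have hz1 : (z : ℝ) < a := by
      rw [hz]
      push_cast
      have := Int.ceil_lt_add_one a
      linarith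
    have hz2 : a ≤ (z : ℝ) + 1 := by
      rw [hz]
      push_cast
      have := Int.le_ceil a
      linarith
    have h1 : ¬ ∀ i1 : ℕ, ∃ i : ℕ, i1 ≤ i ∧ a ∈ Bd z i := fun h => ha (Set.mem_iUnion.2 ⟨z, h⟩)
    push_neg at h1
    obtain ⟨i1, hi1⟩ := h1
    filter_upwards [hQ1, hR, eventually_ge_atTop i1] with i g2 g4 hi k hk N hN1 hN2
    have hnb := hi1 i hi
    have hX1 : (1 : ℝ) ≤ (2 : ℝ) ^ i := one_le_pow₀ (by norm_num)
    have hX0 : (0 : ℝ) < (2 : ℝ) ^ i := by positivity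
    have hwi : w i ≤ i := Nat.div_le_self _ _
    set lam : ℝ := ((2 : ℝ) ^ i) ^ (1 - κ / 4) with hlam
    have hlam0 : 0 ≤ lam := by positivity
    have hcells : ∀ j < 2 ^ w i, |EE g (2 ^ i + j * 2 ^ (i - w i)) (2 ^ i + (j + 1) * 2 ^ (i - w i))
        (Q i k) (R i k) (T i k) a| ≤ lam := by
      intro j hj
      by_contra hcon
      exact hnb ⟨⟨hz1, hz2⟩, k, hk, j, hj, not_le.1 hcon⟩
    refine (all_N g hwi (g2 k hk) (g4 k hk) (T i k) a lam hlam0 hcells hN1 hN2).trans ?_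
    have h2w : (2 : ℝ) ^ (w i) ≤ ((2 : ℝ) ^ i) ^ (κ / 8) := by
      rw [← Real.rpow_natCast, ← Real.rpow_natCast, ← Real.rpow_mul (by norm_num)]
      refine Real.rpow_le_rpow_of_exponent_le (by norm_num) ?_
      have h1 : ((w i : ℕ) : ℝ) ≤ (i : ℝ) / s := Nat.cast_div_le
      calc ((w i : ℕ) : ℝ) ≤ (i : ℝ) / s := h1
        _ = i * (1 / s) := by ring
        _ ≤ i * (κ / 8) := by gcongr
    have h3 : (2 : ℝ) ^ (w i) * lam ≤ ((2 : ℝ) ^ i) ^ (1 - η) := by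
      calc (2 : ℝ) ^ (w i) * lam ≤ ((2 : ℝ) ^ i) ^ (κ / 8) * ((2 : ℝ) ^ i) ^ (1 - κ / 4) := by gcongr
        _ = ((2 : ℝ) ^ i) ^ (κ / 8 + (1 - κ / 4)) := (Real.rpow_add hX0 _ _).symm
        _ ≤ _ := Real.rpow_le_rpow_of_exponent_le hX1 (by linarith)
    have h4 : (2 : ℝ) ^ (i - w i) ≤ 2 * ((2 : ℝ) ^ i) ^ (1 - η) := by
      have h5 : ((i - w i : ℕ) : ℝ) ≤ 1 + i * (1 - η) := by
        rw [Nat.cast_sub hwi]
        have h6 : (i : ℝ) < s * (w i + 1) := by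
          have := Nat.lt_mul_div_succ i hs0'
          exact_mod_cast this
        have h7 : (i : ℝ) / s < w i + 1 := by
          rw [div_lt_iff₀ hs0]
          linarith
        have h8 : (i : ℝ) * η ≤ i / s := by
          have : η ≤ 1 / s := by linarith
          calc (i : ℝ) * η ≤ i * (1 / s) := by gcongr
            _ = _ := by ring
        linarith
      calc (2 : ℝ) ^ (i - w i) = (2 : ℝ) ^ (((i - w i : ℕ)) : ℝ) := (Real.rpow_natCast _ _).symm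
        _ ≤ (2 : ℝ) ^ (1 + i * (1 - η)) := Real.rpow_le_rpow_of_exponent_le (by norm_num) h5
        _ = _ := by
            rw [Real.rpow_add (by norm_num), Real.rpow_one, Real.rpow_mul (by norm_num), Real.rpow_natCast]
    linarith

end Pool.Agent.Y122.MU
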