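import Pool.Agent.Y122.MU.Sgn
import Pool.Agent.H373R2.T7.SupLiou

/-! The Liouville function is a sign sequence with small sums. -/

set_option autoImplicit false

namespace Pool.Agent.Y122.MU

open Filter Topology

/-- Liouville signs -/
noncomputable def lio (m : ℕ) : ℝ := (-1) ^ ArithmeticFunction.cardFactors m

lemma lio_abs (m : ℕ) : |lio m| = 1 := by
  unfold lio
  rw [abs_pow, abs_neg, abs_one, one_pow]

lemma pow_log_le (K : ℕ) {n : ℕ} (hn : 2 ≤ n) : (1 : ℝ) ≤ K.factorial * (n / Real.log n ^ K) := by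
  have hn1 : (1 : ℝ) < n := by exact_mod_cast (by omega : 1 < n)
  have hl : 0 < Real.log n := Real.log_pos hn1
  have h1 := Real.pow_div_factorial_le_exp (Real.log n) hl.le K
  rw [Real.exp_log (by linarith)] at h1
  have hf : (0 : ℝ) < K.factorial := by exact_mod_cast K.factorial_pos
  rw [div_le_iff₀ hf] at h1
  rw [← mul_div_assoc, le_div_iff₀ (by positivity), one_mul]
  linarith

lemma lio_sum (K : ℕ) : ∃ B : ℝ, 0 ≤ B ∧ ∀ n : ℕ, 2 ≤ n →
    |∑ m ∈ Finset.Icc 1 n, lio m| ≤ B * (n / Real.log n ^ K) := by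
  obtain ⟨N0, h⟩ := Pool.Agent.H373R2.T7.sup_liou K
  have hf : (0 : ℝ) ≤ Real.log (N0 + 1 : ℕ) ^ K := by
    have : 0 ≤ Real.log (N0 + 1 : ℕ) := Real.log_natCast_nonneg _
    positivity
  refine ⟨1 + Real.log (N0 + 1 : ℕ) ^ K, by positivity, fun n hn => ?_⟩
  have hn1 : (1 : ℝ) < n := by exact_mod_cast (by omega : 1 < n)
  have hl : 0 < Real.log n := Real.log_pos hn1
  have hq : 0 ≤ (n : ℝ) / Real.log n ^ K := by positivity
  rcases Nat.lt_or_ge n N0 with hlt | hge
  · have h1 : |∑ m ∈ Finset.Icc 1 n, lio m| ≤ n := by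
      refine (Finset.abs_sum_le_sum_abs _ _).trans ?_
      simp only [lio_abs, Finset.sum_const, Nat.card_Icc, Nat.add_sub_cancel, nsmul_eq_mul, mul_one, le_refl]
    refine h1.trans ?_
    have h2 : Real.log n ≤ Real.log (N0 + 1 : ℕ) :=
      Real.log_le_log (by linarith) (by exact_mod_cast (by omega : n ≤ N0 + 1))
    have h3 : (n : ℝ) = Real.log n ^ K * (n / Real.log n ^ K) := by field_simp
    calc (n : ℝ) = Real.log n ^ K * (n / Real.log n ^ K) := h3
      _ ≤ Real.log (N0 + 1 : ℕ) ^ K * (n / Real.log n ^ K) := by gcongr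
      _ ≤ _ := by
          refine mul_le_mul_of_nonneg_right ?_ hq
          linarith
  · have h1 := h n hge 0
    have h2 : ∑ m ∈ Finset.Icc 1 n, Pool.Agent.H373R2.T7.liR m *
        Pool.Agent.H807R2.Dav.ee ((m : ℝ) * 0) = ((∑ m ∈ Finset.Icc 1 n, lio m : ℝ) : ℂ) := by
      rw [Complex.ofReal_sum]
      refine Finset.sum_congr rfl fun m _ => ?_
      unfold Pool.Agent.H373R2.T7.liR lio
      rw [mul_zero]
      simp [Pool.Agent.H807R2.Dav.ee]
    rw [h2, Complex.norm_real, Real.norm_eq_abs] at h1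
    refine h1.trans ?_
    have : 1 * ((n : ℝ) / Real.log n ^ K) ≤ (1 + Real.log (N0 + 1 : ℕ) ^ K) * (n / Real.log n ^ K) :=
      mul_le_mul_of_nonneg_right (by linarith) hq
    linarith

/-- the signs of `m` -/
noncomputable def s1 (m : ℕ) : ℝ := if m = 0 then -1 else lio m

/-- the signs of `m + 1` -/
noncomputable def s2 (m : ℕ) : ℝ := if m = 0 then -1 else lio (m + 1)

lemma lio_pm (m : ℕ) : lio m = 1 ∨ lio m = -1 := by
  unfold lio
  exact neg_one_pow_eq_or ℝ _

lemma small_of (s : ℕ → ℝ) (h1 : ∀ m, s m = 1 ∨ s m = -1) (h2 : s 0 = -1)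
    (h3 : ∀ n : ℕ, 1 ≤ n → |∑ m ∈ Finset.range n, s m| ≤ 2 + |∑ m ∈ Finset.Icc 1 n, lio m|) : Small s := by
  refine ⟨h1, h2, fun K => ?_⟩
  obtain ⟨B, hB0, hB⟩ := lio_sum K
  refine ⟨2 * K.factorial + B, by positivity, fun n hn => ?_⟩
  have h4 := pow_log_le K hn
  have h5 := hB n hn
  have h6 := h3 n (by omega)
  calc |∑ m ∈ Finset.range n, s m| ≤ 2 * 1 + B * (n / Real.log n ^ K) := by linarith
    _ ≤ 2 * (K.factorial * (n / Real.log n ^ K)) + B * (n / Real.log n ^ K) := by gcongr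
    _ = _ := by ring

lemma range_split (n : ℕ) (hn : 1 ≤ n) (s : ℕ → ℝ) :
    ∑ m ∈ Finset.range n, s m = s 0 + ∑ m ∈ Finset.Icc 1 (n - 1), s m := by
  have h1 : Finset.range n = insert 0 (Finset.Icc 1 (n - 1)) := by
    ext x
    rw [Finset.mem_range, Finset.mem_insert, Finset.mem_Icc]
    omega
  rw [h1, Finset.sum_insert (by simp)]

lemma icc_split (n : ℕ) (hn : 1 ≤ n) (s : ℕ → ℝ) :
    ∑ m ∈ Finset.Icc 1 n, s m = ∑ m ∈ Finset.Icc 1 (n - 1), s m + s n := by
  obtain ⟨k, rfl⟩ : ∃ k, n = k + 1 := ⟨n - 1, by omega⟩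
  rw [Nat.add_sub_cancel, Finset.sum_Icc_succ_top (by omega)]

lemma small_s1 : Small s1 := by
  refine small_of s1 (fun m => ?_) (by simp [s1]) fun n hn => ?_
  · unfold s1
    split_ifs
    · exact Or.inr rfl
    · exact lio_pm m
  · rw [range_split n hn, icc_split n hn]
    have h1 : ∑ m ∈ Finset.Icc 1 (n - 1), s1 m = ∑ m ∈ Finset.Icc 1 (n - 1), lio m := by
      refine Finset.sum_congr rfl fun m hm => ?_
      have : 1 ≤ m := (Finset.mem_Icc.1 hm).1
      unfold s1
      rw [if_neg (by omega)]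
    rw [h1]
    have h2 : s1 0 = -1 := by simp [s1]
    rw [h2]
    set S := ∑ m ∈ Finset.Icc 1 (n - 1), lio m
    have h3 := lio_abs n
    have h4 : -1 + S = (S + lio n) - (1 + lio n) := by ring
    rw [h4]
    have h5 : |1 + lio n| ≤ 2 := (abs_add_le _ _).trans (by rw [h3]; norm_num)
    exact (abs_sub _ _).trans (by linarith)

lemma small_s2 : Small s2 := by
  refine small_of s2 (fun m => ?_) (by simp [s2]) fun n hn => ?_
  · unfold s2
    split_ifs
    · exact Or.inr rfl
    · exact lio_pm _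
  · rw [range_split n hn]
    have h1 : ∑ m ∈ Finset.Icc 1 (n - 1), s2 m = ∑ m ∈ Finset.Icc 1 n, lio m - lio 1 := by
      have h2 : ∀ k : ℕ, ∑ m ∈ Finset.Icc 1 k, s2 m = ∑ m ∈ Finset.Icc 1 (k + 1), lio m - lio 1 := by
        intro k
        induction k with
        | zero => simp
        | succ k ih =>
          rw [Finset.sum_Icc_succ_top (by omega), ih, Finset.sum_Icc_succ_top (by omega : 1 ≤ k + 1 + 1)]
          have h3 : s2 (k + 1) = lio (k + 1 + 1) := by
            unfold s2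
            rw [if_neg (by omega)]
          rw [h3]
          ring
      have h3 := h2 (n - 1)
      rw [Nat.sub_add_cancel hn] at h3
      exact h3
    rw [h1]
    have h2 : s2 0 = -1 := by simp [s2]
    rw [h2]
    set S := ∑ m ∈ Finset.Icc 1 n, lio m
    have h3 := lio_abs 1
    have h4 : -1 + (S - lio 1) = S - (1 + lio 1) := by ring
    rw [h4]
    have h5 : |1 + lio 1| ≤ 2 := (abs_add_le _ _).trans (by rw [h3]; norm_num)
    exact (abs_sub _ _).trans (by linarith)

end Pool.Agent.Y122.MU
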