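import Pool.Agent.Y122.MU.Vdc
import Pool.Agent.Y122.MH.Prog

/-! The mean square law along one progression, exponent depending on the range only. -/

set_option autoImplicit false

namespace Pool.Agent.Y122.MU

open MeasureTheory
open Pool.Agent.H469R2.NK (e norm_e e_add)
open Pool.Agent.H305R2 (NN measurable_NN mem_Ioc_log ind_eq_sum)
open Pool.Agent.Y122.MH hiding exp_diff prog

theorem exp_diff (M : ℕ) : ∃ κ : ℝ, 0 < κ ∧ κ ≤ 1 / 2 ∧ ∀ c0 C0 : ℝ, 0 < c0 → 0 ≤ C0 →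
    ∃ C : ℝ, 1 ≤ C ∧ ∀ (J L : ℕ) (u ξ : ℝ) (φ : ℕ → ℝ → ℝ), 1 ≤ J → (J : ℝ) ≤ u → L ≤ J →
    u + L ≤ 3 * J → Ph c0 C0 M J φ → |ξ| ≤ (J : ℝ) ^ M →
    ‖∑ n ∈ Finset.range L, e (ξ * φ 0 (u + n)) - ∫ t in Set.Ioc (0 : ℝ) L, e (ξ * φ 0 (u + t))‖ ≤
      C * (J : ℝ) ^ (1 - κ) := by
  obtain ⟨η, hη, hη1, hv'⟩ := vdc_gen M
  refine ⟨min η (1 / 2), lt_min hη (by norm_num), min_le_right _ _, ?_⟩
  intro c0 C0 hc0 hC0
  obtain ⟨C1, hC1, hv⟩ := hv' c0 C0 hc0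
  refine ⟨1 + 2 * Real.pi * C0 + 2 * C1 + (2 / c0 + C0 / c0 ^ 2), ?_, ?_⟩
  · have hpi := Real.pi_pos
    have : 0 ≤ 2 * Real.pi * C0 + 2 * C1 + (2 / c0 + C0 / c0 ^ 2) := by positivity
    linarith
  intro J L u ξ φ hJ hu hL huL hφ hξ
  have hpi := Real.pi_pos
  have hJ1 : (1 : ℝ) ≤ J := by exact_mod_cast hJ
  have hJ0 : (0 : ℝ) < J := by linarith
  set κ := min η (1 / 2) with hκ
  have hhalf : (J : ℝ) ^ (1 / 2 : ℝ) ≤ (J : ℝ) ^ (1 - κ) := by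
    apply Real.rpow_le_rpow_of_exponent_le hJ1
    have := min_le_right η (1 / 2 : ℝ)
    linarith
  have hetaJ : (J : ℝ) ^ (1 - η) ≤ (J : ℝ) ^ (1 - κ) := by
    apply Real.rpow_le_rpow_of_exponent_le hJ1
    have := min_le_left η (1 / 2 : ℝ)
    linarith
  have hJκ : 0 < (J : ℝ) ^ (1 - κ) := Real.rpow_pos_of_pos hJ0 _
  rcases le_or_gt |ξ| ((J : ℝ) ^ (1 / 2 : ℝ)) with h1 | h1
  · refine (low hφ hc0 hC0 hJ hu huL hL).trans ?_
    calc 2 * Real.pi * C0 * |ξ| ≤ 2 * Real.pi * C0 * (J : ℝ) ^ (1 - κ) := by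
          gcongr
          exact h1.trans hhalf
      _ ≤ _ := by
          refine mul_le_mul_of_nonneg_right ?_ hJκ.le
          have : 0 ≤ 1 + 2 * C1 + (2 / c0 + C0 / c0 ^ 2) := by positivity
          linarith
  · have hs : 1 ≤ (J : ℝ) ^ (1 / 2 : ℝ) := Real.one_le_rpow hJ1 (by norm_num)
    have hξ1 : 1 ≤ |ξ| := by linarith
    have hξ0 : 0 < |ξ| := by linarith
    have hJξ : (J : ℝ) / |ξ| ≤ (J : ℝ) ^ (1 / 2 : ℝ) := by
      rw [div_le_iff₀ hξ0]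
      calc (J : ℝ) = (J : ℝ) ^ (1 / 2 : ℝ) * (J : ℝ) ^ (1 / 2 : ℝ) := by
            rw [← Real.rpow_add hJ0]
            norm_num
        _ ≤ _ := by gcongr
    have h2 := hv J L u ξ φ hJ hu hL huL hφ.der hφ.bd hξ1 hξ
    have h3 := int_osc hφ hc0 hC0 hJ hu huL hL (abs_pos.1 hξ0)
    refine (norm_sub_le _ _).trans ?_
    have h4 : C1 * ((J : ℝ) ^ (1 - η) + J / |ξ|) ≤ 2 * C1 * (J : ℝ) ^ (1 - κ) := by
      have : (J : ℝ) ^ (1 - η) + J / |ξ| ≤ 2 * (J : ℝ) ^ (1 - κ) := by linarith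
      calc C1 * ((J : ℝ) ^ (1 - η) + J / |ξ|) ≤ C1 * (2 * (J : ℝ) ^ (1 - κ)) := by gcongr
        _ = _ := by ring
    have h5 : (2 / c0 + C0 / c0 ^ 2) * (J / |ξ|) ≤ (2 / c0 + C0 / c0 ^ 2) * (J : ℝ) ^ (1 - κ) := by
      have : 0 ≤ 2 / c0 + C0 / c0 ^ 2 := by positivity
      gcongr
      linarith
    have h6 : 0 ≤ (1 + 2 * Real.pi * C0) * (J : ℝ) ^ (1 - κ) := by positivity
    nlinarith

theorem prog (M : ℕ) : ∃ κ : ℝ, 0 < κ ∧ κ ≤ 1 / 2 ∧ ∀ c0 C0 : ℝ, 0 < c0 → 0 ≤ C0 →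
    ∃ C : ℝ, 1 ≤ C ∧ ∀ (J L : ℕ) (u : ℝ) (φ : ℕ → ℝ → ℝ) (F : Finset ℕ) (m1 : ℕ), 1 ≤ J →
    (J : ℝ) ≤ u → L ≤ J → u + L ≤ 3 * J → Ph c0 C0 M J φ → (∀ m ∈ F, 1 ≤ m) → (∀ m ∈ F, m ≤ m1) →
    2 * ((m1 : ℝ) + 1) * (J : ℝ) ^ 3 ≤ (J : ℝ) ^ M →
    Integrable (fun a => (∑ n ∈ Finset.range L, hF F (φ 0 (u + n) + a) -
      ∫ t in Set.Ioc (0 : ℝ) L, hF F (φ 0 (u + t) + a)) ^ 2) ∧
    ∫ a, (∑ n ∈ Finset.range L, hF F (φ 0 (u + n) + a) -
      ∫ t in Set.Ioc (0 : ℝ) L, hF F (φ 0 (u + t) + a)) ^ 2 ≤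
      2 * (C * (J : ℝ) ^ (1 - κ)) ^ 2 * Real.log ((m1 + 1 : ℕ) : ℝ) + 16 := by
  obtain ⟨κ, hκ, hκ1, hmain'⟩ := exp_diff M
  refine ⟨κ, hκ, hκ1, fun c0 C0 hc0 hC0 => ?_⟩
  obtain ⟨C, hC, hmain⟩ := hmain' c0 C0 hc0 hC0
  refine ⟨C, hC, ?_⟩
  intro J L u φ F m1 hJ hu hL huL hφ hF1 hFm hV
  have hJ1 : (1 : ℝ) ≤ J := by exact_mod_cast hJ
  have hJ0 : (0 : ℝ) < J := by linarith
  have hL' : (L : ℝ) ≤ J := by exact_mod_cast hL
  set h : ℝ → ℂ := fun y => ((hF F y : ℝ) : ℂ) with hh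
  have hmeas : Measurable h := Complex.measurable_ofReal.comp (measurable_hF F)
  -- the measures
  set μ : Measure ℝ := ∑ n ∈ Finset.range L, Measure.dirac (φ 0 (u + n)) with hμ
  set w : ℝ → ℝ := fun t => φ 0 (u + t) with hw
  set ν : Measure ℝ := (volume.restrict (Set.Ioc (0 : ℝ) L)).map w with hν
  have hwc : ContinuousOn w (Set.Ioc (0 : ℝ) L) := by
    refine (hφ.cont (m := 0) (by omega)).comp (by fun_prop) ?_
    intro t ht
    exact ⟨by linarith [ht.1], by linarith [ht.2]⟩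
  have hwm : AEMeasurable w (volume.restrict (Set.Ioc (0 : ℝ) L)) := hwc.aemeasurable measurableSet_Ioc
  have hμf : IsFiniteMeasure μ := by
    rw [hμ]
    infer_instance
  have hνf : IsFiniteMeasure ν := by
    rw [hν]
    infer_instance
  have hμu : μ.real Set.univ ≤ J := by
    rw [Measure.real, hμ, Measure.finsetSum_apply]
    simp only [measure_univ, Finset.sum_const, Finset.card_range, nsmul_eq_mul, mul_one,
      ENNReal.toReal_natCast]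
    exact hL'
  have hνu : ν.real Set.univ ≤ J := by
    rw [Measure.real, hν, Measure.map_apply_of_aemeasurable hwm MeasurableSet.univ, Set.preimage_univ,
      Measure.restrict_apply_univ, Real.volume_Ioc, sub_zero, ENNReal.toReal_ofReal (by positivity)]
    exact hL'
  have e1 : ∀ G : ℝ → ℂ, ∫ y, G y ∂μ = ∑ n ∈ Finset.range L, G (φ 0 (u + n)) := fun G => by
    rw [hμ, integral_finsetSum_measure]
    · refine Finset.sum_congr rfl fun n _ => ?_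
      rw [integral_dirac]
    · intro n _
      exact integrable_dirac (by simp)
  have e2 : ∀ G : ℝ → ℂ, Measurable G → ∫ y, G y ∂ν = ∫ t in Set.Ioc (0 : ℝ) L, G (φ 0 (u + t)) :=
    fun G hG => by
    rw [hν, integral_map hwm hG.aestronglyMeasurable]
  have hcvμ : ∀ a, cv h μ a = ((∑ n ∈ Finset.range L, hF F (φ 0 (u + n) + a) : ℝ) : ℂ) := fun a => by
    unfold cv
    rw [e1 (fun y => h (y + a))]
    push_cast
    rfl
  have hcvν : ∀ a, cv h ν a = ((∫ t in Set.Ioc (0 : ℝ) L, hF F (φ 0 (u + t) + a) : ℝ) : ℂ) := fun a => by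
    unfold cv
    rw [e2 (fun y => h (y + a)) (hmeas.comp (measurable_id.add_const a))]
    exact integral_ofReal
  have hms := mean_sq (h := h) (integrable_hF hF1).ofReal (norm_hF_le F)
    (W := Real.log ((m1 + 1 : ℕ) : ℝ)) (V := 2 * ((m1 : ℝ) + 1)) (J := J) (Bd := C * (J : ℝ) ^ (1 - κ))
    (int_hF_le hF1 hFm) (by linarith [(Nat.cast_nonneg m1 : (0 : ℝ) ≤ m1)])
    (fun s hs => (hF_var hF1 hs).trans (by
      have h1 : (F.card : ℝ) ≤ (m1 : ℝ) + 1 := by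
        have h2 : F ⊆ Finset.range (m1 + 1) := fun m hm => Finset.mem_range.2 (Nat.lt_succ_of_le (hFm m hm))
        have h3 := Finset.card_le_card h2
        rw [Finset.card_range] at h3
        exact_mod_cast h3
      gcongr)) hJ1 (μ := μ) (ν := ν) hμu hνu (by
        have h1 := Real.one_le_rpow hJ1 (show (0 : ℝ) ≤ 1 - κ by linarith)
        nlinarith) (fun ξ hξ => by
        unfold ch
        rw [e1 (fun y => e (ξ * y)), e2 (fun y => e (ξ * y))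
          (continuous_e.measurable.comp (measurable_const.mul measurable_id))]
        exact hmain J L u ξ φ hJ hu hL huL hφ (hξ.trans hV))
  have hfun : (fun a => ‖cv h μ a - cv h ν a‖ ^ 2) = fun a =>
      (∑ n ∈ Finset.range L, hF F (φ 0 (u + n) + a) -
      ∫ t in Set.Ioc (0 : ℝ) L, hF F (φ 0 (u + t) + a)) ^ 2 := by
    funext a
    rw [hcvμ, hcvν, ← Complex.ofReal_sub, Complex.norm_real, Real.norm_eq_abs, sq_abs]
  rw [hfun] at hms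
  exact hms

end Pool.Agent.Y122.MU
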