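import Pool.Agent.Y122.MU.Blk

/-! The metric law for a sequence of signs: all polynomials of one degree, one exceptional set, all
progressions to moduli up to a power, any power of the logarithm. -/

set_option autoImplicit false

namespace Pool.Agent.Y122.MU

open MeasureTheory Polynomial Filter Topology
open Pool.Agent.H305R2 (NN measurable_NN)
open Pool.Agent.Y122.MH (hT gR gR_natDegree gR_leadingCoeff gR_eval measurable_hT)

theorem sign_law (d : ℕ) (hd0 : 1 ≤ d) : ∃ η : ℝ, 0 < η ∧ η ≤ 1 / 2 ∧ ∀ s : ℕ → ℝ, Small s →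
    ∃ E : Set ℝ, dimH E < 1 ∧ ∀ a : ℝ, a ∉ E → ∀ f : ℤ[X], f.natDegree = d → 0 < f.leadingCoeff →
    ∀ K : ℕ, ∀ᶠ N : ℕ in atTop, ∀ q r : ℕ, 1 ≤ q → (q : ℝ) ≤ (N : ℝ) ^ η → r < q →
      |∑ n ∈ (Finset.Ioc 0 N).filter (fun n => n % q = r), s (NN (Real.log ((gR f).eval (n : ℝ)) + a))| ≤
        (N : ℝ) / q / Real.log N ^ K := by
  classical
  obtain ⟨η, hη, hη1, hblk⟩ := block_s d hd0
  refine ⟨η / 32, by positivity, by linarith, fun s hs => ?_⟩
  choose! Ef hEf hbf using fun f => hblk f s hs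
  refine ⟨⋃ f : {f : ℤ[X] // f.natDegree = d ∧ 0 < f.leadingCoeff}, Ef f, ?_, ?_⟩
  · have : Countable ℤ[X] := Cardinal.mk_le_aleph0_iff.1 (Polynomial.cardinalMk_le_max.trans (by simp))
    rw [dimH_iUnion]
    refine lt_of_le_of_lt (iSup_le fun f => hEf f.1 f.2.1 f.2.2) ?_
    rw [show (1 : ENNReal) = ENNReal.ofReal 1 by simp]
    exact (ENNReal.ofReal_lt_ofReal_iff (by norm_num)).2 (by linarith)
  intro a ha' f hdf hlc K
  have ha : a ∉ Ef f := fun h => ha' (Set.mem_iUnion.2 ⟨⟨f, hdf, hlc⟩, h⟩)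
  obtain ⟨C, hC, hb⟩ := hbf f hdf hlc a ha (K + 1)
  obtain ⟨i0, hi0⟩ := eventually_atTop.1 hb
  -- smallness conditions in `j = I / 2`
  have hc1 : ∀ᶠ j : ℕ in atTop, (2 : ℝ) ≤ ((2 : ℝ) ^ j) ^ (η / 8) := by
    have hr : (1 : ℝ) < 2 ^ (η / 8) := Real.one_lt_rpow (by norm_num) (by positivity)
    filter_upwards [(tendsto_pow_atTop_atTop_of_one_lt hr).eventually_ge_atTop 2] with j hj
    have h7 : ((2 : ℝ) ^ j) ^ (η / 8) = ((2 : ℝ) ^ (η / 8)) ^ j := by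
      rw [← Real.rpow_natCast, ← Real.rpow_natCast, ← Real.rpow_mul (by norm_num),
        ← Real.rpow_mul (by norm_num), mul_comm]
    rw [h7]
    exact hj
  have hc2 : ∀ᶠ j : ℕ in atTop, 2 * (j : ℝ) ^ (K + 1) ≤ ((2 : ℝ) ^ j) ^ (1 / 2 : ℝ) := by
    have hr : (1 : ℝ) < 2 ^ (1 / 2 : ℝ) := Real.one_lt_rpow (by norm_num) (by positivity)
    have h1 := tendsto_pow_const_div_const_pow_of_one_lt (K + 1) hr
    filter_upwards [h1.eventually_lt_const (show (0 : ℝ) < 1 / 2 by positivity)] with i h3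
    have h6 : 0 < ((2 : ℝ) ^ (1 / 2 : ℝ)) ^ i := by positivity
    rw [div_lt_iff₀ h6] at h3
    have h7 : ((2 : ℝ) ^ i) ^ (1 / 2 : ℝ) = ((2 : ℝ) ^ (1 / 2 : ℝ)) ^ i := by
      rw [← Real.rpow_natCast, ← Real.rpow_natCast, ← Real.rpow_mul (by norm_num),
        ← Real.rpow_mul (by norm_num), mul_comm]
    rw [h7]
    linarith
  have hc3 : ∀ᶠ j : ℕ in atTop, (2 * C + 1) * 3 ^ (K + 1) * 2 ^ K ≤ (j : ℝ) :=
    tendsto_natCast_atTop_atTop.eventually_ge_atTop _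
  obtain ⟨j0, hj0⟩ := eventually_atTop.1 ((hc1.and hc2).and (hc3.and (eventually_ge_atTop (max i0 1))))
  filter_upwards [Pool.Agent.Y122.MH.log_large (2 * j0 + 2), eventually_ge_atTop 2] with N hN hN2 q r hq hqN hr
  set I := Nat.log 2 N with hI
  set j := I / 2 with hj
  have hjj : j0 ≤ j := by omega
  obtain ⟨⟨k1, k2⟩, k3, k4⟩ := hj0 j hjj
  have hji0 : i0 ≤ j := (le_max_left _ _).trans k4
  have hj1 : 1 ≤ j := (le_max_right _ _).trans k4
  have hjI : 2 * j ≤ I := by omega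
  have hI3j : I ≤ 3 * j := by omega
  have hNI : 2 ^ I ≤ N := Nat.pow_log_le_self 2 (by omega)
  have hNI2 : N < 2 ^ (I + 1) := Nat.lt_pow_succ_log_self (by norm_num) N
  have hj0r : (0 : ℝ) < j := by exact_mod_cast hj1
  have hj1r : (1 : ℝ) ≤ j := by exact_mod_cast hj1
  have hq0 : (0 : ℝ) < q := by exact_mod_cast hq
  have hq1 : (1 : ℝ) ≤ q := by exact_mod_cast hq
  set x : ℝ := ((2 : ℝ) ^ j) ^ (η / 8) with hx
  -- the modulus
  have hqx : (q : ℝ) ≤ x := by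
    refine hqN.trans ?_
    have h1 : (N : ℝ) ≤ ((2 : ℝ) ^ j) ^ (4 : ℝ) := by
      have h2 : N ≤ (2 ^ j) ^ 4 := by
        rw [← pow_mul]
        exact hNI2.le.trans (Nat.pow_le_pow_right (by norm_num) (by omega))
      have h3 : (N : ℝ) ≤ ((2 : ℝ) ^ j) ^ 4 := by exact_mod_cast h2
      rw [show ((2 : ℝ) ^ j) ^ (4 : ℝ) = ((2 : ℝ) ^ j) ^ (4 : ℕ) by rw [← Real.rpow_natCast]; norm_num]
      exact h3
    calc (N : ℝ) ^ (η / 32) ≤ (((2 : ℝ) ^ j) ^ (4 : ℝ)) ^ (η / 32) := by gcongr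
      _ = x := by
          rw [← Real.rpow_mul (by positivity), hx]
          congr 1
          ring
  have hqcond : ∀ i, j ≤ i → (q : ℝ) + 1 ≤ ((2 : ℝ) ^ i) ^ (η / 4) := by
    intro i hi
    have h1 : ((2 : ℝ) ^ j) ^ (η / 4) = x ^ 2 := by
      rw [hx, sq, ← Real.rpow_add (by positivity), ← add_div, ← two_mul]
      congr 1
      ring
    have h2 : ((2 : ℝ) ^ j) ^ (η / 4) ≤ ((2 : ℝ) ^ i) ^ (η / 4) := by
      have : (2 : ℝ) ^ j ≤ (2 : ℝ) ^ i := pow_le_pow_right₀ (by norm_num) hi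
      gcongr
    refine le_trans ?_ h2
    rw [h1]
    nlinarith
  set D : ℕ → ℕ → ℝ := fun A B => ∑ n ∈ (Finset.Ioc A B).filter (fun n => n % q = r),
    s (NN (Real.log ((gR f).eval (n : ℝ)) + a)) with hD
  have hDadd : ∀ A B M, A ≤ B → B ≤ M → D A M = D A B + D B M := by
    intro A B M h1 h2
    simp only [hD]
    rw [← Finset.Ioc_union_Ioc_eq_Ioc h1 h2, Finset.filter_union, Finset.sum_union]
    refine Finset.disjoint_filter_filter ?_
    rw [Finset.disjoint_left]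
    intro y hy1 hy2
    rw [Finset.mem_Ioc] at hy1 hy2
    omega
  have hblock : ∀ i, j ≤ i → ∀ M, 2 ^ i ≤ M → M ≤ 2 ^ (i + 1) → |D (2 ^ i) M| ≤ C * (2 ^ i / (q * (j : ℝ) ^ (K + 1))) := by
    intro i hi M hM1 hM2
    refine (hi0 i (hji0.trans hi) q r hq (hqcond i hi) hr M hM1 hM2).trans ?_
    have hjr : (j : ℝ) ≤ i := by exact_mod_cast hi
    gcongr
  have hsum : ∀ i, j ≤ i → |D (2 ^ j) (2 ^ i)| ≤ C * (2 ^ i / (q * (j : ℝ) ^ (K + 1))) := by
    intro i hi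
    induction i, hi using Nat.le_induction with
    | base =>
      have : D (2 ^ j) (2 ^ j) = 0 := by simp [hD]
      rw [this, abs_zero]
      positivity
    | succ i hi ih =>
      rw [hDadd (2 ^ j) (2 ^ i) (2 ^ (i + 1)) (Nat.pow_le_pow_right (by norm_num) hi)
        (Nat.pow_le_pow_right (by norm_num) (by omega))]
      have h2 := hblock i hi (2 ^ (i + 1)) (Nat.pow_le_pow_right (by norm_num) (by omega)) le_rfl
      refine (abs_add_le _ _).trans ((add_le_add ih h2).trans (le_of_eq ?_))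
      rw [pow_succ]
      ring
  have h1 : |D 0 (2 ^ j)| ≤ (2 : ℝ) ^ j := by
    simp only [hD]
    refine (Finset.abs_sum_le_sum_abs _ _).trans ?_
    have h2 : ∀ n ∈ (Finset.Ioc 0 (2 ^ j)).filter (fun n => n % q = r),
        |s (NN (Real.log ((gR f).eval (n : ℝ)) + a))| ≤ 1 := fun n _ => by
      rcases hs.1 (NN (Real.log ((gR f).eval (n : ℝ)) + a)) with h | h <;> rw [h] <;> norm_num
    refine (Finset.sum_le_sum h2).trans ?_
    rw [Finset.sum_const, nsmul_eq_mul, mul_one]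
    have h3 := Finset.card_filter_le (Finset.Ioc 0 (2 ^ j)) (fun n => n % q = r)
    rw [Nat.card_Ioc, Nat.sub_zero] at h3
    exact_mod_cast h3
  have htot : |D 0 N| ≤ (2 : ℝ) ^ j + C * (2 ^ I / (q * (j : ℝ) ^ (K + 1))) + C * (2 ^ I / (q * (j : ℝ) ^ (K + 1))) := by
    have hp1 : 2 ^ j ≤ 2 ^ I := Nat.pow_le_pow_right (by norm_num) (by omega)
    rw [hDadd 0 (2 ^ j) N (Nat.zero_le _) (hp1.trans hNI), hDadd (2 ^ j) (2 ^ I) N hp1 hNI, ← add_assoc]
    refine (abs_add_le _ _).trans (add_le_add ((abs_add_le _ _).trans (add_le_add h1 (hsum I (by omega)))) ?_)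
    exact hblock I (by omega) N hNI hNI2.le
  -- the first term
  have hNr : (2 : ℝ) ^ I ≤ N := by exact_mod_cast hNI
  have hN0 : (0 : ℝ) < N := by exact_mod_cast (by omega : 0 < N)
  have hjK : (0 : ℝ) < (j : ℝ) ^ (K + 1) := by positivity
  have h2 : (2 : ℝ) ^ j ≤ (N : ℝ) / (q * (j : ℝ) ^ (K + 1)) := by
    rw [le_div_iff₀ (by positivity)]
    have hX : (1 : ℝ) ≤ (2 : ℝ) ^ j := one_le_pow₀ (by norm_num)
    have h3 : (q : ℝ) ≤ ((2 : ℝ) ^ j) ^ (1 / 2 : ℝ) :=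
      hqx.trans (Real.rpow_le_rpow_of_exponent_le hX (by linarith))
    have h4 : ((2 : ℝ) ^ j) ^ (1 / 2 : ℝ) * ((2 : ℝ) ^ j) ^ (1 / 2 : ℝ) = (2 : ℝ) ^ j := by
      rw [← Real.rpow_add (by positivity)]
      norm_num
    calc (2 : ℝ) ^ j * (q * (j : ℝ) ^ (K + 1)) ≤
          (2 : ℝ) ^ j * (((2 : ℝ) ^ j) ^ (1 / 2 : ℝ) * ((2 : ℝ) ^ j) ^ (1 / 2 : ℝ)) := by
          gcongr
          linarith
      _ = (2 : ℝ) ^ (2 * j) := by rw [h4, two_mul, pow_add]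
      _ ≤ (2 : ℝ) ^ I := pow_le_pow_right₀ (by norm_num) hjI
      _ ≤ N := hNr
  have h3 : (2 : ℝ) ^ I / (q * (j : ℝ) ^ (K + 1)) ≤ (N : ℝ) / (q * (j : ℝ) ^ (K + 1)) := by gcongr
  have h4 : |D 0 N| ≤ (2 * C + 1) * ((N : ℝ) / (q * (j : ℝ) ^ (K + 1))) := by
    refine htot.trans ?_
    have h5 := mul_le_mul_of_nonneg_left h3 hC
    linarith
  refine h4.trans ?_
  -- compare `log N` with `j`
  have hlogN : Real.log N ≤ 2 * (3 * j) := by
    have h5 : (N : ℝ) ≤ (2 : ℝ) ^ (I + 1) := by exact_mod_cast hNI2.le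
    have h6 : Real.log N ≤ (I + 1 : ℕ) * Real.log 2 := by
      rw [← Real.log_pow]
      exact Real.log_le_log hN0 h5
    have h7 : Real.log 2 ≤ 1 := by linarith [Real.log_two_lt_d9]
    have h8 : ((I + 1 : ℕ) : ℝ) ≤ 2 * (3 * j) := by
      have : I + 1 ≤ 2 * (3 * j) := by omega
      exact_mod_cast this
    have h9 : 0 ≤ Real.log 2 := (Real.log_pos (by norm_num)).le
    calc Real.log N ≤ (I + 1 : ℕ) * Real.log 2 := h6
      _ ≤ (I + 1 : ℕ) * 1 := by gcongr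
      _ ≤ _ := by linarith
  have hlog0 : 0 < Real.log N := Real.log_pos (by exact_mod_cast (by omega : 1 < N))
  rw [div_div, ← mul_div_assoc, div_le_div_iff₀ (by positivity) (by positivity)]
  have h5 : Real.log N ^ K ≤ (2 * (3 * (j : ℝ))) ^ K := by gcongr
  have h6 : (2 * (3 * (j : ℝ))) ^ K = 2 ^ K * 3 ^ K * (j : ℝ) ^ K := by rw [mul_pow, mul_pow]; ring
  have h7 : (2 * C + 1) * (2 ^ K * 3 ^ K) ≤ (j : ℝ) := by
    refine le_trans ?_ k3
    have : (3 : ℝ) ^ K ≤ 3 ^ (K + 1) := pow_le_pow_right₀ (by norm_num) (by omega)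
    calc (2 * C + 1) * (2 ^ K * 3 ^ K) ≤ (2 * C + 1) * (2 ^ K * 3 ^ (K + 1)) := by gcongr
      _ = _ := by ring
  calc (2 * C + 1) * (N : ℝ) * (q * Real.log N ^ K) ≤ (2 * C + 1) * (N : ℝ) * (q * (2 ^ K * 3 ^ K * (j : ℝ) ^ K)) := by
        rw [← h6]
        gcongr
    _ = (N : ℝ) * (q * ((2 * C + 1) * (2 ^ K * 3 ^ K) * (j : ℝ) ^ K)) := by ring
    _ ≤ (N : ℝ) * (q * (j * (j : ℝ) ^ K)) := by gcongr
    _ = _ := by rw [pow_succ]; ring

end Pool.Agent.Y122.MU
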