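import Pool.Agent.H221R2.FB_VdcGen

/-! van der Corput estimate with an exponent that depends on the range of frequencies only (from the starting library). -/

set_option autoImplicit false

namespace Pool.Agent.Y122.MU

open Finset
open Pool.Agent.H469R2.NK (e norm_e e_add conj_e vdcH kusmin_landau_anti
  norm_sum_neg Av Av_le Cq Cq_pos iterate harm_le)
open Pool.Agent.H221R2.FB (Hyp EG SG SG_le exp_boundG alg_aux2)

theorem exp_sum_boundG (Q : ℕ) (hQ : 1 ≤ Q) :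
    ∃ η : ℝ, 0 < η ∧ η ≤ 1 ∧ ∀ c0 C0 : ℝ, 0 < c0 → 1 ≤ C0 → ∃ C : ℝ, 0 < C ∧ ∀ (N L : ℕ) (u Z : ℝ) (φ : ℕ → ℝ → ℝ), 1 ≤ N →
      (N : ℝ) ≤ u → L ≤ N → u + L ≤ 3 * N → Hyp (Q + 2) N c0 C0 φ → 1 ≤ Z → Z ≤ (N : ℝ) ^ Q →
      ‖∑ n ∈ range L, e (Z * φ 0 (u + n))‖ ≤ C * ((N : ℝ) ^ (1 - η) + N / Z) := by
  set η : ℝ := 1 / (4 * Q * 2 ^ Q) with hη
  have hQ' : (1 : ℝ) ≤ Q := by exact_mod_cast hQ
  have h2Q : (1 : ℝ) ≤ 2 ^ Q := one_le_pow₀ (by norm_num)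
  have hη0 : 0 < η := by rw [hη]; positivity
  have hη1 : η ≤ 1 / 4 := by
    rw [hη, div_le_div_iff₀ (by positivity) (by norm_num)]
    nlinarith
  refine ⟨η, hη0, by linarith, ?_⟩
  intro c0 C0 hc0 hC0
  set N0 : ℝ := max 16 ((2 * C0) ^ 4) with hN0
  set K : ℝ := Cq Q * (2 + (2 / c0) * 2 ^ Q * (1 + 4 * Q) ^ Q) with hK
  have hCq := Cq_pos Q
  have hK0 : 0 < K := by rw [hK]; positivity
  set C : ℝ := max (max (2 / c0) N0) (K ^ ((1 : ℝ) / 2 ^ Q)) with hC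
  refine ⟨C, by rw [hC]; positivity, ?_⟩
  intro N L u Z φ hN ha hL haL h hZ1 hZ2
  have hN' : (1 : ℝ) ≤ N := by exact_mod_cast hN
  have hNpos : (0 : ℝ) < N := by linarith
  have hC6 : 2 / c0 ≤ C := (le_max_left _ _).trans (le_max_left _ _)
  have hCN0 : N0 ≤ C := (le_max_right _ _).trans (le_max_left _ _)
  have hCK : K ^ ((1 : ℝ) / 2 ^ Q) ≤ C := le_max_right _ _
  have hCpos : 0 < C := lt_of_lt_of_le (by positivity) hC6
  have hZ : 0 < Z := by linarith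
  have hSS : ∑ n ∈ range L, e (Z * φ 0 (u + n)) = SG φ Z u L [] := by
    unfold SG
    simp only [List.sum_nil, Nat.sub_zero]
    rfl
  rw [hSS]
  have htriv : ‖SG φ Z u L []‖ ≤ N := by
    unfold SG
    refine (norm_sum_le _ _).trans ?_
    simp only [norm_e, sum_const, card_range, nsmul_eq_mul, mul_one, List.sum_nil, Nat.sub_zero]
    exact_mod_cast hL
  have hp1 : 0 ≤ C * (N / Z) := by positivity
  have hp2 : 0 ≤ C * (N : ℝ) ^ (1 - η) := by positivity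
  rcases lt_or_ge (N : ℝ) N0 with hsmall | hbig
  · refine htriv.trans ?_
    calc (N : ℝ) ≤ N0 * 1 := by linarith
      _ ≤ C * (N : ℝ) ^ (1 - η) := by
        gcongr
        exact Real.one_le_rpow hN' (by linarith)
      _ ≤ _ := by rw [mul_add]; linarith
  have h16 : (16 : ℝ) ≤ N := (le_max_left _ _).trans hbig
  have hfac : (2 * C0) ^ 4 ≤ (N : ℝ) := (le_max_right _ _).trans hbig
  have hfac4 : 2 * C0 ≤ (N : ℝ) ^ (1 / 4 : ℝ) := by
    have h1 : ((2 * C0) ^ (4 : ℕ)) ^ (1 / 4 : ℝ) ≤ (N : ℝ) ^ (1 / 4 : ℝ) := by gcongr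
    rw [← Real.rpow_natCast, ← Real.rpow_mul (by positivity)] at h1
    norm_num at h1
    norm_num
    exact h1
  rcases le_or_gt Z ((N : ℝ) ^ (3 / 4 : ℝ)) with hcase | hcase
  · -- direct Kusmin–Landau
    have h1 := SG_le hc0 Z hZ N h u L hN ha haL [] (by simp) (by simp) (by
      simp only [List.length_nil, zero_add, List.prod_nil, Nat.cast_one, mul_one, pow_one]
      have e2 : (N : ℝ) ^ (3 / 4 : ℝ) * (N : ℝ) ^ (1 / 4 : ℝ) = (N : ℝ) := by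
        rw [← Real.rpow_add hNpos]; norm_num
      rw [← mul_div_assoc, ← mul_div_assoc, div_le_one (by positivity)]
      calc 2 * (Z * C0) = Z * (2 * C0) := by ring
        _ ≤ (N : ℝ) ^ (3 / 4 : ℝ) * (N : ℝ) ^ (1 / 4 : ℝ) := by gcongr
        _ = N := e2)
    simp only [List.length_nil, zero_add, List.prod_nil, Nat.cast_one, mul_one, pow_one] at h1
    refine h1.trans ?_
    have e3 : 2 * (N : ℝ) / (Z * c0) = (2 / c0) * (N / Z) := by field_simp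
    rw [e3, mul_add]
    have e4 : (2 / c0) * (N / Z) ≤ C * (N / Z) := by gcongr
    linarith
  · -- Weyl - van der Corput
    set hh : ℝ := ((N : ℝ) ^ (Q + 1 / 2 : ℝ) / Z) ^ ((1 : ℝ) / Q) with hhd
    have hhQ : hh ^ Q = (N : ℝ) ^ (Q + 1 / 2 : ℝ) / Z := by
      rw [hhd, ← Real.rpow_natCast, ← Real.rpow_mul (by positivity),
        one_div_mul_cancel (by positivity), Real.rpow_one]
    have hh0 : 0 ≤ hh := by rw [hhd]; positivity
    have hlow : (N : ℝ) ^ (1 / 2 : ℝ) ≤ hh ^ Q := by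
      rw [hhQ, le_div_iff₀ hZ]
      calc (N : ℝ) ^ (1 / 2 : ℝ) * Z ≤ (N : ℝ) ^ (1 / 2 : ℝ) * (N : ℝ) ^ Q := by gcongr
        _ = _ := by
          rw [← Real.rpow_natCast, ← Real.rpow_add hNpos]
          congr 1; ring
    have hupp : hh ^ Q ≤ (N : ℝ) ^ Q := by
      rw [hhQ, div_le_iff₀ hZ]
      calc (N : ℝ) ^ (Q + 1 / 2 : ℝ) ≤ (N : ℝ) ^ (Q + 3 / 4 : ℝ) := by
            apply Real.rpow_le_rpow_of_exponent_le hN'; linarith
        _ = (N : ℝ) ^ Q * (N : ℝ) ^ (3 / 4 : ℝ) := by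
            rw [Real.rpow_add hNpos, Real.rpow_natCast]
        _ ≤ _ := by gcongr
    have hhN : hh ≤ N := le_of_pow_le_pow_left₀ (by omega) (by positivity) hupp
    have hN12 : (1 : ℝ) ≤ (N : ℝ) ^ (1 / 2 : ℝ) := Real.one_le_rpow hN' (by norm_num)
    have hh1 : 1 ≤ hh := by
      by_contra hlt
      rw [not_le] at hlt
      have : hh ^ Q ≤ 1 := pow_le_one₀ hh0 hlt.le
      have h4 : (4 : ℝ) ≤ (N : ℝ) ^ (1 / 2 : ℝ) := by
        calc (4 : ℝ) = (16 : ℝ) ^ (1 / 2 : ℝ) := by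
              rw [show (16 : ℝ) = 4 ^ (2 : ℝ) by norm_num, ← Real.rpow_mul (by norm_num)]; norm_num
          _ ≤ _ := by gcongr
      linarith
    set H : ℕ := ⌊hh⌋₊ with hH
    have hH1 : 1 ≤ H := Nat.one_le_floor_iff _ |>.mpr hh1
    have hHle : (H : ℝ) ≤ hh := Nat.floor_le hh0
    have hHN : H ≤ N := by exact_mod_cast hHle.trans hhN
    have hHge : hh / 2 ≤ H := by
      have h1 : hh < H + 1 := Nat.lt_floor_add_one hh
      have h2 : (1 : ℝ) ≤ H := by exact_mod_cast hH1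
      linarith
    have hH1' : (1 : ℝ) ≤ H := by exact_mod_cast hH1
    have hsq : 2 * C0 ≤ (N : ℝ) ^ (1 / 2 : ℝ) := by
      refine hfac4.trans ?_
      apply Real.rpow_le_rpow_of_exponent_le hN'
      norm_num
    have hZh : Z * hh ^ Q = (N : ℝ) ^ (Q + 1 / 2 : ℝ) := by rw [hhQ]; field_simp
    have hcond : 2 * (Z * (C0 / (N : ℝ) ^ (Q + 1) * (H : ℝ) ^ Q)) ≤ 1 := by
      have e1 : (N : ℝ) ^ (Q + 1) = (N : ℝ) ^ (Q + 1 / 2 : ℝ) * (N : ℝ) ^ (1 / 2 : ℝ) := by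
        rw [← Real.rpow_add hNpos, ← Real.rpow_natCast]; congr 1; push_cast; ring
      have e2 : 2 * (Z * (C0 / (N : ℝ) ^ (Q + 1) * (H : ℝ) ^ Q)) =
          (2 * C0) * (Z * (H : ℝ) ^ Q) / (N : ℝ) ^ (Q + 1) := by
        ring
      rw [e2, div_le_one (by positivity), e1, ← hZh]
      calc (2 * C0) * (Z * (H : ℝ) ^ Q) ≤ (N : ℝ) ^ (1 / 2 : ℝ) * (Z * hh ^ Q) := by gcongr
        _ = _ := by ring
    have hb := exp_boundG hc0 (by linarith) Q le_rfl Z hZ N h u L H hN ha hL haL hH1 hHN hcond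
    -- first term
    have hhlow : (N : ℝ) ^ ((1 : ℝ) / (2 * Q)) ≤ hh := by
      have : ((N : ℝ) ^ ((1 : ℝ) / (2 * Q))) ^ Q ≤ hh ^ Q := by
        rw [← Real.rpow_natCast, ← Real.rpow_mul (by positivity)]
        refine le_trans (le_of_eq ?_) hlow
        congr 1; field_simp
      exact le_of_pow_le_pow_left₀ (by omega) hh0 this
    have hQpos : (0 : ℝ) < Q := by linarith
    have hterm1 : 1 / (H : ℝ) ≤ 2 * (N : ℝ) ^ (-(1 : ℝ) / (4 * Q)) := by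
      have h1 : (0 : ℝ) < (N : ℝ) ^ ((1 : ℝ) / (4 * Q)) := by positivity
      have h2 : (N : ℝ) ^ ((1 : ℝ) / (4 * Q)) ≤ (N : ℝ) ^ ((1 : ℝ) / (2 * Q)) := by
        apply Real.rpow_le_rpow_of_exponent_le hN'
        gcongr; norm_num
      rw [neg_div, Real.rpow_neg (by positivity), ← div_eq_mul_inv,
        div_le_div_iff₀ (by positivity) h1]
      linarith
    have hlog : 1 + Real.log H ≤ (1 + 4 * Q) * (N : ℝ) ^ ((1 : ℝ) / (4 * Q)) := by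
      have h1 : Real.log H ≤ Real.log N := Real.log_le_log (by positivity) (by exact_mod_cast hHN)
      have h2 := Real.log_le_rpow_div (x := N) (ε := (1 : ℝ) / (4 * Q)) (by positivity)
        (by positivity)
      have h3 : (N : ℝ) ^ ((1 : ℝ) / (4 * Q)) / ((1 : ℝ) / (4 * Q)) =
          4 * Q * (N : ℝ) ^ ((1 : ℝ) / (4 * Q)) := by
        field_simp
      have h4 : (1 : ℝ) ≤ (N : ℝ) ^ ((1 : ℝ) / (4 * Q)) := Real.one_le_rpow hN' (by positivity)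
      rw [h3] at h2
      nlinarith
    have hterm2 : (2 * (N : ℝ) ^ (Q + 1) / (Z * c0) / N) *
          ((∑ l ∈ Ico 1 H, (1 : ℝ) / l) / H) ^ Q ≤
        (2 / c0) * 2 ^ Q * (1 + 4 * Q) ^ Q * (N : ℝ) ^ (-(1 : ℝ) / (4 * Q)) := by
      have hs0 : 0 ≤ ∑ l ∈ Ico 1 H, (1 : ℝ) / l := sum_nonneg fun _ _ => by positivity
      have h1 : ((∑ l ∈ Ico 1 H, (1 : ℝ) / l) / H) ^ Q ≤
          (((1 + 4 * Q) * (N : ℝ) ^ ((1 : ℝ) / (4 * Q))) / (hh / 2)) ^ Q := by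
        gcongr
        exact (harm_le H).trans hlog
      have h2 : (((1 + 4 * Q) * (N : ℝ) ^ ((1 : ℝ) / (4 * Q))) / (hh / 2)) ^ Q =
          (1 + 4 * Q) ^ Q * (N : ℝ) ^ ((1 : ℝ) / 4) * 2 ^ Q / hh ^ Q := by
        rw [div_pow, mul_pow, div_pow, div_div_eq_mul_div]
        congr 3
        rw [← Real.rpow_natCast, ← Real.rpow_mul (by positivity)]
        congr 1; field_simp
      have h3 : (N : ℝ) ^ ((1 : ℝ) / 4) * (N : ℝ) ^ Q * (N : ℝ) ^ ((1 : ℝ) / (4 * Q)) ≤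
          Z * hh ^ Q := by
        rw [hZh, ← Real.rpow_natCast, ← Real.rpow_add hNpos, ← Real.rpow_add hNpos]
        apply Real.rpow_le_rpow_of_exponent_le hN'
        have : (1 : ℝ) / (4 * Q) ≤ 1 / 4 := by
          rw [div_le_div_iff₀ (by positivity) (by norm_num)]; linarith
        linarith
      have hNQ : (0 : ℝ) < (N : ℝ) ^ ((1 : ℝ) / (4 * Q)) := by positivity
      calc _ ≤ (2 * (N : ℝ) ^ (Q + 1) / (Z * c0) / N) *
            ((1 + 4 * Q) ^ Q * (N : ℝ) ^ ((1 : ℝ) / 4) * 2 ^ Q / hh ^ Q) := by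
              rw [← h2]; gcongr
        _ = (2 / c0) * 2 ^ Q * (1 + 4 * Q) ^ Q *
            (((N : ℝ) ^ ((1 : ℝ) / 4) * (N : ℝ) ^ Q) / (Z * hh ^ Q)) := by
            rw [pow_succ (N : ℝ) Q]
            exact alg_aux2 _ _ _ _ _ _ _ _ hZ.ne' hNpos.ne' hc0.ne' (by positivity)
        _ ≤ _ := by
            gcongr
            rw [neg_div, Real.rpow_neg (by positivity), ← one_div,
              div_le_div_iff₀ (by positivity) hNQ]
            linarith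
    have hfin : (‖SG φ Z u L []‖ / N) ^ (2 ^ Q) ≤ K * (N : ℝ) ^ (-(1 : ℝ) / (4 * Q)) := by
      refine hb.trans ?_
      calc _ ≤ Cq Q * (2 * (N : ℝ) ^ (-(1 : ℝ) / (4 * Q)) +
            (2 / c0) * 2 ^ Q * (1 + 4 * Q) ^ Q * (N : ℝ) ^ (-(1 : ℝ) / (4 * Q))) := by
            gcongr
        _ = _ := by rw [hK]; ring
    have hroot : ‖SG φ Z u L []‖ / N ≤ K ^ ((1 : ℝ) / 2 ^ Q) * (N : ℝ) ^ (-η) := by
      have h1 : (‖SG φ Z u L []‖ / N) =
          ((‖SG φ Z u L []‖ / N) ^ (2 ^ Q)) ^ ((1 : ℝ) / 2 ^ Q) := by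
        rw [← Real.rpow_natCast, ← Real.rpow_mul (by positivity)]
        push_cast
        rw [mul_one_div_cancel (by positivity), Real.rpow_one]
      rw [h1]
      calc _ ≤ (K * (N : ℝ) ^ (-(1 : ℝ) / (4 * Q))) ^ ((1 : ℝ) / 2 ^ Q) := by gcongr
        _ = K ^ ((1 : ℝ) / 2 ^ Q) * (N : ℝ) ^ (-(1 : ℝ) / (4 * Q) * (1 / 2 ^ Q)) := by
            rw [Real.mul_rpow hK0.le (by positivity), ← Real.rpow_mul (by positivity)]
        _ ≤ _ := by
            gcongr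
            have : -(1 : ℝ) / (4 * Q) * (1 / 2 ^ Q) = -(1 / (4 * Q * 2 ^ Q)) := by
              field_simp
            rw [this, hη]
    rw [div_le_iff₀ hNpos] at hroot
    calc ‖SG φ Z u L []‖ ≤ K ^ ((1 : ℝ) / 2 ^ Q) * (N : ℝ) ^ (-η) * N := hroot
      _ ≤ C * (N : ℝ) ^ (-η) * N := by gcongr
      _ = C * (N : ℝ) ^ (1 - η) := by
        rw [mul_assoc, sub_eq_neg_add, Real.rpow_add hNpos, Real.rpow_one]
      _ ≤ _ := by rw [mul_add]; linarith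

theorem vdc_gen (M : ℕ) : ∃ η : ℝ, 0 < η ∧ η ≤ 1 ∧ ∀ c0 C0 : ℝ, 0 < c0 → ∃ C : ℝ, 0 < C ∧
    ∀ (J L : ℕ) (u ξ : ℝ) (φ : ℕ → ℝ → ℝ), 1 ≤ J → (J : ℝ) ≤ u → L ≤ J → u + L ≤ 3 * J →
    (∀ m ≤ M + 4, ∀ t ∈ Set.Icc (J : ℝ) (3 * J), HasDerivAt (φ m) (φ (m + 1) t) t) →
    (∀ m, 1 ≤ m → m ≤ M + 4 → ∀ t ∈ Set.Icc (J : ℝ) (3 * J),
      c0 ≤ (-1) ^ (m + 1) * φ m t * (J : ℝ) ^ m ∧ (-1) ^ (m + 1) * φ m t * (J : ℝ) ^ m ≤ C0) →
    1 ≤ |ξ| → |ξ| ≤ (J : ℝ) ^ M →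
    ‖∑ n ∈ range L, e (ξ * φ 0 (u + n))‖ ≤ C * ((J : ℝ) ^ (1 - η) + J / |ξ|) := by
  obtain ⟨η, hη0, hη1, hmain'⟩ := exp_sum_boundG (M + 1) (by omega)
  refine ⟨η, hη0, hη1, fun c0 C0 hc0 => ?_⟩
  obtain ⟨C, hC, hmain⟩ := hmain' c0 (max C0 1) hc0 (le_max_right _ _)
  refine ⟨C, hC, ?_⟩
  intro J L u ξ φ hJ hu hL huL hder hbd h1 h2
  have hJ' : (1 : ℝ) ≤ J := by exact_mod_cast hJ
  have h3 : |ξ| ≤ (J : ℝ) ^ (M + 1) := h2.trans (pow_le_pow_right₀ hJ' (by omega))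
  have hyp : Hyp (M + 1 + 2) J c0 (max C0 1) φ :=
    ⟨fun m hm t ht => hder m (by omega) t ht, fun m hm1 hm2 t ht =>
      ⟨(hbd m hm1 (by omega) t ht).1, (hbd m hm1 (by omega) t ht).2.trans (le_max_left _ _)⟩⟩
  have h4 := hmain J L u |ξ| φ hJ hu hL huL hyp h1 h3
  rcases le_or_gt 0 ξ with h | h
  · rw [abs_of_nonneg h] at h4 ⊢
    exact h4
  · rw [abs_of_neg h] at h4 ⊢
    refine le_trans (le_of_eq ?_) h4
    rw [← norm_sum_neg]
    congr 1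
    refine sum_congr rfl fun n _ => ?_
    congr 1; ring

end Pool.Agent.Y122.MU
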